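import Pool.Agent.LPG.Gen

/-!
# Vertex figures and branches (MP_c76e9d_co, module Branch)

`poly_nb`: for `v ∈ nb N K s` use the functional of `Adj N K s v` (zero on `K`, `s`, `v`, so zero on
`ad K s` by `vanish_ad`, positive on the rest of `N`, hence of `nb N K s`); for the second condition
use the functional of `s` (elements of `nb N K s` are in `N` and differ from `s`).

`br_face`: let `f` be the functional of `VAdj N K s a b`: zero on `ad K s`, at `a` and `b`, positive on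
the rest of `nb N K s`.  For `v ∈ N`, `v ≠ s`, `gen` gives `v = ∑ c u • u` modulo `ad K s`, so
`f v = ∑ c u * f u ≥ 0`, and if `f v = 0` then `c u = 0` for `u ≠ a, b`, so `Br N K s a b v` with
`α = c a`, `β = c b`.  Conversely `Br` gives `f v = 0`.

`br_nb`: from `br_face` or directly: `f u = 0` for `u ∈ nb` only if `u = a` or `u = b`.

`br_pos`: if `Br N K s a b v` and `v ∉ nb N K s` then the coefficients are positive: if `α = 0` then
`v = β b` modulo `ad K s`; `v ≠ b` since `b ∈ nb`, so this contradicts `three` (with `u := s`, `v := b`,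
`w := v`).  Similarly `β = 0`.

`br_uniq`: let `v = α a + β b` with `α, β > 0` modulo `ad K s` and let `f'` be the functional of
`br_face` for `a' b'`.  `0 = f' v = α f' a + β f' b` with `f' a, f' b ≥ 0`, so `f' a = f' b = 0`, so by
`br_face` and `br_nb` `a, b ∈ {a', b'}`, and `a ≠ b`.
-/

set_option autoImplicit false

namespace Pool.Agent.LPG

variable {W : Type*} [AddCommGroup W] [Module ℝ W] {N : Finset W} {K : Submodule ℝ W}

theorem poly_nb (h : Poly N K) {s : W} (hs : s ∈ N) : Poly (nb N K s) (ad K s) := by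
  constructor
  · intro v hv
    obtain ⟨_, _, _, f, hK, hfs, hfv, hf⟩ := mem_nb.1 hv
    refine ⟨f, vanish_ad hK hfs, hfv, fun w hw hwv => ?_⟩
    have hw' := mem_nb.1 hw
    exact hf w hw'.2.1 (Ne.symm hw'.2.2.1) hwv
  · obtain ⟨f, hK, hfs, hf⟩ := h.1 s hs
    refine ⟨f, vanish_ad hK hfs, fun w hw => ?_⟩
    have hw' := mem_nb.1 hw
    exact hf w hw'.2.1 (Ne.symm hw'.2.2.1)

private theorem bra_zero {s a b v : W} {f : W →ₗ[ℝ] ℝ} (hf : ∀ z ∈ ad K s, f z = 0)
    (ha : f a = 0) (hb : f b = 0) (hbr : Br N K s a b v) : f v = 0 := by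
  obtain ⟨_, _, α, β, _, _, h⟩ := hbr
  have h1 := hf _ h
  simp only [map_sub, map_add, map_smul, ha, hb, smul_zero, add_zero, sub_zero] at h1
  exact h1

theorem br_face (h : Poly N K) {s a b : W} (hs : s ∈ N) (hab : VAdj N K s a b) :
    ∃ f : W →ₗ[ℝ] ℝ, (∀ z ∈ K, f z = 0) ∧ f s = 0 ∧ (∀ v ∈ N, 0 ≤ f v) ∧
      ∀ v ∈ N, v ≠ s → (f v = 0 ↔ Br N K s a b v) := by
  classical
  obtain ⟨ha, hb, hne, f, hf, hfa, hfb, hpos⟩ := hab
  have hK : ∀ z ∈ K, f z = 0 := fun z hz => hf z (le_ad K s hz)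
  have hfs : f s = 0 := hf s (self_mem_ad K s)
  have hnn : ∀ u ∈ nb N K s, 0 ≤ f u := by
    intro u hu
    by_cases h1 : u = a
    · rw [h1, hfa]
    by_cases h2 : u = b
    · rw [h2, hfb]
    exact (hpos u hu h1 h2).le
  refine ⟨f, hK, hfs, nonneg_of_nb h hs f hK hfs hnn, fun v hv hvs => ⟨fun hfv => ?_, fun hbr =>
    bra_zero hf hfa hfb hbr⟩⟩
  obtain ⟨c, hc, hcv⟩ := gen h hs hv hvs
  have h1 := hf _ hcv
  rw [map_sub, map_sum, hfv] at h1
  simp only [map_smul, smul_eq_mul] at h1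
  have h2 : ∀ u ∈ nb N K s, 0 ≤ c u * f u := fun u hu => mul_nonneg (hc u hu) (hnn u hu)
  have h3 : ∀ u ∈ nb N K s, c u * f u = 0 := by
    have h4 : ∑ u ∈ nb N K s, c u * f u = 0 := by linarith
    exact (Finset.sum_eq_zero_iff_of_nonneg h2).1 h4
  have h5 : ∑ u ∈ nb N K s, c u • u = c a • a + c b • b := by
    have h6 : ∑ u ∈ ({a, b} : Finset W), c u • u = ∑ u ∈ nb N K s, c u • u := by
      apply Finset.sum_subset
      · intro u hu
        rw [Finset.mem_insert, Finset.mem_singleton] at hu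
        rcases hu with rfl | rfl
        · exact ha
        · exact hb
      · intro u hu hu'
        rw [Finset.mem_insert, Finset.mem_singleton, not_or] at hu'
        rcases mul_eq_zero.1 (h3 u hu) with h7 | h7
        · rw [h7, zero_smul]
        · exact absurd h7 (hpos u hu hu'.1 hu'.2).ne'
    rw [← h6, Finset.sum_pair hne]
  rw [h5] at hcv
  exact ⟨hv, hvs, c a, c b, hc a ha, hc b hb, hcv⟩

theorem br_left {s a b : W} (hab : VAdj N K s a b) : Br N K s a b a := by
  have ha := mem_nb.1 hab.1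
  exact ⟨ha.2.1, Ne.symm ha.2.2.1, 1, 0, zero_le_one, le_refl _, by
    simp only [one_smul, zero_smul, add_zero, sub_self]
    exact Submodule.zero_mem _⟩

theorem br_right {s a b : W} (hab : VAdj N K s a b) : Br N K s a b b := by
  have hb := mem_nb.1 hab.2.1
  exact ⟨hb.2.1, Ne.symm hb.2.2.1, 0, 1, le_refl _, zero_le_one, by
    simp only [one_smul, zero_smul, zero_add, sub_self]
    exact Submodule.zero_mem _⟩

theorem br_nb (h : Poly N K) {s a b u : W} (hs : s ∈ N) (hab : VAdj N K s a b)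
    (hu : u ∈ nb N K s) (hbr : Br N K s a b u) : u = a ∨ u = b := by
  obtain ⟨ha, hb, hne, f, hf, hfa, hfb, hpos⟩ := hab
  by_contra hno
  rw [not_or] at hno
  exact absurd (bra_zero hf hfa hfb hbr) (hpos u hu hno.1 hno.2).ne'

theorem br_pos (h : Poly N K) {s a b v : W} (hs : s ∈ N) (hab : VAdj N K s a b)
    (hv : Br N K s a b v) (hn : v ∉ nb N K s) :
    ∃ α β : ℝ, 0 < α ∧ 0 < β ∧ v - (α • a + β • b) ∈ ad K s := by
  have ha := mem_nb.1 hab.1
  have hb := mem_nb.1 hab.2.1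
  obtain ⟨hvN, hvs, α, β, hα, hβ, hm⟩ := hv
  have hva : v ≠ a := fun e => hn (e ▸ hab.1)
  have hvb : v ≠ b := fun e => hn (e ▸ hab.2.1)
  have hα0 : α ≠ 0 := by
    intro h0
    rw [h0, zero_smul, zero_add] at hm
    exact three h hs hb.2.1 hvN hb.2.2.1 (Ne.symm hvs) (Ne.symm hvb) β hm
  have hβ0 : β ≠ 0 := by
    intro h0
    rw [h0, zero_smul, add_zero] at hm
    exact three h hs ha.2.1 hvN ha.2.2.1 (Ne.symm hvs) (Ne.symm hva) α hm
  exact ⟨α, β, lt_of_le_of_ne hα (Ne.symm hα0), lt_of_le_of_ne hβ (Ne.symm hβ0), hm⟩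

theorem br_uniq (h : Poly N K) {s a b a' b' v : W} (hs : s ∈ N) (hab : VAdj N K s a b)
    (hab' : VAdj N K s a' b') (hv : Br N K s a b v) (hv' : Br N K s a' b' v)
    (hn : v ∉ nb N K s) : (a' = a ∧ b' = b) ∨ (a' = b ∧ b' = a) := by
  have ha := mem_nb.1 hab.1
  have hb := mem_nb.1 hab.2.1
  obtain ⟨α, β, hα, hβ, hm⟩ := br_pos h hs hab hv hn
  obtain ⟨f, hK, hfs, hnn, hiff⟩ := br_face h hs hab'
  have hfv : f v = 0 := (hiff v hv.1 hv.2.1).2 hv'
  have h1 := vanish_ad hK hfs _ hm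
  simp only [map_sub, map_add, map_smul, smul_eq_mul, hfv] at h1
  have hfa := hnn a ha.2.1
  have hfb := hnn b hb.2.1
  have h2 := mul_nonneg hα.le hfa
  have h3 := mul_nonneg hβ.le hfb
  have hfa0 : f a = 0 := by
    rcases mul_eq_zero.1 (le_antisymm (by linarith : α * f a ≤ 0) h2) with h4 | h4
    · exact absurd h4 hα.ne'
    · exact h4
  have hfb0 : f b = 0 := by
    rcases mul_eq_zero.1 (le_antisymm (by linarith : β * f b ≤ 0) h3) with h4 | h4
    · exact absurd h4 hβ.ne'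
    · exact h4
  have h4 := br_nb h hs hab' hab.1 ((hiff a ha.2.1 (Ne.symm ha.2.2.1)).1 hfa0)
  have h5 := br_nb h hs hab' hab.2.1 ((hiff b hb.2.1 (Ne.symm hb.2.2.1)).1 hfb0)
  have hne := hab.2.2.1
  rcases h4 with h4 | h4 <;> rcases h5 with h5 | h5
  · exact absurd (h4.trans h5.symm) hne
  · exact Or.inl ⟨h4.symm, h5.symm⟩
  · exact Or.inr ⟨h5.symm, h4.symm⟩
  · exact absurd (h4.trans h5.symm) hne

end Pool.Agent.LPG
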