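import Pool.Agent.LPG.Conn
import Pool.Agent.LPG.Branch

/-!
# Branches are connected (MP_c76e9d_co, module BrConn)

Let `f` be the functional of `br_face` for `a b`.

`br_conn`: let `ψ` be the functional of `s` (zero on `K` and at `s`, positive on the rest of `N`), and
choose `M ≥ 0` so large that `ψ v - M f v ≤ 0` for all `v ∈ N` with `f v > 0` (finite set).  For
`φ = ψ - M f` the elements of `N` with `φ > 0` are exactly the `v ≠ s` with `f v = 0`, that is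
`Br N K s a b v`.  Apply `conn` and rewrite the relation (`Relation.ReflTransGen.mono`; the vertices of
`Adj` are in `N`).

`br_exit`: the same with `φ' = φ - M f`, `M` such that `φ v - M f v ≤ 0` for all `v ∈ N` with `f v > 0`:
the elements of `N` with `φ' > 0` are those with `f = 0`, `φ > 0`; they differ from `s` as `φ s = 0`, so
they satisfy `Br`.  `φ' y > 0`, so `pos_nb` gives `u ∈ nb N K s` with `φ' u > 0`; use `conn` from `y` to
`u`.
-/

set_option autoImplicit false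

namespace Pool.Agent.LPG

variable {W : Type*} [AddCommGroup W] [Module ℝ W] {N : Finset W} {K : Submodule ℝ W}

private theorem brc_core (h : Poly N K) {s a b : W} (hs : s ∈ N) (hab : VAdj N K s a b)
    (φ : W →ₗ[ℝ] ℝ) (hφK : ∀ z ∈ K, φ z = 0) (hφs : φ s = 0) :
    ∃ φ' : W →ₗ[ℝ] ℝ, (∀ z ∈ K, φ' z = 0) ∧ φ' s = 0 ∧
      ∀ v ∈ N, (0 < φ' v ↔ Br N K s a b v ∧ 0 < φ v) := by
  obtain ⟨f, hfK, hfs, hf0, hf⟩ := br_face h hs hab
  have hM : ∀ v ∈ N, 0 < f v → φ v ≤ (∑ w ∈ N, |φ w| / f w) * f v := by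
    intro v hv hfv
    have h1 : |φ v| / f v ≤ ∑ w ∈ N, |φ w| / f w :=
      Finset.single_le_sum (f := fun w => |φ w| / f w)
        (fun w hw => div_nonneg (abs_nonneg _) (hf0 w hw)) hv
    have h2 := mul_le_mul_of_nonneg_right h1 hfv.le
    rw [div_mul_cancel₀ _ hfv.ne'] at h2
    exact (le_abs_self _).trans h2
  refine ⟨φ - (∑ w ∈ N, |φ w| / f w) • f, ?_, ?_, ?_⟩
  · intro z hz
    rw [LinearMap.sub_apply, LinearMap.smul_apply, hφK z hz, hfK z hz, smul_zero, sub_zero]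
  · rw [LinearMap.sub_apply, LinearMap.smul_apply, hφs, hfs, smul_zero, sub_zero]
  · intro v hv
    rw [LinearMap.sub_apply, LinearMap.smul_apply, smul_eq_mul]
    constructor
    · intro hpos
      rcases (hf0 v hv).eq_or_lt with h0 | h0
      · rw [← h0, mul_zero, sub_zero] at hpos
        have hvs : v ≠ s := by
          rintro rfl
          rw [hφs] at hpos
          exact lt_irrefl _ hpos
        exact ⟨(hf v hv hvs).1 h0.symm, hpos⟩
      · have := hM v hv h0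
        exfalso
        linarith
    · rintro ⟨hbr, hpos⟩
      rw [(hf v hv hbr.2.1).2 hbr, mul_zero, sub_zero]
      exact hpos

theorem br_conn (h : Poly N K) {s a b v w : W} (hs : s ∈ N) (hab : VAdj N K s a b)
    (hv : Br N K s a b v) (hw : Br N K s a b w) :
    Relation.ReflTransGen (fun p q => Adj N K p q ∧ Br N K s a b p ∧ Br N K s a b q) v w := by
  obtain ⟨ψ, hψK, hψs, hψ⟩ := h.1 s hs
  obtain ⟨φ', hK, _, hφ'⟩ := brc_core h hs hab ψ hψK hψs
  have h1 : 0 < φ' v := (hφ' v hv.1).2 ⟨hv, hψ v hv.1 hv.2.1⟩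
  have h2 : 0 < φ' w := (hφ' w hw.1).2 ⟨hw, hψ w hw.1 hw.2.1⟩
  refine Relation.ReflTransGen.mono ?_ _ _ (conn h φ' hK hv.1 hw.1 h1 h2)
  rintro p q ⟨hadj, hp, hq⟩
  exact ⟨hadj, ((hφ' p hadj.1).1 hp).1, ((hφ' q hadj.2.1).1 hq).1⟩

theorem br_exit (h : Poly N K) {s a b y : W} (hs : s ∈ N) (hab : VAdj N K s a b)
    (hy : Br N K s a b y) (φ : W →ₗ[ℝ] ℝ) (hφK : ∀ z ∈ K, φ z = 0) (hφs : φ s = 0)
    (hφy : 0 < φ y) :
    ∃ u ∈ nb N K s, Br N K s a b u ∧ 0 < φ u ∧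
      Relation.ReflTransGen (fun p q => Adj N K p q ∧ Br N K s a b p ∧ Br N K s a b q ∧
        0 < φ p ∧ 0 < φ q) y u := by
  obtain ⟨φ', hK, hs', hφ'⟩ := brc_core h hs hab φ hφK hφs
  have h1 : 0 < φ' y := (hφ' y hy.1).2 ⟨hy, hφy⟩
  obtain ⟨u, hu, hu0⟩ := pos_nb h hs hy.1 φ' hK hs' h1
  have huN : u ∈ N := (mem_nb.1 hu).2.1
  obtain ⟨hbr, hφu⟩ := (hφ' u huN).1 hu0
  refine ⟨u, hu, hbr, hφu, Relation.ReflTransGen.mono ?_ _ _ (conn h φ' hK hy.1 huN h1 hu0)⟩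
  rintro p q ⟨hadj, hp, hq⟩
  obtain ⟨a1, a2⟩ := (hφ' p hadj.1).1 hp
  obtain ⟨a3, a4⟩ := (hφ' q hadj.2.1).1 hq
  exact ⟨hadj, a1, a3, a2, a4⟩

end Pool.Agent.LPG
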