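import Pool.Agent.LPG.Branch

/-!
# Edges of unblocked branches are unblocked (MP_c76e9d_co, module BrStep)

Let `a b` be an edge of the vertex figure which avoids `Λ' ⊇ ad Λ s` (so `a, b ∉ Λ'` and
`α a + β b ∉ Λ'` for `α, β > 0`; hence `α a + β b ∉ Λ'` for all `α, β ≥ 0` not both `0`).  Let `p`, `q`
be on the branch: `p = α a + β b`, `q = γ a + δ b` modulo `ad K s` with coefficients `≥ 0`; not both
coefficients of `p` vanish (`two` : `p ∉ ad K s`), the same for `q`.  Since `ad K s ≤ ad Λ s ≤ Λ'`, `p ∉ Λ'`,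
so `p ∉ Λ` (`Λ ≤ ad Λ s`); the same for `q`, and `x p + y q = (x α + y γ) a + (x β + y δ) b` modulo
`ad K s` with `x, y > 0` has coefficients `≥ 0`, not both zero.
-/

set_option autoImplicit false

namespace Pool.Agent.LPG

variable {W : Type*} [AddCommGroup W] [Module ℝ W] {N : Finset W} {K : Submodule ℝ W}

theorem br_step (h : Poly N K) {s a b p q : W} (hs : s ∈ N) {Λ Λ' : Submodule ℝ W} (hK : K ≤ Λ)
    (hΛ : ad Λ s ≤ Λ') (hab : Step (nb N K s) (ad K s) Λ' a b) (hp : Br N K s a b p)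
    (hq : Br N K s a b q) (hpq : Adj N K p q) : Step N K Λ p q := by
  obtain ⟨_, ha, hb, hc⟩ := hab
  have key : ∀ x y : ℝ, 0 ≤ x → 0 ≤ y → ¬ (x = 0 ∧ y = 0) → x • a + y • b ∉ Λ' := by
    intro x y hx hy hxy hmem
    rcases hx.eq_or_lt with hx0 | hx0
    · rcases hy.eq_or_lt with hy0 | hy0
      · exact hxy ⟨hx0.symm, hy0.symm⟩
      · rw [← hx0, zero_smul, zero_add] at hmem
        apply hb
        have := Λ'.smul_mem y⁻¹ hmem
        rwa [smul_smul, inv_mul_cancel₀ hy0.ne', one_smul] at this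
    · rcases hy.eq_or_lt with hy0 | hy0
      · rw [← hy0, zero_smul, add_zero] at hmem
        apply ha
        have := Λ'.smul_mem x⁻¹ hmem
        rwa [smul_smul, inv_mul_cancel₀ hx0.ne', one_smul] at this
      · exact hc x y hx0 hy0 hmem
  have hKΛ : ad K s ≤ Λ' := le_trans (sup_le_sup_right hK _) hΛ
  have hΛΛ : Λ ≤ Λ' := le_trans (le_ad Λ s) hΛ
  obtain ⟨hpN, hps, α, β, hα, hβ, hpm⟩ := hp
  obtain ⟨hqN, hqs, γ, δ, hγ, hδ, hqm⟩ := hq
  have hnp : ¬ (α = 0 ∧ β = 0) := by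
    rintro ⟨rfl, rfl⟩
    rw [zero_smul, zero_smul, add_zero, sub_zero] at hpm
    exact two h hs hpN hps hpm
  have hnq : ¬ (γ = 0 ∧ δ = 0) := by
    rintro ⟨rfl, rfl⟩
    rw [zero_smul, zero_smul, add_zero, sub_zero] at hqm
    exact two h hs hqN hqs hqm
  refine ⟨hpq, fun hpΛ => ?_, fun hqΛ => ?_, fun x y hx hy hmem => ?_⟩
  · apply key α β hα hβ hnp
    have := Λ'.sub_mem (hΛΛ hpΛ) (hKΛ hpm)
    rwa [sub_sub_cancel] at this
  · apply key γ δ hγ hδ hnq
    have := Λ'.sub_mem (hΛΛ hqΛ) (hKΛ hqm)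
    rwa [sub_sub_cancel] at this
  · have h0 : ¬ (x * α + y * γ = 0 ∧ x * β + y * δ = 0) := by
      rintro ⟨h1, h2⟩
      have e1 : 0 ≤ x * α := mul_nonneg hx.le hα
      have e2 : 0 ≤ y * γ := mul_nonneg hy.le hγ
      have e3 : 0 ≤ x * β := mul_nonneg hx.le hβ
      have e4 : 0 ≤ y * δ := mul_nonneg hy.le hδ
      apply hnp
      constructor
      · have : x * α = 0 := by linarith
        exact (mul_eq_zero.1 this).resolve_left hx.ne'
      · have : x * β = 0 := by linarith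
        exact (mul_eq_zero.1 this).resolve_left hx.ne'
    apply key (x * α + y * γ) (x * β + y * δ)
      (add_nonneg (mul_nonneg hx.le hα) (mul_nonneg hy.le hγ))
      (add_nonneg (mul_nonneg hx.le hβ) (mul_nonneg hy.le hδ)) h0
    have hA := Λ'.smul_mem x (hKΛ hpm)
    have hB := Λ'.smul_mem y (hKΛ hqm)
    have := Λ'.sub_mem (Λ'.sub_mem (hΛΛ hmem) hA) hB
    have e : (x • p + y • q - x • (p - (α • a + β • b)) - y • (q - (γ • a + δ • b)))
        = (x * α + y * γ) • a + (x * β + y * δ) • b := by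
      module
    rwa [e] at this

end Pool.Agent.LPG
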