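import Pool.Agent.LPG.Gen

/-!
# Open half spaces induce connected subgraphs (MP_c76e9d_co, module Conn)

`conn`: let `φ` vanish on `K`, `φ v > 0`, `φ w > 0`.  Let `ψ` be the functional of `w` (`ψ w = 0`, `ψ > 0`
on the rest of `N`, zero on `K`).  Claim: if `p ∈ N`, `p ≠ w`, `φ p > 0`, there is `q` with
`Adj N K p q`, `φ q > 0` and `ψ q / φ q < ψ p / φ p`.  Put `μ = ψ p / φ p > 0`, `f = μ φ - ψ`: `f p = 0`,
`f w = μ φ w > 0`.  By `pos_nb` (at `p`, with `w`) there is a neighbour `q` of `p` with `f q > 0`, that is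
`ψ q < μ φ q`; as `ψ q ≥ 0` and `μ > 0` we get `φ q > 0` and `ψ q / φ q < μ`.  So starting with `v` we
reach `w` (induction on the number of elements of `N` with `φ > 0` and smaller quotient).
-/

set_option autoImplicit false

namespace Pool.Agent.LPG

variable {W : Type*} [AddCommGroup W] [Module ℝ W] {N : Finset W} {K : Submodule ℝ W}

private theorem conn_step (h : Poly N K) (φ ψ : W →ₗ[ℝ] ℝ) (hφ : ∀ z ∈ K, φ z = 0)
    (hψ : ∀ z ∈ K, ψ z = 0) {p w : W} (hp : p ∈ N)
    (hw : w ∈ N) (hψw : ψ w = 0) (hψpos : ∀ q ∈ N, q ≠ w → 0 < ψ q) (hφp : 0 < φ p)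
    (hφw : 0 < φ w) (hpw : p ≠ w) :
    ∃ q, Adj N K p q ∧ 0 < φ q ∧ ψ q / φ q < ψ p / φ p := by
  have hμ : 0 < ψ p / φ p := div_pos (hψpos p hp hpw) hφp
  set μ := ψ p / φ p with hμdef
  obtain ⟨q, hq, hfq⟩ := pos_nb h hp hw (μ • φ - ψ)
    (fun z hz => by simp [hφ z hz, hψ z hz])
    (by simp [hμdef]; field_simp; ring)
    (by simp [hψw]; exact mul_pos hμ hφw)
  have hadj := mem_nb.1 hq
  have hqN : q ∈ N := hadj.2.1
  simp only [LinearMap.sub_apply, LinearMap.smul_apply, smul_eq_mul] at hfq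
  have hψq : 0 ≤ ψ q := by
    by_cases hqw : q = w
    · rw [hqw, hψw]
    · exact (hψpos q hqN hqw).le
  have hφq : 0 < φ q := by
    by_contra hcon
    push Not at hcon
    nlinarith [mul_nonneg hμ.le (neg_nonneg.2 hcon)]
  refine ⟨q, hadj, hφq, ?_⟩
  rw [div_lt_iff₀ hφq]
  linarith

theorem conn (h : Poly N K) (φ : W →ₗ[ℝ] ℝ) (hφ : ∀ z ∈ K, φ z = 0) {v w : W} (hv : v ∈ N)
    (hw : w ∈ N) (hφv : 0 < φ v) (hφw : 0 < φ w) :
    Relation.ReflTransGen (fun p q => Adj N K p q ∧ 0 < φ p ∧ 0 < φ q) v w := by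
  classical
  obtain ⟨ψ, hψK, hψw, hψpos⟩ := h.1 w hw
  have key : ∀ (n : ℕ) (p : W), p ∈ N → 0 < φ p →
      (N.filter (fun q => ψ q / φ q < ψ p / φ p)).card ≤ n →
      Relation.ReflTransGen (fun p q => Adj N K p q ∧ 0 < φ p ∧ 0 < φ q) p w := by
    intro n
    induction n with
    | zero =>
      intro p hp hφp hcard
      by_cases hpw : p = w
      · rw [hpw]
      · obtain ⟨q, hadj, hφq, hlt⟩ := conn_step h φ ψ hφ hψK hp hw hψw hψpos hφp hφw hpw
        exfalso
        have : q ∈ N.filter (fun q => ψ q / φ q < ψ p / φ p) :=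
          Finset.mem_filter.2 ⟨hadj.2.1, hlt⟩
        have h0 := Finset.card_eq_zero.1 (Nat.le_zero.1 hcard)
        rw [h0] at this
        exact absurd this (Finset.notMem_empty q)
    | succ n ih =>
      intro p hp hφp hcard
      by_cases hpw : p = w
      · rw [hpw]
      · obtain ⟨q, hadj, hφq, hlt⟩ := conn_step h φ ψ hφ hψK hp hw hψw hψpos hφp hφw hpw
        refine Relation.ReflTransGen.head ⟨hadj, hφp, hφq⟩ (ih q hadj.2.1 hφq ?_)
        have hss : N.filter (fun r => ψ r / φ r < ψ q / φ q) ⊂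
            N.filter (fun r => ψ r / φ r < ψ p / φ p) := by
          rw [Finset.ssubset_iff_of_subset]
          · exact ⟨q, Finset.mem_filter.2 ⟨hadj.2.1, hlt⟩, fun hq =>
              lt_irrefl _ (Finset.mem_filter.1 hq).2⟩
          · intro r hr
            obtain ⟨hr1, hr2⟩ := Finset.mem_filter.1 hr
            exact Finset.mem_filter.2 ⟨hr1, hr2.trans hlt⟩
        have := Finset.card_lt_card hss
        omega
  exact key _ v hv hφv le_rfl

end Pool.Agent.LPG
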