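import Pool.Agent.LPG.LM

/-!
# Counting the bad pairs and the main step (module Core2)

`count_bad`: in the first step no pair is bad before, so `nbad i` means `VAdj (s' i) (t' i)` and there is
`z i ∈ Z` on that branch (`s' i = e (s i.succ)`, `t' i = e (t i.succ)`).  The elements `s i.succ`,
`t i.succ` are not in `Z`: by `occ` (for `a b = s' i, t' i` and for the reversed pair) `s' i ∈ X`, or
`s' i = e x` with `x ∈ X`, `x ∉ Z`.  In the second case `x = s i.succ` (`e` injective on `X`).  In the first case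
`s' i = e (s' i)` (by `sub` for `x = v = s' i`, as `s' i ∈ nb` and `s' i ∉ Vc = ∅`), so `s i.succ = s' i ∈ nb`, so it is
not in `Z` (`zx`).  The `z i` are different for different bad `i` (`br_uniq`: the pairs `{s' i, t' i}` are
disjoint, and `z i ∉ nb`).  So the elements `s i.succ`, `t i.succ` (in `X \ Z`) and `z i` (in `Z`) for bad `i`
are `3 * (number of bad i)` different elements of `X`.

`core2`: `m + 1 = k ≥ 3` pairs, `O` the set of the `2k` terminals, nothing bad.  First step with
`Vc = ∅`, `X.card = 2k - 1 < 3k - 2 ≤ n`.  New state: `O'` has at most `2k - 1` elements, `k - 1` pairs, the number of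
bad ones is at most `(2k - 1) / 3 < k - 1`, so there is one which is not bad, and `lm1` applies:
`(2k - 1) + (k - 2) = 3k - 3 ≤ n - 1`.
-/

set_option autoImplicit false

namespace Pool.Agent.LPG

variable {W : Type*} [AddCommGroup W] [Module ℝ W] [DecidableEq W] {N : Finset W}
  {K : Submodule ℝ W}

private theorem cb_inj {s : W} {X : Finset W} {S : W → Finset W} {e : W → W} {Z : Finset W}
    (hG : GoodR N K s X ∅ S e Z) {x y : W} (hx : x ∈ X) (hy : y ∈ X) (hxy : e x = e y) :
    x = y := by
  by_contra hne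
  have h1 := (hG.mem x hx).2.1
  have h2 := (hG.mem y hy).2.1
  rw [← hxy] at h2
  exact Finset.disjoint_left.1 (hG.disj x hx y hy hne) h1 h2

private theorem cb_notz {s : W} {X : Finset W} {S : W → Finset W} {e : W → W} {Z : Finset W}
    (hG : GoodR N K s X ∅ S e Z) {x b z : W} (hx : x ∈ X) (hz : z ∈ Z)
    (hv : VAdj N K s (e x) b) (hb : Br N K s (e x) b z) : x ∉ Z := by
  rcases hG.occ z hz (e x) b hv hb with ha | ⟨y, hy, hyZ, hye⟩
  · have han : e x ∈ nb N K s := hv.1
    rcases (hG.sub (e x) ha (e x) (hG.mem (e x) ha).1).2.2 han with h1 | ⟨_, h2⟩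
    · have h3 : x = e x := cb_inj hG hx ha h1
      intro hxZ
      apply (hG.zx x hxZ).2
      rw [h3]
      exact han
    · exact absurd h2 (Finset.notMem_empty _)
  · have h3 : y = x := cb_inj hG hy hx hye
    rwa [← h3]

open Classical in
theorem count_bad {O : Finset W} {m : ℕ} {s t : Fin (m + 1) → W} {bad : Fin (m + 1) → Prop}
    (hst : State N K O s t bad) (hb : ∀ i, ¬ bad i) {S : W → Finset W} {e : W → W}
    {Z : Finset W} (hG : GoodR N K (s 0) (O.erase (s 0)) ∅ S e Z) :
    3 * (Finset.univ.filter (fun i : Fin m => nbad N K s t bad e Z i)).card ≤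
      (O.erase (s 0)).card := by
  have hsX : ∀ i : Fin m, s i.succ ∈ O.erase (s 0) := by
    intro i
    rw [Finset.mem_erase]
    refine ⟨fun h => ?_, hst.smem _⟩
    exact Fin.succ_ne_zero i (hst.sinj _ _ h)
  have htX : ∀ i : Fin m, t i.succ ∈ O.erase (s 0) := by
    intro i
    rw [Finset.mem_erase]
    exact ⟨fun h => hst.st 0 i.succ h.symm, hst.tmem _⟩
  have hs0 : s 0 ∈ N := hst.sub (hst.smem 0)
  set B := Finset.univ.filter (fun i : Fin m => nbad N K s t bad e Z i) with hB
  have hz : ∀ i ∈ B, VAdj N K (s 0) (e (s i.succ)) (e (t i.succ)) ∧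
      ∃ z ∈ Z, Br N K (s 0) (e (s i.succ)) (e (t i.succ)) z := by
    intro i hi
    obtain ⟨h1, h2⟩ := (Finset.mem_filter.1 hi).2
    exact ⟨h1, h2.resolve_left (hb _)⟩
  have hz' : ∀ i ∈ B, ∃ z, z ∈ Z ∧ Br N K (s 0) (e (s i.succ)) (e (t i.succ)) z := fun i hi => by
    obtain ⟨z, h1, h2⟩ := (hz i hi).2
    exact ⟨z, h1, h2⟩
  choose! z hzZ hzB using hz'
  have hsZ : ∀ i ∈ B, s i.succ ∉ Z := fun i hi =>
    cb_notz hG (hsX i) (hzZ i hi) (hz i hi).1 (hzB i hi)
  have htZ : ∀ i ∈ B, t i.succ ∉ Z := fun i hi =>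
    cb_notz hG (htX i) (hzZ i hi) (adj_symm (hz i hi).1) (br_comm (hzB i hi))
  have c1 : (B.image (fun i => s i.succ)).card = B.card := by
    refine Finset.card_image_of_injective _ fun i j hij => ?_
    exact Fin.succ_injective _ (hst.sinj _ _ hij)
  have c2 : (B.image (fun i => t i.succ)).card = B.card := by
    refine Finset.card_image_of_injective _ fun i j hij => ?_
    exact Fin.succ_injective _ (hst.tinj _ _ hij)
  have c3 : (B.image z).card = B.card := by
    refine Finset.card_image_of_injOn fun i hi j hj hij => ?_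
    have hi' : i ∈ B := hi
    have hj' : j ∈ B := hj
    have hb1 := hzB i hi'
    have hb2 := hzB j hj'
    have hij' : z i = z j := hij
    rw [← hij'] at hb2
    have hn := (hG.zx _ (hzZ i hi')).2
    rcases br_uniq hst.poly hs0 (hz i hi').1 (hz j hj').1 hb1 hb2 hn with ⟨h1, _⟩ | ⟨h1, _⟩
    · exact (Fin.succ_injective _ (hst.sinj _ _ (cb_inj hG (hsX j) (hsX i) h1))).symm
    · exact absurd (cb_inj hG (hsX j) (htX i) h1) (hst.st _ _)
  have d1 : Disjoint (B.image (fun i => s i.succ)) (B.image (fun i => t i.succ)) := by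
    rw [Finset.disjoint_left]
    intro x hx hx'
    obtain ⟨i, _, rfl⟩ := Finset.mem_image.1 hx
    obtain ⟨j, _, hj⟩ := Finset.mem_image.1 hx'
    exact hst.st _ _ hj.symm
  have d2 : Disjoint (B.image (fun i => s i.succ) ∪ B.image (fun i => t i.succ))
      (B.image z) := by
    rw [Finset.disjoint_left]
    intro x hx hx'
    obtain ⟨j, hj, rfl⟩ := Finset.mem_image.1 hx'
    rcases Finset.mem_union.1 hx with h | h
    · obtain ⟨i, hi, hi'⟩ := Finset.mem_image.1 h
      have hi'' : s i.succ = z j := hi'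
      exact hsZ i hi (hi'' ▸ hzZ j hj)
    · obtain ⟨i, hi, hi'⟩ := Finset.mem_image.1 h
      have hi'' : t i.succ = z j := hi'
      exact htZ i hi (hi'' ▸ hzZ j hj)
  have hsub : (B.image (fun i => s i.succ) ∪ B.image (fun i => t i.succ)) ∪ B.image z ⊆
      O.erase (s 0) := by
    intro x hx
    rcases Finset.mem_union.1 hx with hx | hx
    · rcases Finset.mem_union.1 hx with hx | hx
      · obtain ⟨i, _, rfl⟩ := Finset.mem_image.1 hx
        exact hsX i
      · obtain ⟨i, _, rfl⟩ := Finset.mem_image.1 hx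
        exact htX i
    · obtain ⟨i, hi, rfl⟩ := Finset.mem_image.1 hx
      exact (hG.zx _ (hzZ i hi)).1
  have hc := Finset.card_le_card hsub
  rw [Finset.card_union_of_disjoint d2, Finset.card_union_of_disjoint d1, c1, c2, c3] at hc
  omega

theorem core2 {O : Finset W} {m : ℕ} {s t : Fin (m + 1) → W} {bad : Fin (m + 1) → Prop} {n : ℕ}
    (hst : State N K O s t bad) (hb : ∀ i, ¬ bad i) (hn : DimGe N K n) (hm : 2 ≤ m)
    (hO : O.card = 2 * (m + 1)) (hc : 3 * m + 1 ≤ n) : Linked2 N K O s t bad := by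
  have hs0 : s 0 ∈ N := hst.sub (hst.smem 0)
  have hXc : (O.erase (s 0)).card = 2 * m + 1 := by
    rw [Finset.card_erase_of_mem (hst.smem 0), hO]
    omega
  have hXN : O.erase (s 0) ⊆ N := fun x hx => hst.sub (Finset.mem_of_mem_erase hx)
  obtain ⟨S, e, Z, hG⟩ := good_routing hst.poly hs0 (O.erase (s 0)) ∅ hXN
    (Finset.notMem_erase _ _) (Finset.empty_subset _)
    (fun v hv => absurd hv (Finset.notMem_empty _)) hn
    (by rw [hXc, Finset.card_empty]; omega)
  refine link2_step hst (fun h => absurd h (hb 0)) (fun _ => rfl) hG ?_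
  have hst' := state_step hst (fun h => absurd h (hb 0)) (fun _ => rfl) hG
  have hcb := count_bad hst hb hG
  obtain ⟨m', rfl⟩ : ∃ m', m = m' + 1 := ⟨m - 1, by omega⟩
  obtain ⟨n', rfl⟩ : ∃ n', n = n' + 1 := ⟨n - 1, by omega⟩
  refine lm1 hst' (dim_nb hst.poly hs0 hn) ?_ ?_
  · have h1 : ((O.erase (s 0)).image e ∪ ∅).card ≤ 2 * (m' + 1) + 1 := by
      rw [Finset.union_empty, ← hXc]
      exact Finset.card_image_le
    omega
  · by_contra hcon
    push Not at hcon
    classical
    have hall : (Finset.univ.filter (fun i : Fin (m' + 1) => nbad N K s t bad e Z i)) =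
        Finset.univ := Finset.filter_true_of_mem fun i _ => hcon i
    rw [hXc] at hcb
    have h2 : (Finset.univ.filter (fun i : Fin (m' + 1) => nbad N K s t bad e Z i)).card =
        m' + 1 := by
      rw [hall, Finset.card_univ, Fintype.card_fin]
    have h3 : 3 * (Finset.univ.filter
        (fun i : Fin (m' + 1) => nbad N K s t bad e Z i)).card ≤ 2 * (m' + 1) + 1 := by
      convert hcb
    rw [h2] at h3
    omega

end Pool.Agent.LPG
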