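import Mathlib

/-!
# Linkages in graphs of polytopes: definitions (MP_c76e9d_co)

Polytopes in homogeneous coordinates, relative to a subspace.  `N` is a finite set of vectors of a
real vector space `W`, `K` a subspace.  `Poly N K` says that the images of the vectors of `N` in
`W / K` span the extreme rays of a pointed cone, each ray once (equivalently `N` modulo `K` is, up
to scaling, the vertex set of a polytope).  Everything is expressed by linear functionals of `W`
which vanish on `K`.  The vertex figure of `(N, K)` at `s` is `(nb N K s, K + ℝ s)`.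

Paper proof of the main theorem (Theorem I): let `T` be `2k` vertices, linearly independent modulo
a subspace `Λ` containing `K`.  Then every pairing of `T` is linked by `k` disjoint paths of the
graph whose vertices and edges all avoid `Λ` (`Step`).  Induction on `k`: take the centre
`s = s_1`; move the other terminals to distinct neighbours of `s` which are independent modulo
`Λ + ℝ s` (`Routing`, by the matroid version `MR` of the theorem of Menger), link in the vertex
figure modulo `Λ + ℝ s + ℝ u`, and replace the edges of the vertex figure by the branches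
(`2`-faces through `s` minus `s`).
-/

set_option autoImplicit false

namespace Pool.Agent.LPG

variable {W : Type*} [AddCommGroup W] [Module ℝ W]

/-- `N` is, modulo `K`, the vertex set of a polytope in homogeneous coordinates: every element of
`N` is exposed, and the cone is pointed. -/
def Poly (N : Finset W) (K : Submodule ℝ W) : Prop :=
  (∀ v ∈ N, ∃ f : W →ₗ[ℝ] ℝ, (∀ z ∈ K, f z = 0) ∧ f v = 0 ∧ ∀ w ∈ N, w ≠ v → 0 < f w) ∧
  ∃ f : W →ₗ[ℝ] ℝ, (∀ z ∈ K, f z = 0) ∧ ∀ w ∈ N, 0 < f w

/-- `u` and `v` are adjacent: they are the two vertices of an exposed edge. -/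
def Adj (N : Finset W) (K : Submodule ℝ W) (u v : W) : Prop :=
  u ∈ N ∧ v ∈ N ∧ u ≠ v ∧ ∃ f : W →ₗ[ℝ] ℝ, (∀ z ∈ K, f z = 0) ∧ f u = 0 ∧ f v = 0 ∧
    ∀ w ∈ N, w ≠ u → w ≠ v → 0 < f w

open Classical in
/-- The neighbours of `s`. -/
noncomputable def nb (N : Finset W) (K : Submodule ℝ W) (s : W) : Finset W :=
  N.filter (fun v => Adj N K s v)

/-- The line spanned by `s` added to `K`. -/
def ad (K : Submodule ℝ W) (s : W) : Submodule ℝ W := K ⊔ Submodule.span ℝ {s}

/-- `v` lies in the cone of `a` and `b` modulo `K + ℝ s`: for an edge `a b` of the vertex figure of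
`s` these are the vertices other than `s` of the `2`-face spanned by `s`, `a`, `b`. -/
def Br (N : Finset W) (K : Submodule ℝ W) (s a b v : W) : Prop :=
  v ∈ N ∧ v ≠ s ∧ ∃ α β : ℝ, 0 ≤ α ∧ 0 ≤ β ∧ v - (α • a + β • b) ∈ ad K s

/-- Edges of the vertex figure. -/
def VAdj (N : Finset W) (K : Submodule ℝ W) (s a b : W) : Prop :=
  Adj (nb N K s) (ad K s) a b

/-- Edges which do not meet `Λ` (neither in an end nor in the relative interior). -/
def Step (N : Finset W) (K Λ : Submodule ℝ W) (u v : W) : Prop :=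
  Adj N K u v ∧ u ∉ Λ ∧ v ∉ Λ ∧ ∀ α β : ℝ, 0 < α → 0 < β → α • u + β • v ∉ Λ

/-- The arcs along which terminals may move towards the neighbours of `s`: never through `s`, never
out of a neighbour of `s`, and a terminal inside a branch stays on that branch. -/
def Arc (N : Finset W) (K Λ : Submodule ℝ W) (s v w : W) : Prop :=
  Step N K Λ v w ∧ v ≠ s ∧ w ≠ s ∧ v ∉ nb N K s ∧
    ∀ a b, VAdj N K s a b → Br N K s a b v → Br N K s a b w

/-- The pairs `s i, t i` are linked by disjoint connected sets of vertices whose edges avoid `Λ`. -/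
def Linked (N : Finset W) (K Λ : Submodule ℝ W) {k : ℕ} (s t : Fin k → W) : Prop :=
  ∃ S : Fin k → Finset W, (∀ i j, i ≠ j → Disjoint (S i) (S j)) ∧
    ∀ i, s i ∈ S i ∧ t i ∈ S i ∧ ∀ v ∈ S i,
      Relation.ReflTransGen (fun p q => Step N K Λ p q ∧ p ∈ S i ∧ q ∈ S i) (s i) v

/-- Rank functions of matroids (on finite subsets). -/
structure IsRk {V : Type*} [DecidableEq V] (r : Finset V → ℕ) : Prop where
  empty : r ∅ = 0
  mono : ∀ A B, A ⊆ B → r A ≤ r B
  insert_le : ∀ v A, r (insert v A) ≤ r A + 1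
  submod : ∀ A B, r (A ∪ B) + r (A ∩ B) ≤ r A + r B

/-- `v` can be reached from `a` along arcs of `E`, avoiding `C` (including `a` and `v`). -/
def Av {V : Type*} (E : Finset (V × V)) (C : Finset V) (a v : V) : Prop :=
  a ∉ C ∧ Relation.ReflTransGen (fun u w => (u, w) ∈ E ∧ w ∉ C) a v

/-- Disjoint paths from `A` along arcs of `E`, indexed by `Fin k`, given by their vertex sets,
starts `a` and ends `e`. -/
def PathSys {V : Type*} (E : Finset (V × V)) (A : Finset V) {k : ℕ} (S : Fin k → Finset V)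
    (a e : Fin k → V) : Prop :=
  (∀ i j, i ≠ j → Disjoint (S i) (S j)) ∧
    ∀ i, a i ∈ A ∧ a i ∈ S i ∧ e i ∈ S i ∧ ∀ v ∈ S i,
      Relation.ReflTransGen (fun u w => (u, w) ∈ E ∧ u ∈ S i ∧ w ∈ S i ∧ u ≠ e i) (a i) v ∧
      Relation.ReflTransGen (fun u w => (u, w) ∈ E ∧ u ∈ S i ∧ w ∈ S i ∧ w ≠ a i) v (e i)

theorem adj_symm {N : Finset W} {K : Submodule ℝ W} {u v : W} (h : Adj N K u v) : Adj N K v u := by
  obtain ⟨hu, hv, huv, f, hK, hfu, hfv, hf⟩ := h
  exact ⟨hv, hu, huv.symm, f, hK, hfv, hfu, fun w hw h1 h2 => hf w hw h2 h1⟩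

theorem step_symm {N : Finset W} {K Λ : Submodule ℝ W} {u v : W} (h : Step N K Λ u v) :
    Step N K Λ v u := by
  obtain ⟨h1, h2, h3, h4⟩ := h
  exact ⟨adj_symm h1, h3, h2, fun α β hα hβ => by rw [add_comm]; exact h4 β α hβ hα⟩

theorem mem_nb {N : Finset W} {K : Submodule ℝ W} {s v : W} : v ∈ nb N K s ↔ Adj N K s v := by
  classical
  unfold nb
  rw [Finset.mem_filter]
  exact ⟨fun h => h.2, fun h => ⟨h.2.1, h⟩⟩

theorem le_ad (K : Submodule ℝ W) (s : W) : K ≤ ad K s := le_sup_left

theorem self_mem_ad (K : Submodule ℝ W) (s : W) : s ∈ ad K s :=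
  (le_sup_right : Submodule.span ℝ {s} ≤ ad K s) (Submodule.mem_span_singleton_self s)

theorem mem_ad {K : Submodule ℝ W} {s v : W} : v ∈ ad K s ↔ ∃ c : ℝ, v - c • s ∈ K := by
  unfold ad
  rw [Submodule.mem_sup]
  constructor
  · rintro ⟨y, hy, z, hz, rfl⟩
    obtain ⟨c, rfl⟩ := Submodule.mem_span_singleton.1 hz
    exact ⟨c, by simpa using hy⟩
  · rintro ⟨c, hc⟩
    exact ⟨v - c • s, hc, c • s, Submodule.smul_mem _ _ (Submodule.mem_span_singleton_self s),
      by simp⟩

theorem vanish_ad {K : Submodule ℝ W} {s : W} {f : W →ₗ[ℝ] ℝ} (hK : ∀ z ∈ K, f z = 0)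
    (hs : f s = 0) : ∀ z ∈ ad K s, f z = 0 := by
  intro z hz
  obtain ⟨c, hc⟩ := mem_ad.1 hz
  have h := hK _ hc
  rw [map_sub, map_smul, hs, smul_zero, sub_zero] at h
  exact h

end Pool.Agent.LPG
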