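import Pool.Agent.LPG.BrConn

/-!
# Walks to the neighbours of the centre in a half space (MP_c76e9d_co, module Exit)

By `pos_nb` there is `u₀ ∈ nb N K s` with `φ u₀ > 0`, and by `conn` a walk from `x` to `u₀` in `φ > 0`.
Prove the conclusion for every vertex `y` of this walk by induction from the end
(`Relation.ReflTransGen.head_induction_on`).  If `y ∈ nb N K s`, take `u = y` and the trivial walk.  Let
`y ∉ nb N K s`.  If there is an edge `a b` of the vertex figure with `Br N K s a b y`, use the walk of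
`br_exit` from `y` and again induction from its end: a vertex `p` of that walk is either in `nb N K s`
(stop there) or the step `p q` of the walk is an arc: `Step` since `φ` vanishes on `Λ` and is positive
at `p`, `q` (so positive at `α p + β q`); `p, q ≠ s` since `φ s = 0`; and if `VAdj N K s a' b'`,
`Br N K s a' b' p` then `{a', b'} = {a, b}` by `br_uniq`, and `Br N K s a b q` (`Br` is symmetric in `a`
and `b`).  If there is no such edge, the step `y z` of the first walk is an arc (the last condition of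
`Arc` is void) and the induction hypothesis for `z` applies.
-/

set_option autoImplicit false

namespace Pool.Agent.LPG

variable {W : Type*} [AddCommGroup W] [Module ℝ W] {N : Finset W} {K : Submodule ℝ W}

/-- a step in the half space misses `Λ` -/
private theorem exit_step {p q : W} {Λ : Submodule ℝ W} (φ : W →ₗ[ℝ] ℝ)
    (hφΛ : ∀ z ∈ Λ, φ z = 0) (hpq : Adj N K p q) (hp : 0 < φ p) (hq : 0 < φ q) :
    Step N K Λ p q := by
  refine ⟨hpq, fun hm => ?_, fun hm => ?_, fun α β hα hβ hm => ?_⟩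
  · rw [hφΛ p hm] at hp
    exact lt_irrefl _ hp
  · rw [hφΛ q hm] at hq
    exact lt_irrefl _ hq
  · have h1 := hφΛ _ hm
    rw [map_add, map_smul, map_smul, smul_eq_mul, smul_eq_mul] at h1
    have h2 : 0 < α * φ p := mul_pos hα hp
    have h3 : 0 < β * φ q := mul_pos hβ hq
    linarith

private theorem exit_ne {s p : W} (φ : W →ₗ[ℝ] ℝ) (hφs : φ s = 0) (hp : 0 < φ p) : p ≠ s := by
  rintro rfl
  rw [hφs] at hp
  exact lt_irrefl _ hp

private theorem br_swap {s a b v : W} (h : Br N K s a b v) : Br N K s b a v := by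
  obtain ⟨h1, h2, α, β, hα, hβ, h3⟩ := h
  exact ⟨h1, h2, β, α, hβ, hα, by rwa [add_comm]⟩

theorem exit (h : Poly N K) {s x : W} (hs : s ∈ N) {Λ : Submodule ℝ W} (hK : K ≤ Λ)
    (φ : W →ₗ[ℝ] ℝ) (hφΛ : ∀ z ∈ Λ, φ z = 0) (hφs : φ s = 0) (hx : x ∈ N) (hφx : 0 < φ x) :
    ∃ u ∈ nb N K s, 0 < φ u ∧
      Relation.ReflTransGen (fun p q => Arc N K Λ s p q ∧ 0 < φ p ∧ 0 < φ q) x u := by
  have hφK : ∀ z ∈ K, φ z = 0 := fun z hz => hφΛ z (hK hz)
  obtain ⟨u₀, hu₀, hφu₀⟩ := pos_nb h hs hx φ hφK hφs hφx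
  have hu₀N : u₀ ∈ N := (mem_nb.1 hu₀).2.1
  have hwalk := conn h φ hφK hx hu₀N hφx hφu₀
  induction hwalk using Relation.ReflTransGen.head_induction_on with
  | refl => exact ⟨u₀, hu₀, hφu₀, Relation.ReflTransGen.refl⟩
  | @head y z hyz _ ih =>
    obtain ⟨hadj, hy, hz⟩ := hyz
    obtain ⟨u, hu, hφu, hwu⟩ := ih hadj.2.1 hz
    by_cases hynb : y ∈ nb N K s
    · exact ⟨y, hynb, hy, Relation.ReflTransGen.refl⟩
    by_cases hex : ∃ a b, VAdj N K s a b ∧ Br N K s a b y
    · obtain ⟨a, b, hab, hbr⟩ := hex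
      obtain ⟨u₁, hu₁, -, hφu₁, hw₁⟩ := br_exit h hs hab hbr φ hφK hφs hy
      clear hwu hu hφu hadj hz hynb
      induction hw₁ using Relation.ReflTransGen.head_induction_on with
      | refl => exact ⟨u₁, hu₁, hφu₁, Relation.ReflTransGen.refl⟩
      | @head p q hpq _ ih2 =>
        obtain ⟨hadj, hbp, hbq, hp, hq⟩ := hpq
        obtain ⟨u, hu, hφu, hwu⟩ := ih2 hadj.2.1 hq hq hbq
        by_cases hpnb : p ∈ nb N K s
        · exact ⟨p, hpnb, hp, Relation.ReflTransGen.refl⟩
        refine ⟨u, hu, hφu, Relation.ReflTransGen.head ⟨?_, hp, hq⟩ hwu⟩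
        refine ⟨exit_step φ hφΛ hadj hp hq, exit_ne φ hφs hp, exit_ne φ hφs hq, hpnb, ?_⟩
        intro a' b' hab' hbr'
        rcases br_uniq h hs hab hab' hbp hbr' hpnb with ⟨rfl, rfl⟩ | ⟨rfl, rfl⟩
        · exact hbq
        · exact br_swap hbq
    · refine ⟨u, hu, hφu, Relation.ReflTransGen.head ⟨?_, hy, hz⟩ hwu⟩
      refine ⟨exit_step φ hφΛ hadj hy hz, exit_ne φ hφs hy, exit_ne φ hφs hz, hynb, ?_⟩
      intro a b hab hbr
      exact absurd ⟨a, b, hab, hbr⟩ hex

end Pool.Agent.LPG
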