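import Pool.Agent.LPG.Defs
import Pool.Agent.Lib.ExtComplexity

/-!
# Farkas' lemma modulo a subspace (MP_c76e9d_co, module Farkas)

Paper proof.  Apply `Pool.Agent.Lib.ExtComplexity.farkas` to the vector space `Module.Dual ℝ (W ⧸ K)`
(the functionals of `W` which vanish on `K`, see `Submodule.liftQ`), with `a i` = evaluation at the
class of the `i`-th element of `S` and `b` = evaluation at the class of `x`.  It gives `c i ≥ 0` with
`g [x] = ∑ c i * g [v i]` for all `g` in the dual, so `[x] = ∑ c i • [v i]`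
(`Module.forall_dual_apply_eq_zero_iff`), that is `x - ∑ c v • v ∈ K`.
-/

set_option autoImplicit false

namespace Pool.Agent.LPG

variable {W : Type*} [AddCommGroup W] [Module ℝ W]

theorem farkasK (K : Submodule ℝ W) (S : Finset W) (x : W)
    (h : ∀ f : W →ₗ[ℝ] ℝ, (∀ z ∈ K, f z = 0) → (∀ v ∈ S, 0 ≤ f v) → 0 ≤ f x) :
    ∃ c : W → ℝ, (∀ v ∈ S, 0 ≤ c v) ∧ x - ∑ v ∈ S, c v • v ∈ K := by
  classical
  set e := S.equivFin with he
  obtain ⟨l, hl, hb⟩ := Pool.Agent.Lib.ExtComplexity.farkas
    (V := Module.Dual ℝ (W ⧸ K))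
    (fun i => Module.Dual.eval ℝ (W ⧸ K) (K.mkQ ((e.symm i : W))))
    (Module.Dual.eval ℝ (W ⧸ K) (K.mkQ x)) (by
      intro g hg
      have := h (g.comp K.mkQ) (fun z hz => by
        rw [LinearMap.comp_apply, Submodule.mkQ_apply, (Submodule.Quotient.mk_eq_zero K).2 hz,
          map_zero]) (fun v hv => by
        have := hg (e ⟨v, hv⟩)
        rw [Equiv.symm_apply_apply] at this
        exact this)
      exact this)
  refine ⟨fun w => if hw : w ∈ S then l (e ⟨w, hw⟩) else 0, fun v hv => ?_, ?_⟩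
  · show 0 ≤ if hw : v ∈ S then l (e ⟨v, hw⟩) else 0
    rw [dif_pos hv]
    exact hl _
  · show x - ∑ v ∈ S, (if hw : v ∈ S then l (e ⟨v, hw⟩) else 0) • v ∈ K
    have hsum : ∑ v ∈ S, (if hw : v ∈ S then l (e ⟨v, hw⟩) else 0) • v =
        ∑ i, l i • ((e.symm i : W)) := by
      rw [← Finset.sum_attach S]
      have h1 : ∑ v ∈ S.attach, (if hw : (v : W) ∈ S then l (e ⟨v, hw⟩) else 0) • (v : W) =
          ∑ v : S, l (e v) • (v : W) := by
        refine Finset.sum_congr rfl fun v _ => ?_
        rw [dif_pos v.2]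
      rw [h1]
      rw [← Equiv.sum_comp e.symm]
      refine Finset.sum_congr rfl fun i _ => ?_
      rw [Equiv.apply_symm_apply]
    rw [hsum, ← Submodule.Quotient.mk_eq_zero K, ← Submodule.mkQ_apply]
    rw [← Module.forall_dual_apply_eq_zero_iff ℝ]
    intro g
    have := hb g
    simp only [Module.Dual.eval_apply] at this
    rw [map_sub, map_sub, map_sum, map_sum, this, sub_eq_zero]
    refine Finset.sum_congr rfl fun i _ => ?_
    rw [map_smul, map_smul, smul_eq_mul]

end Pool.Agent.LPG
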