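import Pool.Agent.LPG.Defs

/-!
# No three vertices on a line (MP_c76e9d_co, module Three)

Paper proofs.  `not_mem`: the positive functional.  `two`: if `v = c u` modulo `K`, the functional
which vanishes at `u` and is positive at `v` gives a contradiction.  `three`: let
`w = α v + β u` modulo `K` with `u, v, w` different.  The functional `f_w` (zero at `w`, positive at
the others) gives `0 = α f_w v + β f_w u`; `f_v` gives `0 < f_v w = β f_v u`, so `β > 0`; `f_u` gives
`α > 0`.  Contradiction.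
-/

set_option autoImplicit false

namespace Pool.Agent.LPG

variable {W : Type*} [AddCommGroup W] [Module ℝ W] {N : Finset W} {K : Submodule ℝ W}

theorem not_mem (h : Poly N K) {u : W} (hu : u ∈ N) : u ∉ K := by
  intro hK
  obtain ⟨_, f, hf, hpos⟩ := h
  have h1 := hpos u hu
  rw [hf u hK] at h1
  exact lt_irrefl _ h1

theorem two (h : Poly N K) {u v : W} (hu : u ∈ N) (hv : v ∈ N) (huv : v ≠ u) : v ∉ ad K u := by
  intro hK
  obtain ⟨f, hf, hfu, hpos⟩ := h.1 u hu
  have h1 := hpos v hv huv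
  rw [vanish_ad hf hfu v hK] at h1
  exact lt_irrefl _ h1

theorem three (h : Poly N K) {u v w : W} (hu : u ∈ N) (hv : v ∈ N) (hw : w ∈ N) (huv : u ≠ v)
    (huw : u ≠ w) (hvw : v ≠ w) (α : ℝ) : w - α • v ∉ ad K u := by
  intro hK
  obtain ⟨β, hβ⟩ := mem_ad.1 hK
  have key : ∀ f : W →ₗ[ℝ] ℝ, (∀ z ∈ K, f z = 0) → f w = α * f v + β * f u := by
    intro f hf
    have h1 := hf _ hβ
    rw [map_sub, map_sub, map_smul, map_smul, smul_eq_mul, smul_eq_mul] at h1
    linarith
  obtain ⟨f, hf, hfw, hfp⟩ := h.1 w hw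
  obtain ⟨g, hg, hgv, hgp⟩ := h.1 v hv
  obtain ⟨e, he, heu, hep⟩ := h.1 u hu
  have f1 := key f hf
  have g1 := key g hg
  have e1 := key e he
  rw [hfw] at f1
  rw [hgv, mul_zero, zero_add] at g1
  rw [heu, mul_zero, add_zero] at e1
  have hβ0 : 0 < β := by
    have h1 := hgp w hw hvw.symm
    have h2 := hgp u hu huv
    rw [g1] at h1
    exact (pos_iff_pos_of_mul_pos h1).2 h2
  have hα0 : 0 < α := by
    have h1 := hep w hw huw.symm
    have h2 := hep v hv huv.symm
    rw [e1] at h1
    exact (pos_iff_pos_of_mul_pos h1).2 h2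
  have h3 := mul_pos hα0 (hfp v hv hvw)
  have h4 := mul_pos hβ0 (hfp u hu huw)
  linarith

end Pool.Agent.LPG
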