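import Pool.Agent.LPG.Farkas
import Pool.Agent.LPG.Three

/-!
# The cone at a vertex is generated by the neighbours (MP_c76e9d_co, module Gen)

Write `K' = ad K s`.  Call `S ⊆ N.erase s` generating if every `v ∈ N`, `v ≠ s`, is congruent modulo
`K'` to a combination of elements of `S` with coefficients `≥ 0`.  `N.erase s` is generating; let `S`
be a generating subset with the least number of elements.  Claim: `S ⊆ nb N K s` (this proves the
theorem; extend the coefficients by `0`).

Let `u ∈ S`.  (1) `u` is not a nonnegative combination of `S.erase u` modulo `K'`, otherwise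
`S.erase u` would be generating (substitute).  (2) `u` is not a nonnegative combination of
`(N.erase s).erase u` modulo `K'`: suppose `u = ∑ c v • v` (sum over `v ∈ N`, `v ≠ s, u`), and let
`v = ∑ d v w • w` (sum over `w ∈ S`).  Then `u = ∑ e w • w`, `e w = ∑ c v * d v w ≥ 0`.  If `e u < 1`,
divide by `1 - e u`: contradiction to (1).  If `1 ≤ e u`, apply the functional `ψ` of `s` (zero on
`K'`, positive on `N.erase s`): `ψ u = ∑ e w * ψ w ≥ e u * ψ u ≥ ψ u`, so `e w = 0` for all `w ≠ u`.  Hence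
for every `v` with `c v > 0` we have `d v w = 0` for `w ≠ u`, so `v = d v u • u` modulo `K'`, contradiction
to `three`.  So all `c v = 0` and `u ∈ K'`: contradiction to `two`.
(3) By `farkasK` (for `K'`, the set `(N.erase s).erase u`, and `u`) there is `f`, zero on `K'`, with
`0 ≤ f v` for `v ∈ N`, `v ≠ s, u` and `f u < 0`.  With `δ = - f u / ψ u > 0` the functional `f + δ ψ`
vanishes on `K'` (so at `s` and on `K`) and at `u` and is positive at the other elements of `N`.  So
`Adj N K s u`.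

`pos_nb` and `nonneg_of_nb` follow by applying the functional (`vanish_ad`) to the formula of `gen`.
-/

set_option autoImplicit false

namespace Pool.Agent.LPG

variable {W : Type*} [AddCommGroup W] [Module ℝ W] {N : Finset W} {K : Submodule ℝ W}

open Classical in
/-- Generating subsets. -/
private def gnGen (N : Finset W) (K' : Submodule ℝ W) (s : W) (S : Finset W) : Prop :=
  ∀ v ∈ N, v ≠ s → ∃ c : W → ℝ, (∀ w ∈ S, 0 ≤ c w) ∧ v - ∑ w ∈ S, c w • w ∈ K'

open Classical in
private theorem gn_full (K' : Submodule ℝ W) (s : W) : gnGen N K' s (N.erase s) := by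
  intro v hv hvs
  refine ⟨fun w => if w = v then 1 else 0, fun w _ => by dsimp only; split_ifs <;> norm_num, ?_⟩
  have h1 : ∑ w ∈ N.erase s, (if w = v then (1 : ℝ) else 0) • w = v := by
    rw [Finset.sum_eq_single v]
    · simp
    · intro b _ hb
      simp [hb]
    · intro hn
      exact absurd (Finset.mem_erase.2 ⟨hvs, hv⟩) hn
  rw [h1, sub_self]
  exact K'.zero_mem

open Classical in
private theorem gn_red {K' : Submodule ℝ W} {s : W} {S : Finset W} (hS : gnGen N K' s S) {u : W}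
    (hu : u ∈ S) {b : W → ℝ} (hb : ∀ w ∈ S.erase u, 0 ≤ b w)
    (hbu : u - ∑ w ∈ S.erase u, b w • w ∈ K') : gnGen N K' s (S.erase u) := by
  intro v hv hvs
  obtain ⟨c, hc, hcv⟩ := hS v hv hvs
  refine ⟨fun w => c w + c u * b w, fun w hw => ?_, ?_⟩
  · exact add_nonneg (hc w (Finset.mem_of_mem_erase hw)) (mul_nonneg (hc u hu) (hb w hw))
  · have h1 : ∑ w ∈ S, c w • w = c u • u + ∑ w ∈ S.erase u, c w • w :=
      (Finset.add_sum_erase S (fun w => c w • w) hu).symm
    have h2 : v - ∑ w ∈ S.erase u, (c w + c u * b w) • w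
        = (v - ∑ w ∈ S, c w • w) + c u • (u - ∑ w ∈ S.erase u, b w • w) := by
      rw [h1, smul_sub, Finset.smul_sum]
      simp only [add_smul, mul_smul, Finset.sum_add_distrib]
      abel
    rw [h2]
    exact K'.add_mem hcv (K'.smul_mem _ hbu)

open Classical in
private theorem gn_exists (K' : Submodule ℝ W) (s : W) :
    ∃ S : Finset W, S ⊆ N.erase s ∧ gnGen N K' s S ∧
      ∀ T : Finset W, T ⊆ N.erase s → gnGen N K' s T → S.card ≤ T.card := by
  obtain ⟨S, hS, hmin⟩ := Finset.exists_min_image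
    ((N.erase s).powerset.filter (fun S => gnGen N K' s S)) Finset.card
    ⟨N.erase s, Finset.mem_filter.2 ⟨Finset.mem_powerset.2 (Finset.Subset.refl _), gn_full K' s⟩⟩
  rw [Finset.mem_filter, Finset.mem_powerset] at hS
  refine ⟨S, hS.1, hS.2, fun T hT hg => hmin T ?_⟩
  exact Finset.mem_filter.2 ⟨Finset.mem_powerset.2 hT, hg⟩

open Classical in
private theorem gn_two (h : Poly N K) {s : W} (hs : s ∈ N) {S : Finset W} (hSN : S ⊆ N.erase s)
    (hS : gnGen N (ad K s) s S)
    (hmin : ∀ T : Finset W, T ⊆ N.erase s → gnGen N (ad K s) s T → S.card ≤ T.card)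
    {u : W} (hu : u ∈ S) (c : W → ℝ) (hc : ∀ v ∈ (N.erase s).erase u, 0 ≤ c v) :
    u - ∑ v ∈ (N.erase s).erase u, c v • v ∉ ad K s := by
  intro hcu
  have huN := hSN hu
  rw [Finset.mem_erase] at huN
  -- (1)
  have h1 : ∀ b : W → ℝ, (∀ w ∈ S.erase u, 0 ≤ b w) →
      u - ∑ w ∈ S.erase u, b w • w ∉ ad K s := by
    intro b hb hbu
    have h2 := hmin (S.erase u) ((Finset.erase_subset _ _).trans hSN) (gn_red hS hu hb hbu)
    have h3 := Finset.card_erase_lt_of_mem hu
    omega
  have hd : ∀ v : W, ∃ d : W → ℝ, v ∈ (N.erase s).erase u →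
      (∀ w ∈ S, 0 ≤ d w) ∧ v - ∑ w ∈ S, d w • w ∈ ad K s := by
    intro v
    by_cases hv : v ∈ (N.erase s).erase u
    · have hv' := hv
      rw [Finset.mem_erase, Finset.mem_erase] at hv'
      obtain ⟨d, hd1, hd2⟩ := hS v hv'.2.2 hv'.2.1
      exact ⟨d, fun _ => ⟨hd1, hd2⟩⟩
    · exact ⟨0, fun h => absurd h hv⟩
  choose d hd using hd
  set T := (N.erase s).erase u with hT
  set e : W → ℝ := fun w => ∑ v ∈ T, c v * d v w with he
  have he0 : ∀ w ∈ S, 0 ≤ e w := fun w hw =>
    Finset.sum_nonneg fun v hv => mul_nonneg (hc v hv) ((hd v hv).1 w hw)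
  have heu : u - ∑ w ∈ S, e w • w ∈ ad K s := by
    have h2 : u - ∑ w ∈ S, e w • w
        = (u - ∑ v ∈ T, c v • v) + ∑ v ∈ T, c v • (v - ∑ w ∈ S, d v w • w) := by
      have h3 : ∑ v ∈ T, c v • (v - ∑ w ∈ S, d v w • w)
          = ∑ v ∈ T, c v • v - ∑ w ∈ S, e w • w := by
        simp only [smul_sub, Finset.sum_sub_distrib, Finset.smul_sum, smul_smul, he,
          Finset.sum_smul]
        rw [Finset.sum_comm]
      rw [h3]
      abel
    rw [h2]
    exact Submodule.add_mem _ hcu
      (Submodule.sum_mem _ fun v hv => Submodule.smul_mem _ _ (hd v hv).2)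
  have hsplit : ∑ w ∈ S, e w • w = e u • u + ∑ w ∈ S.erase u, e w • w :=
    (Finset.add_sum_erase S (fun w => e w • w) hu).symm
  rcases lt_or_ge (e u) 1 with hlt | hge
  · have hpos : 0 < 1 - e u := by linarith
    refine h1 (fun w => (1 - e u)⁻¹ * e w) (fun w hw => mul_nonneg (inv_nonneg.2 hpos.le)
      (he0 w (Finset.mem_of_mem_erase hw))) ?_
    have h2 : u - ∑ w ∈ S.erase u, ((1 - e u)⁻¹ * e w) • w
        = (1 - e u)⁻¹ • (u - ∑ w ∈ S, e w • w) := by
      have h3 : u - ∑ w ∈ S, e w • w = (1 - e u) • u - ∑ w ∈ S.erase u, e w • w := by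
        rw [hsplit, sub_smul, one_smul]
        abel
      rw [h3, smul_sub, smul_smul, inv_mul_cancel₀ hpos.ne', one_smul, Finset.smul_sum]
      simp only [mul_smul]
    rw [h2]
    exact Submodule.smul_mem _ _ heu
  · obtain ⟨ψ, hψK, hψs, hψ⟩ := h.1 s hs
    have hψad := vanish_ad hψK hψs
    have h2 := hψad _ heu
    rw [map_sub, hsplit, map_add, map_smul, map_sum, smul_eq_mul] at h2
    simp only [map_smul, smul_eq_mul] at h2
    have hψu : 0 < ψ u := hψ u huN.2 huN.1
    have hψw : ∀ w ∈ S, 0 < ψ w := fun w hw => by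
      have := hSN hw
      rw [Finset.mem_erase] at this
      exact hψ w this.2 this.1
    have h3 : ∑ w ∈ S.erase u, e w * ψ w ≤ 0 := by nlinarith
    have h4 : ∀ w ∈ S.erase u, 0 ≤ e w * ψ w := fun w hw =>
      mul_nonneg (he0 w (Finset.mem_of_mem_erase hw)) (hψw w (Finset.mem_of_mem_erase hw)).le
    have h5 : ∀ w ∈ S.erase u, e w = 0 := by
      intro w hw
      have h6 := Finset.single_le_sum h4 hw
      have h7 := h4 w hw
      have h8 : e w * ψ w = 0 := le_antisymm (h6.trans h3) h7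
      rcases mul_eq_zero.1 h8 with h9 | h9
      · exact h9
      · exact absurd h9 (hψw w (Finset.mem_of_mem_erase hw)).ne'
    have h6 : ∀ v ∈ T, c v = 0 := by
      intro v hv
      by_contra hcv
      have hcv' : 0 < c v := lt_of_le_of_ne (hc v hv) (Ne.symm hcv)
      have hv' := hv
      rw [hT, Finset.mem_erase, Finset.mem_erase] at hv'
      have h7 : ∀ w ∈ S.erase u, d v w = 0 := by
        intro w hw
        have hwS := Finset.mem_of_mem_erase hw
        have h8 : ∀ v' ∈ T, 0 ≤ c v' * d v' w := fun v' hv' =>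
          mul_nonneg (hc v' hv') ((hd v' hv').1 w hwS)
        have h9 := Finset.single_le_sum h8 hv
        have h10 : c v * d v w = 0 := le_antisymm (h9.trans (h5 w hw).le) (h8 v hv)
        rcases mul_eq_zero.1 h10 with h11 | h11
        · exact absurd h11 hcv
        · exact h11
      have h8 := (hd v hv).2
      rw [← Finset.add_sum_erase S (fun w => d v w • w) hu,
        Finset.sum_eq_zero (s := S.erase u) (fun w hw => by rw [h7 w hw, zero_smul]),
        add_zero] at h8
      exact three h hs huN.2 hv'.2.2 (Ne.symm huN.1) (Ne.symm hv'.2.1) (Ne.symm hv'.1)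
        (d v u) h8
    rw [Finset.sum_eq_zero (fun v hv => by rw [h6 v hv, zero_smul]), sub_zero] at hcu
    exact two h hs huN.2 huN.1 hcu

open Classical in
private theorem gn_adj (h : Poly N K) {s : W} (hs : s ∈ N) {S : Finset W} (hSN : S ⊆ N.erase s)
    (hS : gnGen N (ad K s) s S)
    (hmin : ∀ T : Finset W, T ⊆ N.erase s → gnGen N (ad K s) s T → S.card ≤ T.card)
    {u : W} (hu : u ∈ S) : Adj N K s u := by
  have huN := hSN hu
  rw [Finset.mem_erase] at huN
  obtain ⟨ψ, hψK, hψs, hψ⟩ := h.1 s hs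
  have hψad := vanish_ad hψK hψs
  by_contra hadj
  have key : ∀ f : W →ₗ[ℝ] ℝ, (∀ z ∈ ad K s, f z = 0) →
      (∀ v ∈ (N.erase s).erase u, 0 ≤ f v) → 0 ≤ f u := by
    intro f hf0 hfT
    by_contra hfu
    push Not at hfu
    apply hadj
    have hψu : 0 < ψ u := hψ u huN.2 huN.1
    refine ⟨hs, huN.2, Ne.symm huN.1, f + (-(f u) / ψ u) • ψ, ?_, ?_, ?_, ?_⟩
    · intro z hz
      simp [hψK z hz, hf0 z (le_ad K s hz)]
    · simp [hψs, hf0 s (self_mem_ad K s)]
    · simp only [LinearMap.add_apply, LinearMap.smul_apply, smul_eq_mul]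
      field_simp
      ring
    · intro w hw hws hwu
      simp only [LinearMap.add_apply, LinearMap.smul_apply, smul_eq_mul]
      have h1 : 0 ≤ f w := hfT w (Finset.mem_erase.2 ⟨hwu, Finset.mem_erase.2 ⟨hws, hw⟩⟩)
      have h2 : 0 < -(f u) / ψ u := div_pos (by linarith) hψu
      have h3 : 0 < ψ w := hψ w hw hws
      have h4 := mul_pos h2 h3
      linarith
  obtain ⟨c, hc, hcu⟩ := farkasK (ad K s) ((N.erase s).erase u) u key
  exact gn_two h hs hSN hS hmin hu c hc hcu

theorem gen (h : Poly N K) {s v : W} (hs : s ∈ N) (hv : v ∈ N) (hvs : v ≠ s) :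
    ∃ c : W → ℝ, (∀ u ∈ nb N K s, 0 ≤ c u) ∧ v - ∑ u ∈ nb N K s, c u • u ∈ ad K s := by
  classical
  obtain ⟨S, hSN, hS, hmin⟩ := gn_exists (N := N) (ad K s) s
  have hSnb : S ⊆ nb N K s := fun u hu => mem_nb.2 (gn_adj h hs hSN hS hmin hu)
  obtain ⟨c, hc, hcv⟩ := hS v hv hvs
  refine ⟨fun u => if u ∈ S then c u else 0, fun u _ => ?_, ?_⟩
  · dsimp only
    split_ifs with h1
    · exact hc u h1
    · exact le_refl _
  · have h1 : ∑ u ∈ nb N K s, (if u ∈ S then c u else 0) • u = ∑ w ∈ S, c w • w := by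
      rw [← Finset.sum_subset hSnb (f := fun u => (if u ∈ S then c u else 0) • u)]
      · exact Finset.sum_congr rfl fun u hu => by simp [hu]
      · intro u _ hu
        simp [hu]
    rw [h1]
    exact hcv

theorem pos_nb (h : Poly N K) {s v : W} (hs : s ∈ N) (hv : v ∈ N) (f : W →ₗ[ℝ] ℝ)
    (hK : ∀ z ∈ K, f z = 0) (hfs : f s = 0) (hfv : 0 < f v) : ∃ u ∈ nb N K s, 0 < f u := by
  have hvs : v ≠ s := by
    rintro rfl
    exact absurd hfs hfv.ne'
  obtain ⟨c, hc, hcv⟩ := gen h hs hv hvs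
  have h1 := vanish_ad hK hfs _ hcv
  rw [map_sub, map_sum] at h1
  simp only [map_smul, smul_eq_mul] at h1
  by_contra hno
  push Not at hno
  have h2 : ∑ u ∈ nb N K s, c u * f u ≤ 0 :=
    Finset.sum_nonpos fun u hu => mul_nonpos_of_nonneg_of_nonpos (hc u hu) (hno u hu)
  linarith

theorem nonneg_of_nb (h : Poly N K) {s : W} (hs : s ∈ N) (f : W →ₗ[ℝ] ℝ)
    (hK : ∀ z ∈ K, f z = 0) (hfs : f s = 0) (hf : ∀ u ∈ nb N K s, 0 ≤ f u) :
    ∀ v ∈ N, 0 ≤ f v := by
  intro v hv
  by_cases hvs : v = s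
  · rw [hvs, hfs]
  · obtain ⟨c, hc, hcv⟩ := gen h hs hv hvs
    have h1 := vanish_ad hK hfs _ hcv
    rw [map_sub, map_sum] at h1
    simp only [map_smul, smul_eq_mul] at h1
    have h2 : 0 ≤ ∑ u ∈ nb N K s, c u * f u :=
      Finset.sum_nonneg fun u hu => mul_nonneg (hc u hu) (hf u hu)
    linarith

end Pool.Agent.LPG
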