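import Pool.Agent.LPG.RkOps

/-!
# Joining the two halves in the matroid version of Menger (module MRJoin)

Data: `(C, F)` separates in `E0` from `A`; `C.card + r F + 1 = k`; `x ≠ y`, `x, y ∉ C`.  First half: a
path system `S, a, e` of `k` paths from `A` in `E0` with `r1 (image e) = k`, where
`r1 G = (G ∩ D).card + r ((G \ D) ∩ F)`, `D = insert x C`.  Second half: a path system `S', a', e'` of
`C.card + 1` paths from `insert y C` in `E0` with `r (image e' ∪ F) - r F = C.card + 1`.  Claim: `k` disjoint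
paths from `A` in `E ⊇ E0 ∪ {(x, y)}` whose ends have rank `k`.

Proof.  (1) Let `I = image e`.  `(I ∩ D).card ≤ C.card + 1` and `r ((I \ D) ∩ F) ≤ r F` add up to `k`,
so `D ⊆ I` and, with `I2 = I \ D`, `r (I2 ∩ F) = r F`; `I.card ≤ k` so `I2.card ≤ r F`, hence `I2.card = r F`,
`I2 ⊆ F`, `r I2 = r F`, and `e` is injective.
(2) `(image e').card = C.card + 1 = (insert y C).card` (`card_le` for `r2`, `isRk_con`), `e'` is
injective; `a'` is injective (disjoint `S'`), so `a'` is onto `insert y C`.  No `e' j` is in `F` (else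
`r2 {e' j} = 0`; `sub_indep` for `r2`).
(3) `S i ∩ D ⊆ {e i}` (each element of `D` is some `e i'`), `S' j ∩ insert y C ⊆ {a' j}`.
(4) Let `v ∈ S i ∩ S' j`.  Then `v = e i = a' j ∈ C`.  The walk `a i ⤳ v` in `S i` (whose arcs never start
at `e i`) followed by the walk `v ⤳ e' j` in `S' j` (whose arcs never end at `a' j`) is a walk of `E0`
from `A` to `e' j ∉ F`, so it contains an element `c ∈ C`.  If `c` lies on the first walk then `c = e i`,
and as the walk does not leave `e i`, `v = e i = c`.  If `c` is the end of an arc of the second walk,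
`c = a' j`, excluded.  So `v = e i ∈ C` and `v = a' j` by (3).  (Formally: if `v ∉ C` or so, show that the
first walk avoids `C`: all its vertices before `v` are sources of arcs, so different from `e i`, so
not in `C ⊆ D`; the targets on the second walk are different from `a' j`, so not in `C`; if moreover
`v ∉ C` then `Av E0 C (a i) (e' j)` and `e' j ∈ F`, contradiction.  So `v ∈ C`, and (3) gives the claim.)
(5) For `i` with `e i ∈ C` let `j` be the index with `a' j = e i` and put `T i = S i ∪ S' j`, end `e' j`; for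
`e i = x` let `a' j = y`, `T i = S i ∪ S' j`, end `e' j`, using the arc `(x, y)`; otherwise (`e i ∈ I2`)
`T i = S i`, end `e i`.  Disjointness from (4) (note `y ∉ C`) and the walk conditions: if `a' j = e i`, then
`S i ∩ S' j = {e i}`, arcs of the walks in `S i` never start at `e i` hence never in `S' j ∋ e' j`; arcs of
the walks in `S' j` never end at `a' j = e i` hence never in `S i ∋ a i`.
(6) The set of ends is `J = image e' ∪ I2`, `J.card ≤ k`, `r (J ∪ F) = r (image e' ∪ F) = k`
(`I2 ⊆ F`), and `r (J ∪ F) + r (J ∩ F) ≤ r J + r F` with `r (J ∩ F) ≥ r I2 = r F`, so `r J ≥ k`.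
-/

set_option autoImplicit false

namespace Pool.Agent.LPG

variable {V : Type*} [DecidableEq V]

omit [DecidableEq V] in
/-- The first half avoids `C` before its end. -/
private theorem mj_first {E0 : Finset (V × V)} {C X : Finset V} {a e v : V}
    (h3 : ∀ u ∈ X, u ∈ C → u = e)
    (hw : Relation.ReflTransGen (fun u w => (u, w) ∈ E0 ∧ u ∈ X ∧ w ∈ X ∧ u ≠ e) a v)
    (hv : v ∉ C) : Av E0 C a v := by
  induction hw with
  | refl => exact ⟨hv, Relation.ReflTransGen.refl⟩
  | @tail u w _ h2 ih =>
    have hu : u ∉ C := fun hu => h2.2.2.2 (h3 u h2.2.1 hu)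
    obtain ⟨h4, h5⟩ := ih hu
    exact ⟨h4, h5.tail ⟨h2.1, hv⟩⟩

theorem mr_join {r : Finset V → ℕ} (hr : IsRk r) {E0 E : Finset (V × V)} {A C F : Finset V}
    {x y : V} (hE : E0 ⊆ E) (hxyE : (x, y) ∈ E) (hxy : x ≠ y) (hx : x ∉ C) (hy : y ∉ C)
    {k m : ℕ} (hm : m = C.card + 1) (hk : C.card + r F + 1 = k)
    (hsep : ∀ a ∈ A, ∀ v, Av E0 C a v → v ∈ F)
    (S : Fin k → Finset V) (a e : Fin k → V) (hS : PathSys E0 A S a e)
    (he : ((Finset.univ.image e) ∩ insert x C).card +
      r (((Finset.univ.image e) \ insert x C) ∩ F) = k)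
    (S' : Fin m → Finset V) (a' e' : Fin m → V) (hS' : PathSys E0 (insert y C) S' a' e')
    (he' : r ((Finset.univ.image e') ∪ F) - r F = m) :
    ∃ (T : Fin k → Finset V) (b f : Fin k → V), PathSys E A T b f ∧
      r (Finset.univ.image f) = k := by
  classical
  obtain ⟨hSd, hSp⟩ := hS
  obtain ⟨hSd', hSp'⟩ := hS'
  set I := Finset.univ.image e with hI
  set D := insert x C with hD
  have hDc : D.card = C.card + 1 := Finset.card_insert_of_notMem hx
  have hIk : I.card ≤ k := by
    have := Finset.card_image_le (s := (Finset.univ : Finset (Fin k))) (f := e)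
    rw [Finset.card_univ, Fintype.card_fin] at this
    exact this
  have hc1 : (I ∩ D).card ≤ D.card := Finset.card_le_card Finset.inter_subset_right
  have hr1 : r ((I \ D) ∩ F) ≤ r F := hr.mono _ _ Finset.inter_subset_right
  have hDI : I ∩ D = D := Finset.eq_of_subset_of_card_le Finset.inter_subset_right (by omega)
  have hDI' : D ⊆ I := Finset.inter_eq_right.1 hDI
  have hcards : (I ∩ D).card + (I \ D).card = I.card := Finset.card_inter_add_card_sdiff I D
  have hr2 : r ((I \ D) ∩ F) ≤ ((I \ D) ∩ F).card := card_le hr _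
  have hc2 : ((I \ D) ∩ F).card ≤ (I \ D).card := Finset.card_le_card Finset.inter_subset_left
  have hI2F : (I \ D) ∩ F = I \ D :=
    Finset.eq_of_subset_of_card_le Finset.inter_subset_left (by rw [hDI] at hcards he; omega)
  have hI2F' : I \ D ⊆ F := Finset.inter_eq_left.1 hI2F
  have hrI2 : r (I \ D) = r F := by
    rw [hI2F, hDI] at he
    omega
  have heinj : Function.Injective e := by
    have h1 : I.card = (Finset.univ : Finset (Fin k)).card := by
      rw [Finset.card_univ, Fintype.card_fin]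
      rw [hDI] at hcards he
      omega
    have h2 := Finset.card_image_iff.1 h1
    intro i j hij
    exact h2 (Finset.mem_coe.2 (Finset.mem_univ i)) (Finset.mem_coe.2 (Finset.mem_univ j)) hij
  -- second half
  have hrc := isRk_con hr F
  set I' := Finset.univ.image e' with hI'
  have hIm : I'.card ≤ m := by
    have := Finset.card_image_le (s := (Finset.univ : Finset (Fin m))) (f := e')
    rw [Finset.card_univ, Fintype.card_fin] at this
    exact this
  have hI'm : r (I' ∪ F) - r F ≤ I'.card := card_le hrc I'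
  have hI'r : r (I' ∪ F) - r F = I'.card := by omega
  have heF : ∀ j, e' j ∉ F := by
    intro j hj
    have h1 := sub_indep hrc (I := I') (J := {e' j}) hI'r
      (Finset.singleton_subset_iff.2 (Finset.mem_image_of_mem _ (Finset.mem_univ j)))
    rw [Finset.card_singleton, Finset.union_eq_right.2 (Finset.singleton_subset_iff.2 hj)] at h1
    omega
  have hainj' : Function.Injective a' := by
    intro i j hij
    by_contra hne
    have h1 := (hSp' i).2.1
    have h2 := (hSp' j).2.1
    rw [← hij] at h2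
    exact Finset.disjoint_left.1 (hSd' i j hne) h1 h2
  have haimg : Finset.univ.image a' = insert y C := by
    apply Finset.eq_of_subset_of_card_le
    · intro v hv
      obtain ⟨j, _, rfl⟩ := Finset.mem_image.1 hv
      exact (hSp' j).1
    · rw [Finset.card_image_of_injective _ hainj', Finset.card_univ, Fintype.card_fin,
        Finset.card_insert_of_notMem hy]
      omega
  have hasurj : ∀ v ∈ insert y C, ∃ j, a' j = v := by
    intro v hv
    rw [← haimg] at hv
    obtain ⟨j, _, hj⟩ := Finset.mem_image.1 hv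
    exact ⟨j, hj⟩
  -- (3)
  have h3 : ∀ i, ∀ v ∈ S i, v ∈ D → v = e i := by
    intro i v hv hvD
    obtain ⟨i', _, rfl⟩ := Finset.mem_image.1 (hDI' hvD)
    by_contra hne
    have hii : i ≠ i' := fun h => hne (by rw [h])
    exact Finset.disjoint_left.1 (hSd i i' hii) hv (hSp i').2.2.1
  have h3' : ∀ j, ∀ v ∈ S' j, v ∈ insert y C → v = a' j := by
    intro j v hv hvD
    obtain ⟨j', rfl⟩ := hasurj v hvD
    by_contra hne
    have hjj : j ≠ j' := fun h => hne (by rw [h])
    exact Finset.disjoint_left.1 (hSd' j j' hjj) hv (hSp' j').2.1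
  -- (4)
  have h4 : ∀ i j v, v ∈ S i → v ∈ S' j → v = e i ∧ v = a' j ∧ v ∈ C := by
    intro i j v hv hv'
    have hvC : v ∈ C := by
      by_contra hvC
      have w1 : Av E0 C (a i) v := mj_first
        (fun u hu huC => h3 i u hu (Finset.mem_insert_of_mem huC)) ((hSp i).2.2.2 v hv).1 hvC
      have w2 : Relation.ReflTransGen (fun u w => (u, w) ∈ E0 ∧ w ∉ C) v (e' j) := by
        refine Relation.ReflTransGen.mono ?_ _ _ ((hSp' j).2.2.2 v hv').2
        rintro u w ⟨g1, _, g3, g4⟩
        exact ⟨g1, fun hwC => g4 (h3' j w g3 (Finset.mem_insert_of_mem hwC))⟩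
      exact heF j (hsep (a i) (hSp i).1 _ ⟨w1.1, w1.2.trans w2⟩)
    exact ⟨h3 i v hv (Finset.mem_insert_of_mem hvC), h3' j v hv' (Finset.mem_insert_of_mem hvC),
      hvC⟩
  -- the index of the second half
  have hj : ∀ i, ∃ j : Fin m, e i ∈ D → a' j = if e i = x then y else e i := by
    intro i
    by_cases hi : e i ∈ D
    · have h5 : (if e i = x then y else e i) ∈ insert y C := by
        split_ifs with h6
        · exact Finset.mem_insert_self _ _
        · rcases Finset.mem_insert.1 hi with h7 | h7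
          · exact absurd h7 h6
          · exact Finset.mem_insert_of_mem h7
      obtain ⟨j, hj⟩ := hasurj _ h5
      exact ⟨j, fun _ => hj⟩
    · exact ⟨⟨0, by omega⟩, fun h => absurd h hi⟩
  choose j hj using hj
  have hjS : ∀ i, e i ∈ D → ∀ v, v ∈ S i → v ∈ S' (j i) → v = e i ∧ v = a' (j i) ∧ v ∈ C :=
    fun i _ v h1 h2 => h4 i (j i) v h1 h2
  set T : Fin k → Finset V := fun i => if e i ∈ D then S i ∪ S' (j i) else S i with hT
  set f : Fin k → V := fun i => if e i ∈ D then e' (j i) else e i with hf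
  have hST : ∀ i, S i ⊆ T i := by
    intro i
    simp only [hT]
    split_ifs
    · exact Finset.subset_union_left
    · exact Finset.Subset.refl _
  refine ⟨T, a, f, ⟨?_, ?_⟩, ?_⟩
  · intro i i' hii
    rw [Finset.disjoint_left]
    intro v hv hv'
    have hcross : ∀ i i', i ≠ i' → e i' ∈ D → v ∈ S i → v ∈ S' (j i') → False := by
      intro i i' hii hi' h5 h6
      obtain ⟨g1, g2, g3⟩ := h4 i (j i') v h5 h6
      rw [hj i' hi'] at g2
      split_ifs at g2 with g4
      · rw [g2] at g3
        exact hy g3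
      · rw [g1] at g2
        exact hii (heinj g2)
    have hmem : ∀ i, v ∈ T i → v ∈ S i ∨ (e i ∈ D ∧ v ∈ S' (j i)) := by
      intro i hvi
      simp only [hT] at hvi
      split_ifs at hvi with h5
      · rcases Finset.mem_union.1 hvi with h6 | h6
        · exact Or.inl h6
        · exact Or.inr ⟨h5, h6⟩
      · exact Or.inl hvi
    rcases hmem i hv with h5 | ⟨h5, h6⟩ <;> rcases hmem i' hv' with h7 | ⟨h7, h8⟩
    · exact Finset.disjoint_left.1 (hSd i i' hii) h5 h7
    · exact hcross i i' hii h7 h5 h8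
    · exact hcross i' i hii.symm h5 h7 h6
    · have hjj : j i ≠ j i' := by
        intro hjj
        have g1 := hj i h5
        have g2 := hj i' h7
        rw [hjj, g2] at g1
        have hnot : ∀ u, u ∈ D → u ≠ x → u ∈ C := by
          intro u hu hux
          rcases Finset.mem_insert.1 hu with h9 | h9
          · exact absurd h9 hux
          · exact h9
        split_ifs at g1 with g3 g4 g4
        · exact hii (heinj (g4.trans g3.symm))
        · exact hy (g1 ▸ hnot _ h5 g4)
        · exact hy (g1 ▸ hnot _ h7 g3)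
        · exact hii (heinj g1.symm)
      exact Finset.disjoint_left.1 (hSd' _ _ hjj) h6 h8
  · intro i
    obtain ⟨ha1, ha2, ha3, ha4⟩ := hSp i
    by_cases hi : e i ∈ D
    · have hTi : T i = S i ∪ S' (j i) := by simp only [hT, if_pos hi]
      have hfi : f i = e' (j i) := by simp only [hf, if_pos hi]
      obtain ⟨hb1, hb2, hb3, hb4⟩ := hSp' (j i)
      have hS1 : S i ⊆ T i := hST i
      have hS2 : S' (j i) ⊆ T i := by
        rw [hTi]
        exact Finset.subset_union_right
      -- translation of the four kinds of walks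
      have m1 : ∀ u v, Relation.ReflTransGen
          (fun u w => (u, w) ∈ E0 ∧ u ∈ S i ∧ w ∈ S i ∧ u ≠ e i) u v →
          Relation.ReflTransGen (fun u w => (u, w) ∈ E ∧ u ∈ T i ∧ w ∈ T i ∧ u ≠ f i) u v := by
        intro u v hw
        refine Relation.ReflTransGen.mono ?_ _ _ hw
        rintro p q ⟨g1, g2, g3, g4⟩
        refine ⟨hE g1, hS1 g2, hS1 g3, fun g5 => g4 ?_⟩
        rw [hfi] at g5
        exact (h4 i (j i) p g2 (g5 ▸ hb3)).1
      have m2 : ∀ u v, Relation.ReflTransGen
          (fun u w => (u, w) ∈ E0 ∧ u ∈ S i ∧ w ∈ S i ∧ w ≠ a i) u v →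
          Relation.ReflTransGen (fun u w => (u, w) ∈ E ∧ u ∈ T i ∧ w ∈ T i ∧ w ≠ a i) u v := by
        intro u v hw
        refine Relation.ReflTransGen.mono ?_ _ _ hw
        rintro p q ⟨g1, g2, g3, g4⟩
        exact ⟨hE g1, hS1 g2, hS1 g3, g4⟩
      have m3 : ∀ u v, Relation.ReflTransGen
          (fun u w => (u, w) ∈ E0 ∧ u ∈ S' (j i) ∧ w ∈ S' (j i) ∧ u ≠ e' (j i)) u v →
          Relation.ReflTransGen (fun u w => (u, w) ∈ E ∧ u ∈ T i ∧ w ∈ T i ∧ u ≠ f i) u v := by
        intro u v hw
        refine Relation.ReflTransGen.mono ?_ _ _ hw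
        rintro p q ⟨g1, g2, g3, g4⟩
        exact ⟨hE g1, hS2 g2, hS2 g3, by rw [hfi]; exact g4⟩
      have m4 : ∀ u v, Relation.ReflTransGen
          (fun u w => (u, w) ∈ E0 ∧ u ∈ S' (j i) ∧ w ∈ S' (j i) ∧ w ≠ a' (j i)) u v →
          Relation.ReflTransGen (fun u w => (u, w) ∈ E ∧ u ∈ T i ∧ w ∈ T i ∧ w ≠ a i) u v := by
        intro u v hw
        refine Relation.ReflTransGen.mono ?_ _ _ hw
        rintro p q ⟨g1, g2, g3, g4⟩
        refine ⟨hE g1, hS2 g2, hS2 g3, fun g5 => g4 ?_⟩
        exact (h4 i (j i) q (g5 ▸ ha2) g3).2.1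
      -- the middle arc
      have m5 : Relation.ReflTransGen (fun u w => (u, w) ∈ E ∧ u ∈ T i ∧ w ∈ T i ∧ u ≠ f i)
          (e i) (a' (j i)) := by
        have g1 := hj i hi
        split_ifs at g1 with g2
        · rw [g1, g2]
          refine Relation.ReflTransGen.single ⟨hxyE, hS1 (g2 ▸ ha3), hS2 (g1 ▸ hb2), fun g3 => ?_⟩
          rw [hfi] at g3
          exact hx (h4 i (j i) x (g2 ▸ ha3) (g3 ▸ hb3)).2.2
        · rw [g1]
      have m6 : Relation.ReflTransGen (fun u w => (u, w) ∈ E ∧ u ∈ T i ∧ w ∈ T i ∧ w ≠ a i)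
          (e i) (a' (j i)) := by
        have g1 := hj i hi
        split_ifs at g1 with g2
        · rw [g1, g2]
          refine Relation.ReflTransGen.single ⟨hxyE, hS1 (g2 ▸ ha3), hS2 (g1 ▸ hb2), fun g3 => ?_⟩
          exact hy (h4 i (j i) y (g3 ▸ ha2) (g1 ▸ hb2)).2.2
        · rw [g1]
      refine ⟨ha1, hS1 ha2, by rw [hfi]; exact hS2 hb3, fun v hv => ?_⟩
      rw [hTi, Finset.mem_union] at hv
      have hfi' : ∀ w, Relation.ReflTransGen
          (fun u w => (u, w) ∈ E ∧ u ∈ T i ∧ w ∈ T i ∧ w ≠ a i) w (e' (j i)) →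
          Relation.ReflTransGen
          (fun u w => (u, w) ∈ E ∧ u ∈ T i ∧ w ∈ T i ∧ w ≠ a i) w (f i) := by
        intro w hw
        rw [hfi]
        exact hw
      rcases hv with hv | hv
      · exact ⟨m1 _ _ (ha4 v hv).1, hfi' _ (((m2 _ _ (ha4 v hv).2).trans m6).trans
          (m4 _ _ (hb4 _ hb2).2))⟩
      · exact ⟨((m1 _ _ (ha4 _ ha3).1).trans m5).trans (m3 _ _ (hb4 v hv).1),
          hfi' _ (m4 _ _ (hb4 v hv).2)⟩
    · have hTi : T i = S i := by simp only [hT, if_neg hi]
      have hfi : f i = e i := by simp only [hf, if_neg hi]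
      rw [hTi, hfi]
      refine ⟨ha1, ha2, ha3, fun v hv => ⟨?_, ?_⟩⟩
      · exact Relation.ReflTransGen.mono (fun p q g => ⟨hE g.1, g.2⟩) _ _ (ha4 v hv).1
      · exact Relation.ReflTransGen.mono (fun p q g => ⟨hE g.1, g.2⟩) _ _ (ha4 v hv).2
  · set J := Finset.univ.image f with hJ
    have hJk : J.card ≤ k := by
      have := Finset.card_image_le (s := (Finset.univ : Finset (Fin k))) (f := f)
      rw [Finset.card_univ, Fintype.card_fin] at this
      exact this
    have hJr : r J ≤ J.card := card_le hr J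
    have hI'J : I' ⊆ J := by
      intro v hv
      obtain ⟨l, _, rfl⟩ := Finset.mem_image.1 hv
      have h5 := (hSp' l).1
      have h6 : ∃ i, e i ∈ D ∧ j i = l := by
        rcases Finset.mem_insert.1 h5 with h7 | h7
        · obtain ⟨i, _, hi⟩ := Finset.mem_image.1 (hDI' (Finset.mem_insert_self x C))
          have h8 : e i ∈ D := hi ▸ Finset.mem_insert_self x C
          refine ⟨i, h8, hainj' ?_⟩
          rw [hj i h8, if_pos hi, h7]
        · have h8 : a' l ∈ D := Finset.mem_insert_of_mem h7
          obtain ⟨i, _, hi⟩ := Finset.mem_image.1 (hDI' h8)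
          refine ⟨i, hi ▸ h8, hainj' ?_⟩
          rw [hj i (hi ▸ h8), if_neg (fun h9 => hx (by rw [← h9, hi]; exact h7)), hi]
      obtain ⟨i, hi, hil⟩ := h6
      refine Finset.mem_image.2 ⟨i, Finset.mem_univ _, ?_⟩
      simp only [hf, if_pos hi, hil]
    have hI2J : I \ D ⊆ J := by
      intro v hv
      obtain ⟨hv1, hv2⟩ := Finset.mem_sdiff.1 hv
      obtain ⟨i, _, rfl⟩ := Finset.mem_image.1 hv1
      refine Finset.mem_image.2 ⟨i, Finset.mem_univ _, ?_⟩
      simp only [hf, if_neg hv2]
    have h5 := hr.submod J F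
    have h6 : r (I \ D) ≤ r (J ∩ F) := hr.mono _ _ (Finset.subset_inter hI2J hI2F')
    have h7 : r (I' ∪ F) ≤ r (J ∪ F) := hr.mono _ _ (Finset.union_subset_union hI'J
      (Finset.Subset.refl _))
    omega

end Pool.Agent.LPG
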