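import Pool.Agent.LPG.MRHalf
import Pool.Agent.LPG.MRJoin

/-!
# The matroid version of the theorem of Menger (module MR)

Induction on `E.card`, for all `r`, `A`, `k`.  `E = ∅`: with `C = ∅`, `F = A` the hypothesis gives
`k ≤ r A`; use `mr_base`.  Let `(x, y) ∈ E`, `E0 = E.erase (x, y)`.  If `E0` satisfies the hypothesis, use
induction and monotonicity in `E` (`Relation.ReflTransGen.mono`).  Otherwise there are `C`, `F` which
separate in `E0` with `C.card + r F < k`.  By `sep_x` and the hypothesis for `E`:
`k ≤ (insert x C).card + r F ≤ C.card + 1 + r F ≤ k`, so `x ∉ C` and `C.card + 1 + r F = k`; by `sep_y`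
`y ∉ C`.  If `x = y`, then a walk of `E` avoiding `C` is (after removing the useless arcs `(x, x)`)
a walk of `E0` avoiding `C`, so `(C, F)` separates in `E`, contradiction.  First half: `E0`, `A`, rank function
`isRk_free hr (insert x C) F`, `k`: the hypothesis holds by `half1`:
`k ≤ (C1 ∪ (F1 ∩ insert x C)).card + r ((F1 \ insert x C) ∩ F) ≤ C1.card + r1 F1`.  Second half: `E0`,
`insert y C`, `isRk_con hr F`, `m = C.card + 1`: by `half2` `k ≤ C2.card + r (F2 ∪ F)`, so
`m = k - r F ≤ C2.card + (r (F2 ∪ F) - r F)`.  Conclude with `mr_join`.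
-/

set_option autoImplicit false

namespace Pool.Agent.LPG

private theorem mr_pathSys_mono {V : Type*} [DecidableEq V] {E0 E : Finset (V × V)} (hE : E0 ⊆ E)
    {A : Finset V} {k : ℕ} {S : Fin k → Finset V} {a e : Fin k → V} (h : PathSys E0 A S a e) :
    PathSys E A S a e := by
  obtain ⟨h1, h2⟩ := h
  refine ⟨h1, fun i => ?_⟩
  obtain ⟨h3, h4, h5, h6⟩ := h2 i
  refine ⟨h3, h4, h5, fun v hv => ⟨?_, ?_⟩⟩
  · exact Relation.ReflTransGen.mono (fun p q g => ⟨hE g.1, g.2⟩) _ _ (h6 v hv).1
  · exact Relation.ReflTransGen.mono (fun p q g => ⟨hE g.1, g.2⟩) _ _ (h6 v hv).2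

private theorem mr_aux {V : Type*} [DecidableEq V] (n : ℕ) : ∀ (r : Finset V → ℕ), IsRk r →
    ∀ E : Finset (V × V), E.card = n → ∀ (A : Finset V) (k : ℕ),
    (∀ C F : Finset V, (∀ a ∈ A, ∀ v, Av E C a v → v ∈ F) → k ≤ C.card + r F) →
    ∃ (S : Fin k → Finset V) (a e : Fin k → V), PathSys E A S a e ∧
      r (Finset.univ.image e) = k := by
  induction n with
  | zero =>
    intro r hr E hE A k h
    rw [Finset.card_eq_zero] at hE
    subst hE
    apply mr_base hr
    have h1 := h ∅ A (fun a ha v hv => ?_)
    · simpa using h1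
    · obtain ⟨_, h2⟩ := hv
      induction h2 with
      | refl => exact ha
      | tail _ h3 _ => exact absurd h3.1 (Finset.notMem_empty _)
  | succ n ih =>
    intro r hr E hE A k h
    have hne : E.Nonempty := by
      rw [← Finset.card_pos, hE]
      exact Nat.succ_pos n
    obtain ⟨⟨x, y⟩, hxyE⟩ := hne
    have hE0 : (E.erase (x, y)).card = n := by
      rw [Finset.card_erase_of_mem hxyE, hE]
      rfl
    have hsub : E.erase (x, y) ⊆ E := Finset.erase_subset _ _
    by_cases hyp : ∀ C F : Finset V, (∀ a ∈ A, ∀ v, Av (E.erase (x, y)) C a v → v ∈ F) →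
        k ≤ C.card + r F
    · obtain ⟨S, a, e, hS, he⟩ := ih r hr _ hE0 A k hyp
      exact ⟨S, a, e, mr_pathSys_mono hsub hS, he⟩
    · push Not at hyp
      obtain ⟨C, F, hsep, hlt⟩ := hyp
      have hx1 := h _ _ (sep_x hsep)
      have hy1 := h _ _ (sep_y hsep)
      have hx : x ∉ C := by
        intro hx
        rw [Finset.insert_eq_of_mem hx] at hx1
        omega
      have hy : y ∉ C := by
        intro hy
        rw [Finset.insert_eq_of_mem hy] at hy1
        omega
      rw [Finset.card_insert_of_notMem hx] at hx1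
      have hk : C.card + r F + 1 = k := by omega
      have hxy : x ≠ y := by
        intro hxy
        have h1 : ∀ a ∈ A, ∀ v, Av E C a v → v ∈ F := by
          rintro a ha v ⟨g1, g2⟩
          apply hsep a ha v
          refine ⟨g1, ?_⟩
          induction g2 with
          | refl => exact Relation.ReflTransGen.refl
          | @tail u w _ g3 g4 =>
            by_cases g5 : (u, w) = (x, y)
            · have g6 := (Prod.mk.inj g5).1
              have g7 := (Prod.mk.inj g5).2
              have g8 : w = u := by rw [g7, ← hxy, g6]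
              rw [g8]
              exact g4
            · exact g4.tail ⟨Finset.mem_erase.2 ⟨g5, g3.1⟩, g3.2⟩
        have h2 := h C F h1
        omega
      obtain ⟨S, a, e, hS, he⟩ := ih _ (isRk_free hr (insert x C) F) _ hE0 A k (by
        intro C1 F1 h1
        have h2 := h _ _ (half1 hsep h1)
        have h3 := Finset.card_union_le C1 (F1 ∩ insert x C)
        show k ≤ C1.card + ((F1 ∩ insert x C).card + r ((F1 \ insert x C) ∩ F))
        omega)
      obtain ⟨S', a', e', hS', he'⟩ := ih _ (isRk_con hr F) _ hE0 (insert y C) (C.card + 1) (by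
        intro C2 F2 h1
        have h2 := h _ _ (half2 hsep h1)
        have h3 : r F ≤ r (F2 ∪ F) := hr.mono _ _ Finset.subset_union_right
        show C.card + 1 ≤ C2.card + (r (F2 ∪ F) - r F)
        omega)
      exact mr_join hr hsub hxyE hxy hx hy rfl hk hsep S a e hS he S' a' e' hS' he'

theorem mr {V : Type*} [DecidableEq V] (r : Finset V → ℕ) (hr : IsRk r) (E : Finset (V × V))
    (A : Finset V) (k : ℕ)
    (h : ∀ C F : Finset V, (∀ a ∈ A, ∀ v, Av E C a v → v ∈ F) → k ≤ C.card + r F) :
    ∃ (S : Fin k → Finset V) (a e : Fin k → V), PathSys E A S a e ∧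
      r (Finset.univ.image e) = k :=
  mr_aux E.card r hr E rfl A k h

end Pool.Agent.LPG
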