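import Pool.Agent.LPG.KDefs
import Pool.Agent.LPG.Exit
import Pool.Agent.LPG.MR

/-!
# Moving arbitrary sources to the neighbours of the centre (module KL)

`dim_nb`: let `C.card < n`; then `insert s C` has fewer than `n + 1` elements, so some `v ∈ N` is not in
`K ⊔ span (insert s C) = ad K s ⊔ span C`; if all elements of `nb N K s` were in `ad K s ⊔ span C`, then so
would be `v` (`gen`; `v ≠ s`).

`kl`: apply `mr` with `E` = the pairs in `N ×ˢ N` satisfying `Arc2 N K s (Fre N K s X Vc Y)`, `A = X`,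
`k = X.card`, `r F = (F ∩ (nb N K s \ Vc)).card` (a rank function).  Hypothesis: let all walks from `X`
avoiding `C` end in `F`, and suppose `C.card + r F < X.card`.  Put `C' = C ∪ (F ∩ (nb N K s \ Vc))`,
`C'.card < X.card`.  Every walk from `X` to `nb N K s \ Vc` meets `C'` (*).
(1) There is `x₀ ∈ Fre N K s X Vc Y`, `x₀ ∉ C'`.  Otherwise we get an injective map `X → C'`: an element of
`Fre` is in `C'` and goes to itself; `x ∈ X ∩ nb \ Vc` is in `C'` by (*) (trivial walk) and goes to itself;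
`x ∈ Y` goes to an element of `Seg x ∩ C'` (by (*) for the walk in `Seg x`, which consists of arcs
`Arc2 N K s ∅`, hence `Arc2` for every `Fr`; start included).  Injective since `Seg x ∩ X = {x}` and the `Seg x`
are disjoint.  So `X.card ≤ C'.card`, contradiction.
(2) Let `U = K ⊔ span ({s} ∪ C' ∪ Vc)`; `1 + C'.card + Vc.card ≤ X.card + Vc.card < n`, so `N` is not
contained in `U`.  There is `x₁ ∉ U`, with `x₁ = x₀` or `Adj N K x₀ x₁`: if `x₀ ∈ U`, not all
neighbours of `x₀` are in `U` by `gen` at `x₀`.  `x₁ ≠ s`, `x₁ ∉ C'`, and `x₀ → x₁` is an arc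
(`x₀ ∈ Fre`).
(3) Let `φ` be a functional, zero on `U`, with `φ x₁ > 0`.  `exit` (with `Λ := K`) gives a walk of
`Arc N K K s` in `φ > 0` from `x₁` to `u ∈ nb N K s` with `φ u > 0`, so `u ∉ Vc`, and the walk avoids `C'`.
Arcs are `Arc2` for every `Fr`.  So `x₀ → x₁ ⤳ u` contradicts (*).
The system of `mr` is indexed by `Fin X.card`; the starts are different elements of `X`, so every
`x ∈ X` is the start of exactly one path; `r (image e) = X.card` gives `e x ∈ nb N K s \ Vc`.
`v ∈ N`, `v ≠ s` since `v = x` or `v` is the target of an arc.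
-/

set_option autoImplicit false

namespace Pool.Agent.LPG

variable {W : Type*} [AddCommGroup W] [Module ℝ W] {N : Finset W} {K : Submodule ℝ W}

theorem dim_nb (h : Poly N K) {s : W} (hs : s ∈ N) {n : ℕ} (hn : DimGe N K (n + 1)) :
    DimGe (nb N K s) (ad K s) n := by
  classical
  intro C hC
  have hcard : (insert s C).card < n + 1 := by
    have := Finset.card_insert_le s C
    omega
  obtain ⟨v, hv, hvn⟩ := hn (insert s C) hcard
  by_contra hcon
  push Not at hcon
  apply hvn
  have hle : ad K s ⊔ Submodule.span ℝ (C : Set W) ≤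
      K ⊔ Submodule.span ℝ ((insert s C : Finset W) : Set W) := by
    rw [Finset.coe_insert, Submodule.span_insert]
    unfold ad
    rw [sup_assoc]
  apply hle
  by_cases hvs : v = s
  · rw [hvs]
    exact (le_sup_left : ad K s ≤ _) (self_mem_ad K s)
  · obtain ⟨c, _, hcs⟩ := gen h hs hv hvs
    have h1 : v = (v - ∑ u ∈ nb N K s, c u • u) + ∑ u ∈ nb N K s, c u • u := by abel
    rw [h1]
    refine Submodule.add_mem _ ((le_sup_left : ad K s ≤ _) hcs) ?_
    exact Submodule.sum_mem _ fun u hu => Submodule.smul_mem _ _ (hcon u hu)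

omit [AddCommGroup W] [Module ℝ W] in
private theorem kl_isRk [DecidableEq W] (T : Finset W) :
    IsRk (fun F : Finset W => (F ∩ T).card) where
  empty := by simp
  mono A B hAB := Finset.card_le_card (Finset.inter_subset_inter_right hAB)
  insert_le v A := by
    refine (Finset.card_le_card (t := insert v (A ∩ T)) ?_).trans (Finset.card_insert_le _ _)
    intro w hw
    rw [Finset.mem_inter, Finset.mem_insert] at hw
    rw [Finset.mem_insert, Finset.mem_inter]
    tauto
  submod A B := by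
    have h1 : (A ∪ B) ∩ T = (A ∩ T) ∪ (B ∩ T) := Finset.union_inter_distrib_right _ _ _
    have h2 : (A ∩ B) ∩ T = (A ∩ T) ∩ (B ∩ T) := Finset.inter_inter_distrib_right _ _ _
    change ((A ∪ B) ∩ T).card + ((A ∩ B) ∩ T).card ≤ (A ∩ T).card + (B ∩ T).card
    rw [h1, h2]
    exact le_of_eq (Finset.card_union_add_card_inter _ _)

private theorem kl_exists_fun (U : Submodule ℝ W) {x : W} (hx : x ∉ U) :
    ∃ φ : W →ₗ[ℝ] ℝ, (∀ z ∈ U, φ z = 0) ∧ 0 < φ x := by
  obtain ⟨f, hf, hU⟩ := Submodule.exists_le_ker_of_notMem hx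
  have hU' : ∀ z ∈ U, f z = 0 := fun z hz => LinearMap.mem_ker.1 (hU hz)
  rcases lt_or_gt_of_ne hf with h1 | h1
  · exact ⟨-f, fun z hz => by simp [hU' z hz], by simpa using h1⟩
  · exact ⟨f, hU', h1⟩

private theorem kl_arc2 {s : W} {Λ : Submodule ℝ W} {Fr : Set W} {p q : W}
    (h : Arc N K Λ s p q) : Arc2 N K s Fr p q :=
  ⟨h.1.1, h.2.1, h.2.2.1, fun hp => absurd hp h.2.2.2.1, fun _ => h.2.2.2.2⟩

private theorem kl_arc2' {s : W} {Fr : Set W} {p q : W}
    (h : Arc2 N K s ∅ p q) : Arc2 N K s Fr p q :=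
  ⟨h.1, h.2.1, h.2.2.1, fun hp => absurd (h.2.2.2.1 hp) (Set.notMem_empty _),
    fun _ => h.2.2.2.2 (Set.notMem_empty _)⟩

theorem kl (h : Poly N K) {s : W} (hs : s ∈ N) (X Vc Y : Finset W) (hX : X ⊆ N) (hsX : s ∉ X)
    (hVc : Vc ⊆ X) (hVn : ∀ v ∈ Vc, v ∈ nb N K s) (hY : ∀ x ∈ Y, x ∈ X ∧ x ∉ nb N K s)
    (Seg : W → Finset W)
    (hS : ∀ x ∈ Y, (∀ v ∈ X, v ∈ Seg x → v = x) ∧ x ∈ Seg x ∧ ∃ u ∈ nb N K s, u ∉ Vc ∧
      Relation.ReflTransGen (fun p q => Arc2 N K s ∅ p q ∧ p ∈ Seg x ∧ q ∈ Seg x) x u)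
    (hd : ∀ x ∈ Y, ∀ y ∈ Y, x ≠ y → Disjoint (Seg x) (Seg y)) {n : ℕ} (hn : DimGe N K n)
    (hc : X.card + Vc.card < n) :
    ∃ (S : W → Finset W) (e : W → W), Sys N K s (Fre N K s X Vc Y) X Vc S e := by
  classical
  set Fr := Fre N K s X Vc Y with hFr
  set T := nb N K s \ Vc with hT
  set E : Finset (W × W) := (N ×ˢ N).filter (fun p => Arc2 N K s Fr p.1 p.2) with hE
  have memE : ∀ u w : W, (u, w) ∈ E ↔ Arc2 N K s Fr u w := by
    intro u w
    rw [hE, Finset.mem_filter, Finset.mem_product]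
    exact ⟨fun hh => hh.2, fun hh => ⟨⟨hh.1.1, hh.1.2.1⟩, hh⟩⟩
  have key := mr (fun F : Finset W => (F ∩ T).card) (kl_isRk T) E X X.card (by
    intro C F hsep
    by_contra hlt
    rw [not_le] at hlt
    set C' := C ∪ (F ∩ T) with hC'
    have hC'card : C'.card < X.card := lt_of_le_of_lt (Finset.card_union_le _ _) hlt
    -- every walk from X to T meets C'
    have star : ∀ x ∈ X, ∀ u ∈ T, ¬ (x ∉ C' ∧
        Relation.ReflTransGen (fun p q => (p, q) ∈ E ∧ q ∉ C') x u) := by
      rintro x hx u hu ⟨hxC, hw⟩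
      have hav : Av E C x u := by
        refine ⟨fun hh => hxC (Finset.mem_union_left _ hh), ?_⟩
        exact Relation.ReflTransGen.mono
          (fun p q hpq => ⟨hpq.1, fun hh => hpq.2 (Finset.mem_union_left _ hh)⟩) _ _ hw
      have huF := hsep x hx u hav
      have huC : u ∈ C' := Finset.mem_union_right _ (Finset.mem_inter.2 ⟨huF, hu⟩)
      rcases Relation.ReflTransGen.cases_tail hw with h7 | ⟨c, _, h8⟩
      · exact hxC (h7 ▸ huC)
      · exact h8.2 huC
    -- a free source outside C'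
    have hfree : ∃ x₀ ∈ X, x₀ ∈ Fr ∧ x₀ ∉ C' := by
      by_contra hcon
      push Not at hcon
      have hpick : ∀ x ∈ X, ∃ c ∈ C', (x ∉ Y → c = x) ∧ (x ∈ Y → c ∈ Seg x) := by
        intro x hx
        by_cases hxY : x ∈ Y
        · obtain ⟨_, hxS, u, hu, huV, hw⟩ := hS x hxY
          by_contra hno
          push Not at hno
          have hno' : ∀ c ∈ Seg x, c ∉ C' := by
            intro c hcS hcC
            exact (hno c hcC (fun hh => absurd hxY hh)).2 hcS
          refine star x hx u (Finset.mem_sdiff.2 ⟨hu, huV⟩) ⟨hno' x hxS, ?_⟩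
          exact Relation.ReflTransGen.mono
            (fun p q hpq => ⟨(memE p q).2 (kl_arc2' hpq.1), hno' q hpq.2.2⟩) _ _ hw
        · refine ⟨x, ?_, fun _ => rfl, fun hh => absurd hh hxY⟩
          by_cases hxn : x ∈ nb N K s ∧ x ∉ Vc
          · by_contra hxC
            exact star x hx x (Finset.mem_sdiff.2 hxn) ⟨hxC, Relation.ReflTransGen.refl⟩
          · apply hcon x hx
            refine ⟨hx, hxY, fun hh => ?_⟩
            by_contra hV
            exact hxn ⟨hh, hV⟩
      choose! g hgC hg1 hg2 using hpick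
      have hinj : Set.InjOn g (X : Set W) := by
        intro x hx y hy hxy
        have hx' : x ∈ X := hx
        have hy' : y ∈ X := hy
        by_cases hxY : x ∈ Y
        · by_cases hyY : y ∈ Y
          · by_contra hne
            have h1 := hg2 x hx' hxY
            have h2 := hg2 y hy' hyY
            rw [hxy] at h1
            exact Finset.disjoint_left.1 (hd x hxY y hyY hne) h1 h2
          · have h1 := hg2 x hx' hxY
            have h2 := hg1 y hy' hyY
            rw [hxy, h2] at h1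
            exact ((hS x hxY).1 y hy' h1).symm
        · by_cases hyY : y ∈ Y
          · have h1 := hg1 x hx' hxY
            have h2 := hg2 y hy' hyY
            rw [← hxy, h1] at h2
            exact (hS y hyY).1 x hx' h2
          · rw [← hg1 x hx' hxY, ← hg1 y hy' hyY, hxy]
      have := Finset.card_le_card_of_injOn g (fun x hx => hgC x hx) hinj
      omega
    obtain ⟨x₀, hx₀X, hx₀F, hx₀C⟩ := hfree
    have hx₀N : x₀ ∈ N := hX hx₀X
    have hx₀s : x₀ ≠ s := fun hh => hsX (hh ▸ hx₀X)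
    set U : Submodule ℝ W :=
      K ⊔ Submodule.span ℝ ((insert s (C' ∪ Vc) : Finset W) : Set W) with hU
    have hKU : K ≤ U := le_sup_left
    have hmemU : ∀ w ∈ insert s (C' ∪ Vc), w ∈ U := fun w hw =>
      (le_sup_right : _ ≤ U) (Submodule.subset_span (Finset.mem_coe.2 hw))
    have hUcard : (insert s (C' ∪ Vc)).card < n := by
      have h1 := Finset.card_insert_le s (C' ∪ Vc)
      have h2 := Finset.card_union_le C' Vc
      omega
    obtain ⟨v, hvN, hvU⟩ := hn _ hUcard
    have hx₁ : ∃ x₁ ∈ N, x₁ ∉ U ∧ (x₁ = x₀ ∨ Adj N K x₀ x₁) := by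
      by_cases hx₀U : x₀ ∈ U
      · by_contra hno
        push Not at hno
        apply hvU
        have hvx : v ≠ x₀ := fun hh => hvU (hh ▸ hx₀U)
        obtain ⟨c, _, hcs⟩ := gen h hx₀N hvN hvx
        have h1 : v = (v - ∑ u ∈ nb N K x₀, c u • u) + ∑ u ∈ nb N K x₀, c u • u := by abel
        rw [h1]
        refine Submodule.add_mem _ ?_ ?_
        · have : ad K x₀ ≤ U := by
            unfold ad
            refine sup_le hKU ?_
            rw [Submodule.span_singleton_le_iff_mem]
            exact hx₀U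
          exact this hcs
        · refine Submodule.sum_mem _ fun u hu => Submodule.smul_mem _ _ ?_
          by_contra huU
          exact (hno u (mem_nb.1 hu).2.1 huU).2 (mem_nb.1 hu)
      · exact ⟨x₀, hx₀N, hx₀U, Or.inl rfl⟩
    obtain ⟨x₁, hx₁N, hx₁U, hx₁a⟩ := hx₁
    obtain ⟨φ, hφU, hφx⟩ := kl_exists_fun U hx₁U
    have hφs : φ s = 0 := hφU s (hmemU s (Finset.mem_insert_self _ _))
    obtain ⟨u, hu, hφu, hw⟩ := exit h hs (le_refl K) φ (fun z hz => hφU z (hKU hz)) hφs hx₁N hφx
    have hnot : ∀ q, 0 < φ q → q ∉ C' := by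
      intro q hq hqC
      rw [hφU q (hmemU q (Finset.mem_insert_of_mem (Finset.mem_union_left _ hqC)))] at hq
      exact lt_irrefl _ hq
    have huT : u ∈ T := by
      refine Finset.mem_sdiff.2 ⟨hu, fun huV => ?_⟩
      rw [hφU u (hmemU u (Finset.mem_insert_of_mem (Finset.mem_union_right _ huV)))] at hφu
      exact lt_irrefl _ hφu
    have hw' : Relation.ReflTransGen (fun p q => (p, q) ∈ E ∧ q ∉ C') x₁ u :=
      Relation.ReflTransGen.mono
        (fun p q hpq => ⟨(memE p q).2 (kl_arc2 hpq.1), hnot q hpq.2.2⟩) _ _ hw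
    refine star x₀ hx₀X u huT ⟨hx₀C, ?_⟩
    rcases hx₁a with rfl | hadj
    · exact hw'
    · refine Relation.ReflTransGen.head ⟨(memE _ _).2 ⟨hadj, hx₀s, ?_, ?_, ?_⟩, hnot _ hφx⟩ hw'
      · rintro rfl
        rw [hφs] at hφx
        exact lt_irrefl _ hφx
      · exact fun _ => hx₀F
      · exact fun hh => absurd hx₀F hh)
  obtain ⟨S', a, e', ⟨hdis, hPS⟩, hr⟩ := key
  have hainj : Function.Injective a := by
    intro i j hij
    by_contra hne
    have h1 := (hPS i).2.1
    have h2 := (hPS j).2.1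
    rw [hij] at h1
    exact Finset.disjoint_left.1 (hdis i j hne) h1 h2
  have himg : Finset.univ.image a = X := by
    refine Finset.eq_of_subset_of_card_le ?_ ?_
    · intro w hw
      obtain ⟨j, _, rfl⟩ := Finset.mem_image.1 hw
      exact (hPS j).1
    · rw [Finset.card_image_of_injective _ hainj, Finset.card_univ, Fintype.card_fin]
  have hsig : ∀ x ∈ X, ∃ j : Fin X.card, a j = x := by
    intro x hx
    rw [← himg] at hx
    obtain ⟨j, _, hj⟩ := Finset.mem_image.1 hx
    exact ⟨j, hj⟩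
  have hends : ∀ j, e' j ∈ T := by
    have h1 : (Finset.univ.image e' ∩ T).card = X.card := hr
    have h2 : (Finset.univ.image e').card ≤ X.card := by
      refine Finset.card_image_le.trans ?_
      rw [Finset.card_univ, Fintype.card_fin]
    have h3 : Finset.univ.image e' ∩ T = Finset.univ.image e' :=
      Finset.eq_of_subset_of_card_le Finset.inter_subset_left (by omega)
    intro j
    have h4 : e' j ∈ Finset.univ.image e' ∩ T := by
      rw [h3]
      exact Finset.mem_image_of_mem _ (Finset.mem_univ j)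
    exact (Finset.mem_inter.1 h4).2
  choose σ hσ using hsig
  refine ⟨fun x => if hx : x ∈ X then S' (σ x hx) else ∅,
    fun x => if hx : x ∈ X then e' (σ x hx) else x,
    ?_, ?_⟩
  · intro x hx y hy hxy
    simp only [hx, hy, dif_pos]
    refine hdis _ _ fun hh => hxy ?_
    rw [← hσ x hx, ← hσ y hy, hh]
  · intro x hx
    simp only [hx, dif_pos]
    obtain ⟨_, h2, h3, h4⟩ := hPS (σ x hx)
    rw [hσ x hx] at h2
    refine ⟨h2, h3, (Finset.mem_sdiff.1 (hends _)).1, (Finset.mem_sdiff.1 (hends _)).2, ?_⟩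
    intro v hv
    obtain ⟨h5, h6⟩ := h4 v hv
    have hcase : v = x ∨ ∃ c, Arc2 N K s Fr c v := by
      rcases Relation.ReflTransGen.cases_tail h5 with h7 | ⟨c, _, h8⟩
      · left
        rw [h7, hσ x hx]
      · exact Or.inr ⟨c, (memE c v).1 h8.1⟩
    refine ⟨?_, ?_, ?_, ?_⟩
    · rcases hcase with rfl | ⟨c, hc'⟩
      · exact hX hx
      · exact hc'.1.2.1
    · rcases hcase with rfl | ⟨c, hc'⟩
      · exact fun hh => hsX (hh ▸ hx)
      · exact hc'.2.2.1
    · rw [hσ x hx] at h5
      exact Relation.ReflTransGen.mono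
        (fun p q hpq => ⟨(memE p q).1 hpq.1, hpq.2.1, hpq.2.2.1, hpq.2.2.2⟩) _ _ h5
    · rw [hσ x hx] at h6
      exact Relation.ReflTransGen.mono
        (fun p q hpq => ⟨(memE p q).1 hpq.1, hpq.2.1, hpq.2.2.1, hpq.2.2.2⟩) _ _ h6

end Pool.Agent.LPG
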