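import Pool.Agent.LPG.SysOwn
import Pool.Agent.LPG.KL

/-!
# Good routings exist (module Good)

Let `(Y, ι)` be a family (`Fam`) with the greatest `Y.card` (`Y ⊆ X`, `Y = ∅` is a family).
`fam_seg`: the sets `Seg x = {v ∈ N | Br N K s (ι x) x v}` satisfy the hypotheses of `kl`: the walk from
`x` to `ι x` is `side_walk` (with `a := ι x`); `ι x ∉ Vc`: `Br N K s (ι x) x (ι x)` (`br_end`), so
`ι x ∈ X` would give `ι x = x`, but `x ∉ nb N K s`.  Disjoint: let `x ≠ y ∈ Y`, `v ∈ Seg x ∩ Seg y`,
`VAdj (ι x) b`, `VAdj (ι y) b'` the branches of `x` and `y`; by `br_trans` `v` is on both branches.  If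
`v ∈ nb N K s`, then `v = ι x` and `v = ι y` (`br_side_nb`), so `x = y`.  If `v ∉ nb N K s`, then the branches
are equal (`br_uniq`), and `ι x ≠ ι y`, so with `a = ι x`, `b = ι y` both `x`, `y` are on the branch of
`a b`.  `br_total`: `Br a x y` or `Br b x y`; the first is excluded (`y ∈ X`, `y ≠ x`).  Similarly
`Br a y x`.  So in the order from `a` to `b` (quotients `β / (α + β)`): `v ≤ x` (`Br a x v`), `x ≤ y` (`Br a y x`),
`y ≤ v` (`Br b y v`): then `Br a y v` (`br_trans` of `Br a y x` and `Br a x v`) and `Br b y v`, so `v = y` by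
`br_anti`; so `Br a x y`, contradiction.

`good_of_sys`: `kl` gives the system `S`, `e`.  Put `Z = {x ∈ X | x ∉ Y ∧ InBr N K s x}`.  `disj`, `mem`, `conn`,
`zx` are clear (arcs are adjacent), `sub` is `sys_nb`, `br` is `sys_br` (if `v = x ∉ Y`, `x ∉ nb N K s` and
`Br N K s a b x`, then `x ∈ Z`).  `occ`: let `z ∈ Z`, `VAdj N K s a b`, `Br N K s a b z`, `a ∉ X`.  `closest` gives
`y ∈ X`, `y ∉ nb N K s`, `Br N K s a b y`, no other element of `X` between `a` and `y`, and
`Br N K s b y z`.
Case `y ∈ Y`: by `sys_own` `e y = a` (then take `x = y`, `y ∉ Z`) or `e y = b` and then `z = y`,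
contradiction to `z ∉ Y`.
Case `y ∉ Y`: if `e x = a` for some `x ∈ Y`, we are done (`x ∉ Z`).  Otherwise
`(insert y Y, ι')` with `ι' y = a`, `ι' x = e x` for `x ∈ Y` is a family with more elements
(by `sys_own`, symmetric in `a`, `b`; `e` is injective on `X` since the sets `S x` are disjoint):
contradiction to the choice of `Y`.
-/

set_option autoImplicit false

namespace Pool.Agent.LPG

variable {W : Type*} [AddCommGroup W] [Module ℝ W] {N : Finset W} {K : Submodule ℝ W}

theorem fam_seg (h : Poly N K) {s : W} (hs : s ∈ N) {X Vc Y : Finset W} {ι : W → W}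
    (hVc : Vc ⊆ X) (hF : Fam N K s X Y ι) :
    ∃ Seg : W → Finset W,
      (∀ x ∈ Y, (∀ v ∈ X, v ∈ Seg x → v = x) ∧ x ∈ Seg x ∧ ∃ u ∈ nb N K s, u ∉ Vc ∧
        Relation.ReflTransGen (fun p q => Arc2 N K s ∅ p q ∧ p ∈ Seg x ∧ q ∈ Seg x) x u) ∧
      ∀ x ∈ Y, ∀ y ∈ Y, x ≠ y → Disjoint (Seg x) (Seg y) := by
  classical
  have hmem : ∀ x v, v ∈ N.filter (fun v => Br N K s (ι x) x v) ↔ Br N K s (ι x) x v := by
    intro x v
    rw [Finset.mem_filter]
    exact ⟨fun hv => hv.2, fun hv => ⟨hv.1, hv⟩⟩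
  refine ⟨fun x => N.filter (fun v => Br N K s (ι x) x v), fun x hx => ?_, ?_⟩
  · obtain ⟨hxX, hxn, ⟨b, hab, hbx⟩, honly⟩ := hF.1 x hx
    refine ⟨fun v hvX hv => honly v hvX ((hmem x v).1 hv), (hmem x x).2 (br_self hbx.1 hbx.2.1),
      ι x, hab.1, fun hu => ?_, ?_⟩
    · have ha := mem_nb.1 hab.1
      have h1 : ι x = x := honly (ι x) (hVc hu) (br_end ha.2.1 (Ne.symm ha.2.2.1))
      exact hxn (h1 ▸ hab.1)
    · refine Relation.ReflTransGen.mono (fun p q hpq => ?_) _ _ (side_walk h hs hab hbx hxn)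
      exact ⟨hpq.1, (hmem x p).2 hpq.2.1, (hmem x q).2 hpq.2.2⟩
  · intro x hx y hy hxy
    rw [Finset.disjoint_left]
    intro v hvx hvy
    have hvx := (hmem x v).1 hvx
    have hvy := (hmem y v).1 hvy
    obtain ⟨hxX, hxn, ⟨b, hab, hbx⟩, honlyx⟩ := hF.1 x hx
    obtain ⟨hyX, hyn, ⟨b', hab', hby⟩, honlyy⟩ := hF.1 y hy
    have hv1 : Br N K s (ι x) b v := br_trans hbx hvx
    have hv2 : Br N K s (ι y) b' v := br_trans hby hvy
    by_cases hvn : v ∈ nb N K s
    · have e1 := br_side_nb h hs hab hbx hxn hvx hvn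
      have e2 := br_side_nb h hs hab' hby hyn hvy hvn
      exact hxy (hF.2 x hx y hy (e1.symm.trans e2))
    · rcases br_uniq h hs hab hab' hv1 hv2 hvn with ⟨e1, _⟩ | ⟨e1, e2⟩
      · exact hxy (hF.2 x hx y hy e1.symm)
      · have hby1 : Br N K s b (ι x) y := by
          rw [← e1, ← e2]
          exact hby
        have hby2 : Br N K s (ι x) b y := br_comm hby1
        have hyx : Br N K s b (ι x) x := br_comm hbx
        have hab1 : VAdj N K s b (ι x) := adj_symm hab
        have hay : Br N K s (ι x) y x := by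
          rcases br_total h hs hab1 hby1 hyx with h1 | h1
          · exfalso
            rw [← e1] at h1
            exact hxy (honlyy x hxX h1)
          · exact h1
        have h3 : Br N K s (ι x) y v := br_trans hay hvx
        have h4 : Br N K s b y v := by
          rw [← e1]
          exact hvy
        have h5 : v = y := br_anti h hs hab hby2 h3 h4
        rw [h5] at hvx
        exact hxy (honlyx y hyX hvx).symm

theorem good_of_sys (h : Poly N K) {s : W} (hs : s ∈ N) {X Vc Y : Finset W} {ι : W → W}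
    (hVc : Vc ⊆ X) (hF : Fam N K s X Y ι)
    (hmax : ∀ (Y' : Finset W) (ι' : W → W), Fam N K s X Y' ι' → Y'.card ≤ Y.card)
    {S : W → Finset W} {e : W → W} (hSys : Sys N K s (Fre N K s X Vc Y) X Vc S e) :
    ∃ Z, GoodR N K s X Vc S e Z := by
  classical
  have hZ : ∀ x, x ∈ X.filter (fun x => x ∉ Y ∧ InBr N K s x) ↔
      x ∈ X ∧ x ∉ Y ∧ InBr N K s x := fun x => Finset.mem_filter
  refine ⟨X.filter (fun x => x ∉ Y ∧ InBr N K s x), ?_⟩
  refine ⟨hSys.1, fun x hx => ?_, fun x hx v hv => ?_, fun x hx v hv => ?_, fun z hz => ?_,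
    fun x hx v hv a b hab hbr => ?_, fun z hz a b hab hbr => ?_⟩
  · obtain ⟨h1, h2, h3, h4, _⟩ := hSys.2 x hx
    exact ⟨h1, h2, h3, h4⟩
  · obtain ⟨h1, h2, h3, h4, h5⟩ := hSys.2 x hx
    exact ⟨(h5 v hv).1, (h5 v hv).2.1, fun hvn => sys_nb hSys hx hv hvn⟩
  · obtain ⟨h1, h2, h3, h4, h5⟩ := hSys.2 x hx
    refine Relation.ReflTransGen.mono (fun p q hpq => ?_) _ _ (h5 v hv).2.2.1
    exact ⟨hpq.1.1, hpq.2.1, hpq.2.2.1⟩
  · have hz' := (hZ z).1 hz
    exact ⟨hz'.1, hz'.2.2.1⟩
  · rcases sys_br h hs hSys hx hv hab hbr with h1 | h1 | ⟨h1, h2, h3⟩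
    · exact Or.inl h1
    · exact Or.inr (Or.inl h1)
    · refine Or.inr (Or.inr ⟨h1, ?_⟩)
      rcases h3 with h3 | h3
      · exact Or.inr h3
      · left
        rw [h1] at hbr
        exact (hZ x).2 ⟨hx, h2, h3, a, b, hab, hbr⟩
  · obtain ⟨hzX, hzY, hzn, _⟩ := (hZ z).1 hz
    by_cases haX : a ∈ X
    · exact Or.inl haX
    · right
      obtain ⟨y, hyX, hby, hyn, hfirst, hbyz⟩ := closest h hs hab X hzX hbr hzn haX
      by_cases hyY : y ∈ Y
      · obtain ⟨_, h1, h2⟩ := sys_own h hs hSys hyX hyY hyn hab hby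
        rcases h1 with h1 | h1
        · exact ⟨y, hyX, fun hh => ((hZ y).1 hh).2.1 hyY, h1⟩
        · exfalso
          rw [h1] at h2
          have : z = y := h2 z hzX hbyz
          exact hzY (this ▸ hyY)
      · by_cases hex : ∃ x ∈ Y, e x = a
        · obtain ⟨x, hxY, hxa⟩ := hex
          exact ⟨x, (hF.1 x hxY).1, fun hh => ((hZ x).1 hh).2.1 hxY, hxa⟩
        · exfalso
          have hFam : Fam N K s X (insert y Y) (fun v => if v = y then a else e v) := by
            constructor
            · intro x hx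
              rcases Finset.mem_insert.1 hx with rfl | hxY
              · simp only [if_true]
                exact ⟨hyX, hyn, ⟨b, hab, hby⟩, hfirst⟩
              · have hne : x ≠ y := fun hh => hyY (hh ▸ hxY)
                simp only [if_neg hne]
                obtain ⟨hxX, hxn, ⟨b0, hab0, hbx0⟩, _⟩ := hF.1 x hxY
                obtain ⟨_, h1, h2⟩ := sys_own h hs hSys hxX hxY hxn hab0 hbx0
                refine ⟨hxX, hxn, ?_, h2⟩
                rcases h1 with h1 | h1
                · rw [h1]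
                  exact ⟨b0, hab0, hbx0⟩
                · rw [h1]
                  exact ⟨ι x, adj_symm hab0, br_comm hbx0⟩
            · intro x hx x' hx' hxx'
              rcases Finset.mem_insert.1 hx with rfl | hxY
              · rcases Finset.mem_insert.1 hx' with rfl | hxY'
                · rfl
                · have hne : x' ≠ x := fun hh => hyY (hh ▸ hxY')
                  simp only [if_true, if_neg hne] at hxx'
                  exact absurd ⟨x', hxY', hxx'.symm⟩ hex
              · have hne : x ≠ y := fun hh => hyY (hh ▸ hxY)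
                rcases Finset.mem_insert.1 hx' with rfl | hxY'
                · simp only [if_true, if_neg hne] at hxx'
                  exact absurd ⟨x, hxY, hxx'⟩ hex
                · have hne' : x' ≠ y := fun hh => hyY (hh ▸ hxY')
                  simp only [if_neg hne, if_neg hne'] at hxx'
                  by_contra hcon
                  have hxX := (hF.1 x hxY).1
                  have hxX' := (hF.1 x' hxY').1
                  have hd := hSys.1 x hxX x' hxX' hcon
                  have h1 := (hSys.2 x hxX).2.1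
                  have h2 := (hSys.2 x' hxX').2.1
                  rw [← hxx'] at h2
                  exact (Finset.disjoint_left.1 hd) h1 h2
          have h1 := hmax _ _ hFam
          rw [Finset.card_insert_of_notMem hyY] at h1
          omega

theorem good_routing (h : Poly N K) {s : W} (hs : s ∈ N) (X Vc : Finset W) (hX : X ⊆ N)
    (hsX : s ∉ X) (hVc : Vc ⊆ X) (hVn : ∀ v ∈ Vc, v ∈ nb N K s) {n : ℕ} (hn : DimGe N K n)
    (hc : X.card + Vc.card < n) :
    ∃ (S : W → Finset W) (e : W → W) (Z : Finset W), GoodR N K s X Vc S e Z := by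
  classical
  have hne : (X.powerset.filter (fun Y => ∃ ι : W → W, Fam N K s X Y ι)).Nonempty := by
    refine ⟨∅, Finset.mem_filter.2 ⟨Finset.empty_mem_powerset X, id, ?_, ?_⟩⟩
    · intro x hx
      exact absurd hx (Finset.notMem_empty x)
    · intro x hx
      exact absurd hx (Finset.notMem_empty x)
  obtain ⟨Y, hY, hmax⟩ := Finset.exists_max_image
    (X.powerset.filter (fun Y => ∃ ι : W → W, Fam N K s X Y ι)) (fun Y => Y.card) hne
  obtain ⟨_, ι, hF⟩ := Finset.mem_filter.1 hY
  have hmax' : ∀ (Y' : Finset W) (ι' : W → W), Fam N K s X Y' ι' → Y'.card ≤ Y.card := by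
    intro Y' ι' hF'
    refine hmax Y' (Finset.mem_filter.2 ⟨Finset.mem_powerset.2 (fun x hx => (hF'.1 x hx).1),
      ι', hF'⟩)
  obtain ⟨Seg, hS, hd⟩ := fam_seg h hs hVc hF
  obtain ⟨S, e, hSys⟩ := kl h hs X Vc Y hX hsX hVc hVn
    (fun x hx => ⟨(hF.1 x hx).1, (hF.1 x hx).2.1⟩) Seg hS hd hn hc
  obtain ⟨Z, hZ⟩ := good_of_sys h hs hVc hF hmax' hSys
  exact ⟨S, e, Z, hZ⟩

end Pool.Agent.LPG
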