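import Pool.Agent.LPG.Defs

/-!
# Dependent terminals: definitions (MP_c76e9d_co, second theorem)

Paper proof of `k(d) ≥ ⌊(d+3)/3⌋` for `d ≥ 6`.  State: a polytope `(N, K)` of dimension `n - 1`
(`DimGe N K n`), a set `O ⊆ N` of occupied vertices which contains the `2m` different terminals, and a
flag `bad i` for some pairs: the edge `s i, t i` must not be used.  Step with centre `s 0`: move all
elements of `X = O \ {s 0}` to different neighbours of `s 0` (`GoodR`); if `bad 0` then `t 0` has to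
move, and its old place stays occupied (`Vc = {t 0}`); a terminal inside a branch stays on its branch, except
for the elements of `Z`, and then both ends of the branch are occupied by elements not in `Z`
(`occ`).  Pass to the vertex figure; a pair becomes bad only if its new places are joined by an edge
whose branch contains an element of `Z` (or if it was bad).  Every step keeps `|O| + m ≤ n`; a step
with a centre which is not bad gains one; the first two steps can be made with such centres.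
-/

set_option autoImplicit false

namespace Pool.Agent.LPG

variable {W : Type*} [AddCommGroup W] [Module ℝ W]

/-- `N` is not contained, modulo `K`, in the span of fewer than `n` vectors: the polytope has
dimension at least `n - 1`. -/
def DimGe (N : Finset W) (K : Submodule ℝ W) (n : ℕ) : Prop :=
  ∀ C : Finset W, C.card < n → ∃ v ∈ N, v ∉ K ⊔ Submodule.span ℝ (C : Set W)

/-- `v` lies inside a branch at `s`. -/
def InBr (N : Finset W) (K : Submodule ℝ W) (s v : W) : Prop :=
  v ∉ nb N K s ∧ ∃ a b, VAdj N K s a b ∧ Br N K s a b v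

/-- Arcs for moving terminals; the vertices of `Fr` may be left in all directions, all others only
along their branch, and neighbours of `s` outside `Fr` cannot be left. -/
def Arc2 (N : Finset W) (K : Submodule ℝ W) (s : W) (Fr : Set W) (v w : W) : Prop :=
  Adj N K v w ∧ v ≠ s ∧ w ≠ s ∧ (v ∈ nb N K s → v ∈ Fr) ∧
    (v ∉ Fr → ∀ a b, VAdj N K s a b → Br N K s a b v → Br N K s a b w)

/-- The sources which may be left in all directions: those not in `Y` and not (unless in `Vc`)
neighbours of `s`. -/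
def Fre (N : Finset W) (K : Submodule ℝ W) (s : W) (X Vc Y : Finset W) : Set W :=
  {v | v ∈ X ∧ v ∉ Y ∧ (v ∈ nb N K s → v ∈ Vc)}

/-- The output of the theorem of Menger for the digraph `Arc2`. -/
def Sys (N : Finset W) (K : Submodule ℝ W) (s : W) (Fr : Set W) (X Vc : Finset W)
    (S : W → Finset W) (e : W → W) : Prop :=
  (∀ x ∈ X, ∀ y ∈ X, x ≠ y → Disjoint (S x) (S y)) ∧
    ∀ x ∈ X, x ∈ S x ∧ e x ∈ S x ∧ e x ∈ nb N K s ∧ e x ∉ Vc ∧ ∀ v ∈ S x, v ∈ N ∧ v ≠ s ∧
      Relation.ReflTransGen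
        (fun p q => Arc2 N K s Fr p q ∧ p ∈ S x ∧ q ∈ S x ∧ p ≠ e x) x v ∧
      Relation.ReflTransGen
        (fun p q => Arc2 N K s Fr p q ∧ p ∈ S x ∧ q ∈ S x ∧ q ≠ x) v (e x)

/-- Families of sources inside branches which can walk to different ends `ι x` of their branches
without meeting another source. -/
def Fam (N : Finset W) (K : Submodule ℝ W) (s : W) (X Y : Finset W) (ι : W → W) : Prop :=
  (∀ x ∈ Y, x ∈ X ∧ x ∉ nb N K s ∧ (∃ b, VAdj N K s (ι x) b ∧ Br N K s (ι x) b x) ∧
      ∀ v ∈ X, Br N K s (ι x) x v → v = x) ∧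
    ∀ x ∈ Y, ∀ y ∈ Y, ι x = ι y → x = y

/-- Good routings of `X` to the neighbours of `s`; `Z` is the set of the sources which leave their
branch, `Vc` the set of the neighbours of `s` which have to leave their place. -/
structure GoodR (N : Finset W) (K : Submodule ℝ W) (s : W) (X Vc : Finset W)
    (S : W → Finset W) (e : W → W) (Z : Finset W) : Prop where
  disj : ∀ x ∈ X, ∀ y ∈ X, x ≠ y → Disjoint (S x) (S y)
  mem : ∀ x ∈ X, x ∈ S x ∧ e x ∈ S x ∧ e x ∈ nb N K s ∧ e x ∉ Vc
  sub : ∀ x ∈ X, ∀ v ∈ S x, v ∈ N ∧ v ≠ s ∧ (v ∈ nb N K s → v = e x ∨ (v = x ∧ x ∈ Vc))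
  conn : ∀ x ∈ X, ∀ v ∈ S x,
    Relation.ReflTransGen (fun p q => Adj N K p q ∧ p ∈ S x ∧ q ∈ S x) x v
  zx : ∀ z ∈ Z, z ∈ X ∧ z ∉ nb N K s
  br : ∀ x ∈ X, ∀ v ∈ S x, ∀ a b, VAdj N K s a b → Br N K s a b v →
    e x = a ∨ e x = b ∨ (v = x ∧ (x ∈ Z ∨ x ∈ Vc))
  occ : ∀ z ∈ Z, ∀ a b, VAdj N K s a b → Br N K s a b z → a ∈ X ∨ ∃ x ∈ X, x ∉ Z ∧ e x = a

/-- The pairs `s i, t i` are linked by disjoint connected sets which contain no other element of
`O`; for a bad pair the edge `s i, t i` is not used. -/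
def Linked2 (N : Finset W) (K : Submodule ℝ W) (O : Finset W) {m : ℕ} (s t : Fin m → W)
    (bad : Fin m → Prop) : Prop :=
  ∃ S : Fin m → Finset W, (∀ i j, i ≠ j → Disjoint (S i) (S j)) ∧
    ∀ i, s i ∈ S i ∧ t i ∈ S i ∧ (∀ v ∈ S i, v ∈ O → v = s i ∨ v = t i) ∧ ∀ v ∈ S i,
      Relation.ReflTransGen (fun p q => Adj N K p q ∧ p ∈ S i ∧ q ∈ S i ∧
        ¬ (bad i ∧ ((p = s i ∧ q = t i) ∨ (p = t i ∧ q = s i)))) (s i) v

/-- The data of a state: different terminals in `O`, bad pairs are adjacent. -/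
structure State (N : Finset W) (K : Submodule ℝ W) (O : Finset W) {m : ℕ} (s t : Fin m → W)
    (bad : Fin m → Prop) : Prop where
  poly : Poly N K
  sub : O ⊆ N
  smem : ∀ i, s i ∈ O
  tmem : ∀ i, t i ∈ O
  sinj : ∀ i j, s i = s j → i = j
  tinj : ∀ i j, t i = t j → i = j
  st : ∀ i j, s i ≠ t j
  badj : ∀ i, bad i → Adj N K (s i) (t i)

/-- The new flags after a step. -/
def nbad (N : Finset W) (K : Submodule ℝ W) {m : ℕ} (s t : Fin (m + 1) → W)
    (bad : Fin (m + 1) → Prop) (e : W → W) (Z : Finset W) (i : Fin m) : Prop :=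
  VAdj N K (s 0) (e (s i.succ)) (e (t i.succ)) ∧
    (bad i.succ ∨ ∃ z ∈ Z, Br N K (s 0) (e (s i.succ)) (e (t i.succ)) z)

end Pool.Agent.LPG
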