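import Pool.Agent.LPG.Step2
import Pool.Agent.LPG.Good

/-!
# The counting induction (module LM)

`lm`: induction on `m`.  `m = 0`: trivial (`Fin 0`).  Step: let `Vc = {t 0}` if `bad 0`, else `∅`;
`X = O.erase (s 0)` has `O.card - 1` elements; `X.card + Vc.card ≤ O.card < n` since
`O.card + m + 1 ≤ n`.  `good_routing` (for `s 0`; if `bad 0` then `t 0 ∈ nb N K (s 0)` by `badj`;
`t 0 ∈ X` as `t 0 ≠ s 0`), `state_step`, `dim_nb` (`n = n' + 1`), `link2_step`; the new occupied set has at
most `(O.card - 1) + Vc.card ≤ O.card` elements, and `O.card + m ≤ n'`.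

`link2_perm`: permute the pairs by a permutation `σ` of `Fin m`.

`lm1`: one pair `j` which is not bad: permute such that it is pair `0` (`Equiv.swap 0 j`), make one step
with `Vc = ∅`: the new occupied set has at most `O.card - 1` elements; `O.card - 1 + m ≤ n'` where
`n = n' + 1`, `m + 1` the number of pairs.
-/

set_option autoImplicit false

namespace Pool.Agent.LPG

variable {W : Type*} [AddCommGroup W] [Module ℝ W] [DecidableEq W]

private theorem lm_step {N : Finset W} {K : Submodule ℝ W} {O : Finset W} {m : ℕ}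
    {s t : Fin (m + 1) → W} {bad : Fin (m + 1) → Prop} {n : ℕ} (hst : State N K O s t bad)
    (hn : DimGe N K (n + 1)) (Vc : Finset W) (hV1 : bad 0 → Vc = {t 0}) (hV0 : ¬ bad 0 → Vc = ∅)
    (hVX : Vc ⊆ O.erase (s 0)) (hVn : ∀ v ∈ Vc, v ∈ nb N K (s 0))
    (hc : (O.erase (s 0)).card + Vc.card < n + 1)
    (ih : ∀ (N' : Finset W) (K' : Submodule ℝ W) (O' : Finset W) (s' t' : Fin m → W)
      (bad' : Fin m → Prop), State N' K' O' s' t' bad' → DimGe N' K' n →
      O'.card ≤ (O.erase (s 0)).card + Vc.card → Linked2 N' K' O' s' t' bad') :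
    Linked2 N K O s t bad := by
  have hs : s 0 ∈ N := hst.sub (hst.smem 0)
  obtain ⟨S, e, Z, hG⟩ := good_routing hst.poly hs (O.erase (s 0)) Vc
    (fun x hx => hst.sub (Finset.mem_of_mem_erase hx)) (Finset.notMem_erase _ _) hVX hVn hn hc
  have h1 := state_step hst hV1 hV0 hG
  have h2 := dim_nb hst.poly hs hn
  refine link2_step hst hV1 hV0 hG (ih _ _ _ _ _ _ h1 h2 ?_)
  calc ((O.erase (s 0)).image e ∪ Vc).card
      ≤ ((O.erase (s 0)).image e).card + Vc.card := Finset.card_union_le _ _
    _ ≤ (O.erase (s 0)).card + Vc.card := Nat.add_le_add_right Finset.card_image_le _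

theorem lm : ∀ (m : ℕ) (N : Finset W) (K : Submodule ℝ W) (O : Finset W) (s t : Fin m → W)
    (bad : Fin m → Prop) (n : ℕ), State N K O s t bad → DimGe N K n →
    (m = 0 ∨ O.card + m ≤ n) → Linked2 N K O s t bad := by
  intro m
  induction m with
  | zero =>
    intro N K O s t bad n _ _ _
    exact ⟨fun _ => ∅, fun i => i.elim0, fun i => i.elim0⟩
  | succ m ih =>
    intro N K O s t bad n hst hn h
    have hc : O.card + (m + 1) ≤ n := by
      rcases h with h | h
      · exact absurd h (Nat.succ_ne_zero m)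
      · exact h
    have hpos : 0 < O.card := Finset.card_pos.2 ⟨_, hst.smem 0⟩
    obtain ⟨n', rfl⟩ : ∃ n', n = n' + 1 := ⟨n - 1, by omega⟩
    have hX : (O.erase (s 0)).card = O.card - 1 := Finset.card_erase_of_mem (hst.smem 0)
    by_cases hb : bad 0
    · have htX : t 0 ∈ O.erase (s 0) :=
        Finset.mem_erase.2 ⟨(hst.st 0 0).symm, hst.tmem 0⟩
      refine lm_step hst hn {t 0} (fun _ => rfl) (fun h => absurd hb h)
        (Finset.singleton_subset_iff.2 htX) ?_ ?_ ?_
      · intro v hv
        rw [Finset.mem_singleton.1 hv]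
        exact mem_nb.2 (hst.badj 0 hb)
      · rw [hX, Finset.card_singleton]
        omega
      · intro N' K' O' s' t' bad' h1 h2 h3
        rw [hX, Finset.card_singleton] at h3
        exact ih N' K' O' s' t' bad' n' h1 h2 (Or.inr (by omega))
    · refine lm_step hst hn ∅ (fun h => absurd h hb) (fun _ => rfl)
        (Finset.empty_subset _) ?_ ?_ ?_
      · intro v hv
        exact absurd hv (Finset.notMem_empty v)
      · rw [hX, Finset.card_empty]
        omega
      · intro N' K' O' s' t' bad' h1 h2 h3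
        rw [hX, Finset.card_empty] at h3
        exact ih N' K' O' s' t' bad' n' h1 h2 (Or.inr (by omega))

theorem link2_perm {N : Finset W} {K : Submodule ℝ W} {O : Finset W} {m : ℕ} {s t : Fin m → W}
    {bad : Fin m → Prop} (σ : Equiv.Perm (Fin m))
    (h : Linked2 N K O (s ∘ σ) (t ∘ σ) (bad ∘ σ)) : Linked2 N K O s t bad := by
  obtain ⟨S', hd, h2⟩ := h
  refine ⟨fun i => S' (σ.symm i), fun i j hij => hd _ _ (fun e => hij (σ.symm.injective e)),
    fun i => ?_⟩
  have h3 := h2 (σ.symm i)
  simp only [Function.comp, Equiv.apply_symm_apply] at h3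
  exact h3

private theorem lm_zero {N : Finset W} {K : Submodule ℝ W} {O : Finset W} {m : ℕ}
    {s t : Fin (m + 1) → W} {bad : Fin (m + 1) → Prop} {n : ℕ} (hst : State N K O s t bad)
    (hn : DimGe N K n) (hc : O.card + m ≤ n) (hb : ¬ bad 0) : Linked2 N K O s t bad := by
  have hpos : 0 < O.card := Finset.card_pos.2 ⟨_, hst.smem 0⟩
  obtain ⟨n', rfl⟩ : ∃ n', n = n' + 1 := ⟨n - 1, by omega⟩
  have hX : (O.erase (s 0)).card = O.card - 1 := Finset.card_erase_of_mem (hst.smem 0)
  refine lm_step hst hn ∅ (fun h => absurd h hb) (fun _ => rfl)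
    (Finset.empty_subset _) ?_ ?_ ?_
  · intro v hv
    exact absurd hv (Finset.notMem_empty v)
  · rw [hX, Finset.card_empty]
    omega
  · intro N' K' O' s' t' bad' h1 h2 h3
    rw [hX, Finset.card_empty] at h3
    exact lm m N' K' O' s' t' bad' n' h1 h2 (Or.inr (by omega))

theorem lm1 {N : Finset W} {K : Submodule ℝ W} {O : Finset W} {m : ℕ} {s t : Fin (m + 1) → W}
    {bad : Fin (m + 1) → Prop} {n : ℕ} (hst : State N K O s t bad) (hn : DimGe N K n)
    (hc : O.card + m ≤ n) (hb : ∃ j, ¬ bad j) : Linked2 N K O s t bad := by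
  obtain ⟨j, hj⟩ := hb
  refine link2_perm (Equiv.swap 0 j) (lm_zero ?_ hn hc ?_)
  · exact ⟨hst.poly, hst.sub, fun i => hst.smem _, fun i => hst.tmem _,
      fun i k h => (Equiv.swap 0 j).injective (hst.sinj _ _ h),
      fun i k h => (Equiv.swap 0 j).injective (hst.tinj _ _ h),
      fun i k => hst.st _ _, fun i h => hst.badj _ h⟩
  · simpa using hj

end Pool.Agent.LPG
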