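import Pool.Agent.LPG.Defs

/-!
# Linear independence modulo a subspace, one vector at a time (module LinOpt)

`li_option`: a family `g : Option ι → W` is independent modulo `Λ` iff `g none ∉ Λ` and
`g ∘ some` is independent modulo `ad Λ (g none)`.  Proof via finite (finsupp) combinations:
`linearIndependent_iff` or `Fintype.linearIndependent_iff` (`ι` finite): a combination of the
`g j` lies in `Λ`, with coefficient `c` of `g none`, iff the combination of the `g (some i)` lies in
`ad Λ (g none)` (`mem_ad`).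
`li_smul`: if `s ∉ Λ` and `u ∉ ad Λ s` then `α s + β u ∉ Λ` for `α`, `β > 0` (otherwise
`u ∈ ad Λ s` by `mem_ad`), and `u ∉ Λ`.
-/

set_option autoImplicit false

namespace Pool.Agent.LPG

variable {W : Type*} [AddCommGroup W] [Module ℝ W]

theorem sum_mkQ_eq_zero {ι : Type*} [Fintype ι] (Λ : Submodule ℝ W) (c : ι → ℝ) (g : ι → W) :
    ∑ i, c i • Λ.mkQ (g i) = 0 ↔ ∑ i, c i • g i ∈ Λ := by
  have h : ∑ i, c i • Λ.mkQ (g i) = Λ.mkQ (∑ i, c i • g i) := by
    rw [map_sum]
    exact Finset.sum_congr rfl (fun i _ => (map_smul _ _ _).symm)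
  rw [h, Submodule.mkQ_apply, Submodule.Quotient.mk_eq_zero]

theorem li_option {ι : Type*} [Fintype ι] (Λ : Submodule ℝ W) (g : Option ι → W) :
    LinearIndependent ℝ (fun j => Λ.mkQ (g j)) ↔
      g none ∉ Λ ∧ LinearIndependent ℝ (fun i => (ad Λ (g none)).mkQ (g (some i))) := by
  constructor
  · intro h
    refine ⟨?_, ?_⟩
    · intro h0
      apply h.ne_zero none
      rw [Submodule.mkQ_apply, Submodule.Quotient.mk_eq_zero]
      exact h0
    · rw [Fintype.linearIndependent_iff] at h ⊢
      intro c hc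
      have hc' := (sum_mkQ_eq_zero (ad Λ (g none)) c (fun i => g (some i))).1 hc
      obtain ⟨c0, hc0⟩ := mem_ad.1 hc'
      have h2 := h (fun o => Option.elim o (-c0) c) ((sum_mkQ_eq_zero Λ _ g).2 (by
        rw [Fintype.sum_option]
        simp only [Option.elim_none, Option.elim_some]
        rw [neg_smul, neg_add_eq_sub]
        exact hc0))
      intro i
      have := h2 (some i)
      simpa using this
  · rintro ⟨h0, h⟩
    rw [Fintype.linearIndependent_iff] at h ⊢
    intro c hc
    have hc' := (sum_mkQ_eq_zero Λ c g).1 hc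
    rw [Fintype.sum_option] at hc'
    have h1 : ∑ i, c (some i) • g (some i) ∈ ad Λ (g none) := by
      rw [mem_ad]
      refine ⟨-c none, ?_⟩
      rw [neg_smul, sub_neg_eq_add, add_comm]
      exact hc'
    have h2 := h (fun i => c (some i)) ((sum_mkQ_eq_zero (ad Λ (g none)) (fun i => c (some i))
      (fun i => g (some i))).2 h1)
    have h3 : ∑ i, c (some i) • g (some i) = 0 :=
      Finset.sum_eq_zero (fun i _ => by rw [h2 i, zero_smul])
    rw [h3, add_zero] at hc'
    intro o
    cases o with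
    | some i => exact h2 i
    | none =>
      by_contra hne
      apply h0
      have := Λ.smul_mem (c none)⁻¹ hc'
      rwa [smul_smul, inv_mul_cancel₀ hne, one_smul] at this

theorem li_edge {Λ : Submodule ℝ W} {s u : W} (hu : u ∉ ad Λ s) :
    u ∉ Λ ∧ ∀ α β : ℝ, 0 < α → 0 < β → α • s + β • u ∉ Λ := by
  refine ⟨fun h => hu (le_ad Λ s h), ?_⟩
  intro α β hα hβ h
  apply hu
  rw [mem_ad]
  refine ⟨-(β⁻¹ * α), ?_⟩
  have := Λ.smul_mem β⁻¹ h
  rw [smul_add, smul_smul, smul_smul, inv_mul_cancel₀ hβ.ne', one_smul, add_comm] at this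
  rw [neg_smul, sub_neg_eq_add]
  exact this

end Pool.Agent.LPG
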