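import Pool.Agent.LPG.BrConn
import Pool.Agent.LPG.BrStep

/-!
# Lifting a linkage from the vertex figure (module LinkStep)

Names: `s₀ = s 0` the centre, `t₀ = t 0`; the other pairs are `s i.succ`, `t i.succ`.  `S`, `e` is the
routing of `t₀` (index `none`), `s i.succ` (index `some (inl i)`), `t i.succ` (index `some (inr i)`),
`u = e none`, `N' = nb N K s₀`, `K' = ad K s₀`, `Λ' = ad (ad Λ s₀) u`, and `S'` is the linkage of the ends in
the vertex figure modulo `Λ'`.  Define `T 0 = {s₀} ∪ S none` and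
`T i.succ = S (some (inl i)) ∪ S (some (inr i)) ∪ {v ∈ N | ∃ a b ∈ S' i, Step N' K' Λ' a b ∧ Br N K s₀ a b v}`
(`Finset.filter` with classical decidability).

Connected: `s₀` is joined to `u` by a step (`hu`), and `u` to all of `S none` (all elements of `S none` are
joined to `t₀`, and steps are symmetric, `step_symm`).  For `i`: from `s i.succ` to `e (some (inl i))` in
`S (some (inl i))`; every `v ∈ S' i` is reached from `e (some (inl i))` by steps `a b` of the vertex figure
in `S' i`, and each such step is replaced by the walk of `br_conn` from `a` to `b` (`br_left`,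
`br_right`) in the branch of `a b`, whose edges are steps by `br_step` (with `K ≤ Λ`, `ad Λ s₀ ≤ Λ'`) and
whose vertices are in `T i.succ`; a vertex `v` of a branch of `a b` is reached from `a` in the same way; so
`e (some (inr i)) ∈ S' i` is reached, and from it all of `S (some (inr i))`, in particular `t i.succ`.

Disjoint: (1) `S x` for different `x`: hypothesis.  (2) `s₀ ∉ S x` (`v ≠ s₀` for `v ∈ S x`) and
`Br` excludes `s₀`.  (3) `v ∈ S none`, `Br N K s₀ a b v` with `Step N' K' Λ' a b`: the hypothesis gives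
`e none = a` or `= b`, but `a, b ∉ Λ'` and `u = e none ∈ Λ'` (`self_mem_ad`).  (4) `v ∈ S x` with
`x = some (inl i)` or `some (inr i)`, and `Br N K s₀ a b v` with `a, b ∈ S' j`, `j ≠ i`: `e x = a` or `b`, so
`e x ∈ S' i ∩ S' j`, contradiction.  (5) `Br N K s₀ a b v`, `Br N K s₀ a' b' v`, `a, b ∈ S' i`, `a', b' ∈ S' j`,
`i ≠ j`: if `v ∉ nb` then `br_uniq` gives `{a', b'} = {a, b}`; if `v ∈ nb` then `br_nb` gives
`v ∈ {a, b} ∩ {a', b'}`; contradiction to `Disjoint (S' i) (S' j)`.
-/

set_option autoImplicit false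

namespace Pool.Agent.LPG

variable {W : Type*} [AddCommGroup W] [Module ℝ W] {N : Finset W} {K : Submodule ℝ W}

/-- Steps inside a finite set. -/
private def lsR (N : Finset W) (K Λ : Submodule ℝ W) (X : Finset W) (p q : W) : Prop :=
  Step N K Λ p q ∧ p ∈ X ∧ q ∈ X

private theorem ls_symm {Λ : Submodule ℝ W} {X : Finset W} {p q : W}
    (h : Relation.ReflTransGen (lsR N K Λ X) p q) : Relation.ReflTransGen (lsR N K Λ X) q p := by
  induction h with
  | refl => exact Relation.ReflTransGen.refl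
  | tail _ h2 ih => exact Relation.ReflTransGen.head ⟨step_symm h2.1, h2.2.2, h2.2.1⟩ ih

private theorem ls_mono {Λ : Submodule ℝ W} {X Y : Finset W} (hXY : X ⊆ Y) {p q : W}
    (h : Relation.ReflTransGen (lsR N K Λ X) p q) : Relation.ReflTransGen (lsR N K Λ Y) p q :=
  Relation.ReflTransGen.mono (fun _ _ h => ⟨h.1, hXY h.2.1, hXY h.2.2⟩) _ _ h

open Classical in
/-- The union of the branches of the edges of the linkage. -/
private noncomputable def lsB (N : Finset W) (K Λ' : Submodule ℝ W) (s : W) (X : Finset W) :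
    Finset W :=
  N.filter (fun v => ∃ a b, a ∈ X ∧ b ∈ X ∧ Step (nb N K s) (ad K s) Λ' a b ∧ Br N K s a b v)

private theorem ls_mem {Λ' : Submodule ℝ W} {s : W} {X : Finset W} {v : W} :
    v ∈ lsB N K Λ' s X ↔
      ∃ a b, a ∈ X ∧ b ∈ X ∧ Step (nb N K s) (ad K s) Λ' a b ∧ Br N K s a b v := by
  classical
  unfold lsB
  rw [Finset.mem_filter]
  constructor
  · exact fun h => h.2
  · rintro ⟨a, b, ha, hb, hab, hv⟩
    exact ⟨hv.1, a, b, ha, hb, hab, hv⟩

private theorem ls_branch (h : Poly N K) {s : W} (hs : s ∈ N) {Λ Λ' : Submodule ℝ W} (hK : K ≤ Λ)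
    (hΛ : ad Λ s ≤ Λ') {X : Finset W} {a b v w : W} (ha : a ∈ X) (hb : b ∈ X)
    (hab : Step (nb N K s) (ad K s) Λ' a b) (hv : Br N K s a b v) (hw : Br N K s a b w) :
    Relation.ReflTransGen (lsR N K Λ (lsB N K Λ' s X)) v w := by
  refine Relation.ReflTransGen.mono ?_ _ _ (br_conn h hs hab.1 hv hw)
  rintro p q ⟨hpq, hp, hq⟩
  exact ⟨br_step h hs hK hΛ hab hp hq hpq, ls_mem.2 ⟨a, b, ha, hb, hab, hp⟩,
    ls_mem.2 ⟨a, b, ha, hb, hab, hq⟩⟩

private theorem ls_walk (h : Poly N K) {s : W} (hs : s ∈ N) {Λ Λ' : Submodule ℝ W} (hK : K ≤ Λ)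
    (hΛ : ad Λ s ≤ Λ') {X : Finset W} {v w : W}
    (hvw : Relation.ReflTransGen
      (fun p q => Step (nb N K s) (ad K s) Λ' p q ∧ p ∈ X ∧ q ∈ X) v w) :
    Relation.ReflTransGen (lsR N K Λ (lsB N K Λ' s X)) v w := by
  induction hvw with
  | refl => exact Relation.ReflTransGen.refl
  | tail _ h2 ih =>
    exact ih.trans (ls_branch h hs hK hΛ h2.2.1 h2.2.2 h2.1 (br_left h2.1.1) (br_right h2.1.1))

private theorem ls_BB (h : Poly N K) {s : W} (hs : s ∈ N) {Λ' : Submodule ℝ W} {X Y : Finset W}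
    (hXY : Disjoint X Y) : Disjoint (lsB N K Λ' s X) (lsB N K Λ' s Y) := by
  rw [Finset.disjoint_left]
  intro v hvX hvY
  obtain ⟨a, b, ha, hb, hab, hv⟩ := ls_mem.1 hvX
  obtain ⟨a', b', ha', hb', hab', hv'⟩ := ls_mem.1 hvY
  rw [Finset.disjoint_left] at hXY
  by_cases hn : v ∈ nb N K s
  · rcases br_nb h hs hab.1 hn hv with h1 | h1 <;> rcases br_nb h hs hab'.1 hn hv' with h2 | h2
    · exact hXY ha (by rw [← h1, h2]; exact ha')
    · exact hXY ha (by rw [← h1, h2]; exact hb')
    · exact hXY hb (by rw [← h1, h2]; exact ha')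
    · exact hXY hb (by rw [← h1, h2]; exact hb')
  · rcases br_uniq h hs hab.1 hab'.1 hv hv' hn with h1 | h1
    · exact hXY ha (by rw [← h1.1]; exact ha')
    · exact hXY hb (by rw [← h1.1]; exact ha')

theorem link_step (h : Poly N K) {Λ : Submodule ℝ W} (hK : K ≤ Λ) {k : ℕ}
    (s t : Fin (k + 1) → W) (hs : ∀ i, s i ∈ N)
    (S : Option (Fin k ⊕ Fin k) → Finset W) (e : Option (Fin k ⊕ Fin k) → W)
    (hdisj : ∀ i j, i ≠ j → Disjoint (S i) (S j))
    (h0 : t 0 ∈ S none ∧ e none ∈ S none)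
    (h1 : ∀ i : Fin k, s i.succ ∈ S (some (Sum.inl i)) ∧
      e (some (Sum.inl i)) ∈ S (some (Sum.inl i)))
    (h2 : ∀ i : Fin k, t i.succ ∈ S (some (Sum.inr i)) ∧
      e (some (Sum.inr i)) ∈ S (some (Sum.inr i)))
    (he : ∀ x, ∀ v ∈ S x, v ∈ N ∧ v ≠ s 0 ∧ (v ∈ nb N K (s 0) → v = e x) ∧
        ∀ a b, VAdj N K (s 0) a b → Br N K (s 0) a b v → e x = a ∨ e x = b)
    (hc0 : ∀ v ∈ S none, Relation.ReflTransGen
      (fun p q => Step N K Λ p q ∧ p ∈ S none ∧ q ∈ S none) (t 0) v)
    (hc1 : ∀ i : Fin k, ∀ v ∈ S (some (Sum.inl i)), Relation.ReflTransGen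
      (fun p q => Step N K Λ p q ∧ p ∈ S (some (Sum.inl i)) ∧ q ∈ S (some (Sum.inl i)))
      (s i.succ) v)
    (hc2 : ∀ i : Fin k, ∀ v ∈ S (some (Sum.inr i)), Relation.ReflTransGen
      (fun p q => Step N K Λ p q ∧ p ∈ S (some (Sum.inr i)) ∧ q ∈ S (some (Sum.inr i)))
      (t i.succ) v)
    (hu : Step N K Λ (s 0) (e none))
    (hL : Linked (nb N K (s 0)) (ad K (s 0)) (ad (ad Λ (s 0)) (e none))
      (fun i => e (some (Sum.inl i))) (fun i => e (some (Sum.inr i)))) :
    Linked N K Λ s t := by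
  classical
  obtain ⟨S', hS'd, hS'⟩ := hL
  have hΛ : ad Λ (s 0) ≤ ad (ad Λ (s 0)) (e none) := le_ad _ _
  set Λ' := ad (ad Λ (s 0)) (e none) with hΛ'
  set B : Fin k → Finset W := fun i => lsB N K Λ' (s 0) (S' i) with hB
  set T : Fin (k + 1) → Finset W := Fin.cons (insert (s 0) (S none))
    (fun i => S (some (Sum.inl i)) ∪ S (some (Sum.inr i)) ∪ B i) with hT
  have hT0 : T 0 = insert (s 0) (S none) := rfl
  have hTs : ∀ i : Fin k, T i.succ = S (some (Sum.inl i)) ∪ S (some (Sum.inr i)) ∪ B i :=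
    fun i => rfl
  -- a terminal path against a branch union
  have hSB : ∀ x (i : Fin k) (v : W), v ∈ S x → v ∈ B i → e x ∈ S' i ∧ e x ∉ Λ' := by
    intro x i v hv hvB
    obtain ⟨a, b, ha, hb, hab, hbr⟩ := ls_mem.1 hvB
    rcases (he x v hv).2.2.2 a b hab.1 hbr with h3 | h3
    · rw [h3]
      exact ⟨ha, hab.2.1⟩
    · rw [h3]
      exact ⟨hb, hab.2.2.1⟩
  have hsB : ∀ i : Fin k, s 0 ∉ B i := by
    intro i hi
    obtain ⟨a, b, _, _, _, hbr⟩ := ls_mem.1 hi
    exact hbr.2.1 rfl
  have hd0 : ∀ i : Fin k, Disjoint (T 0) (T i.succ) := by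
    intro i
    rw [Finset.disjoint_left, hT0, hTs]
    intro v hv hv'
    rw [Finset.mem_insert] at hv
    rw [Finset.mem_union, Finset.mem_union] at hv'
    rcases hv with rfl | hv
    · rcases hv' with (hv' | hv') | hv'
      · exact (he _ _ hv').2.1 rfl
      · exact (he _ _ hv').2.1 rfl
      · exact hsB i hv'
    · rcases hv' with (hv' | hv') | hv'
      · exact Finset.disjoint_left.1 (hdisj none (some (Sum.inl i)) (by simp)) hv hv'
      · exact Finset.disjoint_left.1 (hdisj none (some (Sum.inr i)) (by simp)) hv hv'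
      · exact (hSB none i v hv hv').2 (self_mem_ad _ _)
  have hd1 : ∀ i j : Fin k, i ≠ j → Disjoint (T i.succ) (T j.succ) := by
    intro i j hij
    rw [Finset.disjoint_left, hTs, hTs]
    intro v hv hv'
    rw [Finset.mem_union, Finset.mem_union] at hv hv'
    have hSS : ∀ l : Fin k, e (some (Sum.inl l)) ∈ S' l ∧ e (some (Sum.inr l)) ∈ S' l :=
      fun l => ⟨(hS' l).1, (hS' l).2.1⟩
    have hdd := Finset.disjoint_left.1 (hS'd i j hij)
    rcases hv with (hv | hv) | hv <;> rcases hv' with (hv' | hv') | hv'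
    · exact Finset.disjoint_left.1
        (hdisj (some (Sum.inl i)) (some (Sum.inl j)) (by simpa using hij)) hv hv'
    · exact Finset.disjoint_left.1 (hdisj (some (Sum.inl i)) (some (Sum.inr j)) (by simp)) hv hv'
    · exact hdd (hSS i).1 (hSB _ j v hv hv').1
    · exact Finset.disjoint_left.1 (hdisj (some (Sum.inr i)) (some (Sum.inl j)) (by simp)) hv hv'
    · exact Finset.disjoint_left.1
        (hdisj (some (Sum.inr i)) (some (Sum.inr j)) (by simpa using hij)) hv hv'
    · exact hdd (hSS i).2 (hSB _ j v hv hv').1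
    · exact hdd (hSB _ i v hv' hv).1 (hSS j).1
    · exact hdd (hSB _ i v hv' hv).1 (hSS j).2
    · exact Finset.disjoint_left.1 (ls_BB h (hs 0) (hS'd i j hij)) hv hv'
  refine ⟨T, ?_, ?_⟩
  · intro i j
    refine Fin.cases ?_ (fun i' => ?_) i <;> refine Fin.cases ?_ (fun j' => ?_) j
    · intro h3
      exact absurd rfl h3
    · intro _
      exact hd0 j'
    · intro _
      exact (hd0 i').symm
    · intro h3
      exact hd1 i' j' (fun h4 => h3 (by rw [h4]))
  · intro i
    refine Fin.cases ?_ (fun i' => ?_) i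
    · have hsub : S none ⊆ T 0 := by
        rw [hT0]
        exact Finset.subset_insert _ _
      have hs0 : s 0 ∈ T 0 := by
        rw [hT0]
        exact Finset.mem_insert_self _ _
      refine ⟨hs0, hsub h0.1, fun v hv => ?_⟩
      rw [hT0, Finset.mem_insert] at hv
      rcases hv with rfl | hv
      · exact Relation.ReflTransGen.refl
      · have p1 : Relation.ReflTransGen (lsR N K Λ (T 0)) (t 0) v := ls_mono hsub (hc0 v hv)
        have p2 : Relation.ReflTransGen (lsR N K Λ (T 0)) (e none) (t 0) :=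
          ls_symm (ls_mono hsub (hc0 _ h0.2))
        have p3 : lsR N K Λ (T 0) (s 0) (e none) := ⟨hu, hs0, hsub h0.2⟩
        exact Relation.ReflTransGen.head p3 (p2.trans p1)
    · have hsubl : S (some (Sum.inl i')) ⊆ T i'.succ := by
        rw [hTs]
        exact Finset.subset_union_left.trans Finset.subset_union_left
      have hsubr : S (some (Sum.inr i')) ⊆ T i'.succ := by
        rw [hTs]
        exact Finset.subset_union_right.trans Finset.subset_union_left
      have hsubB : B i' ⊆ T i'.succ := by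
        rw [hTs]
        exact Finset.subset_union_right
      refine ⟨hsubl (h1 i').1, hsubr (h2 i').1, fun v hv => ?_⟩
      have p1 : Relation.ReflTransGen (lsR N K Λ (T i'.succ)) (s i'.succ)
          (e (some (Sum.inl i'))) := ls_mono hsubl (hc1 i' _ (h1 i').2)
      have p2 : ∀ w ∈ S' i', Relation.ReflTransGen (lsR N K Λ (T i'.succ))
          (e (some (Sum.inl i'))) w := fun w hw =>
        ls_mono hsubB (ls_walk h (hs 0) hK hΛ ((hS' i').2.2 w hw))
      rw [hTs, Finset.mem_union, Finset.mem_union] at hv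
      rcases hv with (hv | hv) | hv
      · exact ls_mono hsubl (hc1 i' v hv)
      · have p3 := p2 _ (hS' i').2.1
        have p4 : Relation.ReflTransGen (lsR N K Λ (T i'.succ)) (e (some (Sum.inr i')))
            (t i'.succ) := ls_symm (ls_mono hsubr (hc2 i' _ (h2 i').2))
        have p5 : Relation.ReflTransGen (lsR N K Λ (T i'.succ)) (t i'.succ) v :=
          ls_mono hsubr (hc2 i' v hv)
        exact ((p1.trans p3).trans p4).trans p5
      · obtain ⟨a, b, ha, hb, hab, hbr⟩ := ls_mem.1 hv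
        have p3 := p2 a ha
        have p4 : Relation.ReflTransGen (lsR N K Λ (T i'.succ)) a v :=
          ls_mono hsubB (ls_branch h (hs 0) hK hΛ ha hb hab (br_left hab.1) hbr)
        exact (p1.trans p3).trans p4

end Pool.Agent.LPG
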