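import Pool.Agent.LPG.Routing
import Pool.Agent.LPG.LinkStep
import Pool.Agent.LPG.LinOpt

/-!
# Theorem I in homogeneous form (module Link)

Induction on `k`, for all `N`, `K`, `Λ`.  `k = 0`: trivial.  Step: centre `s 0`; reindex the family of the
`2k + 2` terminals by `Option (Option (Fin k ⊕ Fin k))` (`none` for `s 0`, `some none` for `t 0`): by
`li_option` `s 0 ∉ Λ` and the family `x` of the others (index `Option (Fin k ⊕ Fin k)`) is independent
modulo `ad Λ (s 0)`; in particular all are `≠ s 0` (`self_mem_ad`, `LinearIndependent.ne_zero`).  Apply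
`routing`.  By `li_option` (for `ad Λ (s 0)` and `e`): `u = e none ∉ ad Λ (s 0)`, and the other ends are
independent modulo `Λ' = ad (ad Λ (s 0)) u`.  `Step N K Λ (s 0) u`: adjacent since `u ∈ nb`, the rest by
`li_edge`.  Apply the induction hypothesis to `(nb N K (s 0), ad K (s 0))` (`poly_nb`) and `Λ'`
(`ad K (s 0) ≤ Λ'` since `K ≤ Λ`), and `link_step`.
-/

set_option autoImplicit false

namespace Pool.Agent.LPG

variable {W : Type*} [AddCommGroup W] [Module ℝ W]

private def Link_g {k : ℕ} (s t : Fin (k + 1) → W) : Option (Option (Fin k ⊕ Fin k)) → W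
  | none => s 0
  | some none => t 0
  | some (some (Sum.inl i)) => s i.succ
  | some (some (Sum.inr i)) => t i.succ

private def Link_σ {k : ℕ} : Option (Option (Fin k ⊕ Fin k)) → Fin (k + 1) ⊕ Fin (k + 1)
  | none => Sum.inl 0
  | some none => Sum.inr 0
  | some (some (Sum.inl i)) => Sum.inl i.succ
  | some (some (Sum.inr i)) => Sum.inr i.succ

private theorem Link_inj {k : ℕ} : Function.Injective (Link_σ (k := k)) := by
  intro a b hab
  match a, b with
  | none, none => rfl
  | none, some none => exact absurd hab (by simp [Link_σ])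
  | none, some (some (Sum.inl i)) => exact absurd (Sum.inl_injective hab) (Fin.succ_ne_zero i).symm
  | none, some (some (Sum.inr i)) => exact absurd hab (by simp [Link_σ])
  | some none, none => exact absurd hab (by simp [Link_σ])
  | some none, some none => rfl
  | some none, some (some (Sum.inl i)) => exact absurd hab (by simp [Link_σ])
  | some none, some (some (Sum.inr i)) => exact absurd (Sum.inr_injective hab) (Fin.succ_ne_zero i).symm
  | some (some (Sum.inl i)), none => exact absurd (Sum.inl_injective hab) (Fin.succ_ne_zero i)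
  | some (some (Sum.inl i)), some none => exact absurd hab (by simp [Link_σ])
  | some (some (Sum.inl i)), some (some (Sum.inl j)) =>
    rw [Fin.succ_injective _ (Sum.inl_injective hab)]
  | some (some (Sum.inl i)), some (some (Sum.inr j)) => exact absurd hab (by simp [Link_σ])
  | some (some (Sum.inr i)), none => exact absurd hab (by simp [Link_σ])
  | some (some (Sum.inr i)), some none => exact absurd (Sum.inr_injective hab) (Fin.succ_ne_zero i)
  | some (some (Sum.inr i)), some (some (Sum.inl j)) => exact absurd hab (by simp [Link_σ])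
  | some (some (Sum.inr i)), some (some (Sum.inr j)) =>
    rw [Fin.succ_injective _ (Sum.inr_injective hab)]

theorem link : ∀ (k : ℕ) (N : Finset W) (K Λ : Submodule ℝ W) (s t : Fin k → W), Poly N K →
    K ≤ Λ → (∀ i, s i ∈ N ∧ t i ∈ N) →
    LinearIndependent ℝ (fun j : Fin k ⊕ Fin k => Λ.mkQ (Sum.elim s t j)) →
    Linked N K Λ s t := by
  intro k
  induction k with
  | zero =>
    intro N K Λ s t _ _ _ _
    exact ⟨fun i => i.elim0, fun i => i.elim0, fun i => i.elim0⟩
  | succ k ih =>
    intro N K Λ s t h hK hst hli
    have hg : LinearIndependent ℝ (fun j => Λ.mkQ (Link_g s t j)) := by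
      have h1 := hli.comp (Link_σ (k := k)) Link_inj
      refine (linearIndependent_equiv' (Equiv.refl _) ?_).1 h1
      funext j
      match j with
      | none => rfl
      | some none => rfl
      | some (some (Sum.inl i)) => rfl
      | some (some (Sum.inr i)) => rfl
    obtain ⟨hs0, hli2⟩ := (li_option Λ (Link_g s t)).1 hg
    have hs0' : s 0 ∉ Λ := hs0
    have hli2' : LinearIndependent ℝ (fun i => (ad Λ (s 0)).mkQ (Link_g s t (some i))) := hli2
    obtain ⟨S, e, hdisj, hmem, hprop, hconn, hli3⟩ := routing h (hst 0).1 hK
      (fun i => Link_g s t (some i))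
      (by
        intro i
        match i with
        | none => exact (hst 0).2
        | some (Sum.inl i) => exact (hst i.succ).1
        | some (Sum.inr i) => exact (hst i.succ).2)
      (by
        intro i hi
        have h1 := hli2'.ne_zero i
        apply h1
        rw [hi, Submodule.mkQ_apply, Submodule.Quotient.mk_eq_zero]
        exact self_mem_ad Λ (s 0))
      hli2'
    obtain ⟨hu, hli4⟩ := (li_option (ad Λ (s 0)) e).1 hli3
    have hedge := li_edge hu
    have hstep : Step N K Λ (s 0) (e none) :=
      ⟨mem_nb.1 (hmem none).2.2, hs0', hedge.1, hedge.2⟩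
    have hle : ad K (s 0) ≤ ad (ad Λ (s 0)) (e none) :=
      (sup_le_sup_right hK _).trans (le_ad _ _)
    have hli5 : LinearIndependent ℝ (fun j : Fin k ⊕ Fin k => (ad (ad Λ (s 0)) (e none)).mkQ
        (Sum.elim (fun i => e (some (Sum.inl i))) (fun i => e (some (Sum.inr i))) j)) := by
      refine (linearIndependent_equiv' (Equiv.refl _) ?_).1 hli4
      funext j
      match j with
      | Sum.inl i => rfl
      | Sum.inr i => rfl
    have hL := ih (nb N K (s 0)) (ad K (s 0)) (ad (ad Λ (s 0)) (e none))
      (fun i => e (some (Sum.inl i))) (fun i => e (some (Sum.inr i))) (poly_nb h (hst 0).1) hle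
      (fun i => ⟨(hmem (some (Sum.inl i))).2.2, (hmem (some (Sum.inr i))).2.2⟩) hli5
    exact link_step h hK s t (fun i => (hst i).1) S e hdisj
      ⟨(hmem none).1, (hmem none).2.1⟩
      (fun i => ⟨(hmem (some (Sum.inl i))).1, (hmem (some (Sum.inl i))).2.1⟩)
      (fun i => ⟨(hmem (some (Sum.inr i))).1, (hmem (some (Sum.inr i))).2.1⟩)
      hprop (hconn none) (fun i => hconn (some (Sum.inl i))) (fun i => hconn (some (Sum.inr i)))
      hstep hL

end Pool.Agent.LPG
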