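import Pool.Agent.LPG.Defs

/-!
# The two separation conditions in the induction for the matroid version of Menger (module MRHalf)

`sep_E`: suppose `(x, y)` is deleted from the arc set and `(C, F)` separates in `E.erase (x, y)`.  Then
`(insert x C, F)` and `(insert y C, F)` separate in `E`: a walk which avoids `x` (or `y`) does not use the
arc `(x, y)`.

`half1`: let `(C, F)` separate in `E.erase (x, y)` from `A`, `D = insert x C`.  Suppose that all walks
of `E.erase (x, y)` from `A` avoiding `C1` end in `F1`.  Then all walks of `E` from `A` avoiding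
`C1 ∪ (F1 ∩ D)` end in `(F1 \ D) ∩ F`.  Proof: let `a ⤳ v` be a walk of `E` avoiding `C1 ∪ (F1 ∩ D)`.
Show by induction along the walk (from the start) that every vertex `z` of it satisfies `z ∉ D` and is
reached from `a` by a walk of `E.erase (x, y)` avoiding `C1`: for the start or a new vertex `z`: it is
reached by a walk of `E.erase (x, y)` avoiding `C1` (the previous vertex is `∉ D`, so not `x`, so the arc is
not `(x, y)`), hence `z ∈ F1`; if `z ∈ D` then `z ∈ F1 ∩ D`, contradiction.  So the walk also avoids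
`D ⊇ C` and is a walk of `E.erase (x, y)`: `v ∈ F1`, `v ∉ D`, `v ∈ F`.

`half2`: suppose that all walks of `E.erase (x, y)` from `insert y C` avoiding `C2` end in `F2`, and
`(C, F)` separates in `E.erase (x, y)` from `A`.  Then all walks of `E` from `A` avoiding `C2` end in
`F2 ∪ F`.  Proof: induction along the walk: every vertex `v` of the walk is either reached from some
`z ∈ insert y C` by a walk of `E.erase (x, y)` avoiding `C2`, or reached from `a` by a walk of
`E.erase (x, y)` avoiding `C` (and avoiding `C2`).  Start: `a ∈ C` gives the first alternative (`z = a`),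
otherwise the second.  Step `v → w`: if `w ∈ insert y C` the first alternative with `z = w`
(`w ∉ C2`); otherwise `w ≠ y`, so the arc is in `E.erase (x, y)` and `w ∉ C`: extend.
-/

set_option autoImplicit false

namespace Pool.Agent.LPG

variable {V : Type*} [DecidableEq V]

private theorem mrh_tail {E : Finset (V × V)} {C : Finset V} {a u w : V} (h : Av E C a u)
    (he : (u, w) ∈ E) (hw : w ∉ C) : Av E C a w :=
  ⟨h.1, h.2.tail ⟨he, hw⟩⟩

theorem sep_x {E : Finset (V × V)} {A C F : Finset V} {x y : V}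
    (h : ∀ a ∈ A, ∀ v, Av (E.erase (x, y)) C a v → v ∈ F) :
    ∀ a ∈ A, ∀ v, Av E (insert x C) a v → v ∈ F := by
  rintro a ha v ⟨h1, h2⟩
  suffices h3 : v ∉ insert x C ∧ Av (E.erase (x, y)) C a v from h a ha v h3.2
  induction h2 with
  | refl => exact ⟨h1, fun h3 => h1 (Finset.mem_insert_of_mem h3), Relation.ReflTransGen.refl⟩
  | tail _ hs ih =>
    obtain ⟨h4, h5⟩ := ih
    refine ⟨hs.2, mrh_tail h5 (Finset.mem_erase.2 ⟨?_, hs.1⟩)
      (fun h3 => hs.2 (Finset.mem_insert_of_mem h3))⟩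
    intro h6
    exact h4 ((Prod.mk.inj h6).1 ▸ Finset.mem_insert_self _ _)

theorem sep_y {E : Finset (V × V)} {A C F : Finset V} {x y : V}
    (h : ∀ a ∈ A, ∀ v, Av (E.erase (x, y)) C a v → v ∈ F) :
    ∀ a ∈ A, ∀ v, Av E (insert y C) a v → v ∈ F := by
  rintro a ha v ⟨h1, h2⟩
  suffices h3 : Av (E.erase (x, y)) C a v from h a ha v h3
  induction h2 with
  | refl => exact ⟨fun h3 => h1 (Finset.mem_insert_of_mem h3), Relation.ReflTransGen.refl⟩
  | tail _ hs ih =>
    refine mrh_tail ih (Finset.mem_erase.2 ⟨?_, hs.1⟩)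
      (fun h3 => hs.2 (Finset.mem_insert_of_mem h3))
    intro h6
    exact hs.2 ((Prod.mk.inj h6).2 ▸ Finset.mem_insert_self _ _)

theorem half1 {E : Finset (V × V)} {A C F C1 F1 : Finset V} {x y : V}
    (h : ∀ a ∈ A, ∀ v, Av (E.erase (x, y)) C a v → v ∈ F)
    (h1 : ∀ a ∈ A, ∀ v, Av (E.erase (x, y)) C1 a v → v ∈ F1) :
    ∀ a ∈ A, ∀ v, Av E (C1 ∪ (F1 ∩ insert x C)) a v → v ∈ (F1 \ insert x C) ∩ F := by
  rintro a ha v ⟨ha1, h2⟩
  suffices h3 : v ∉ insert x C ∧ Av (E.erase (x, y)) C1 a v ∧ Av (E.erase (x, y)) C a v by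
    rw [Finset.mem_inter, Finset.mem_sdiff]
    exact ⟨⟨h1 a ha v h3.2.1, h3.1⟩, h a ha v h3.2.2⟩
  induction h2 with
  | refl =>
    rw [Finset.mem_union, Finset.mem_inter] at ha1
    push Not at ha1
    have h4 : Av (E.erase (x, y)) C1 a a := ⟨ha1.1, Relation.ReflTransGen.refl⟩
    have h5 := ha1.2 (h1 a ha a h4)
    exact ⟨h5, h4, fun h6 => h5 (Finset.mem_insert_of_mem h6), Relation.ReflTransGen.refl⟩
  | @tail u w _ hs ih =>
    obtain ⟨h4, h5, h6⟩ := ih
    obtain ⟨hs1, hs2⟩ := hs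
    rw [Finset.mem_union, Finset.mem_inter] at hs2
    push Not at hs2
    have h7 : (u, w) ∈ E.erase (x, y) :=
      Finset.mem_erase.2 ⟨fun h8 => h4 ((Prod.mk.inj h8).1 ▸ Finset.mem_insert_self _ _), hs1⟩
    have h9 := mrh_tail h5 h7 hs2.1
    have h10 := hs2.2 (h1 a ha _ h9)
    exact ⟨h10, h9, mrh_tail h6 h7 (fun h11 => h10 (Finset.mem_insert_of_mem h11))⟩

theorem half2 {E : Finset (V × V)} {A C F C2 F2 : Finset V} {x y : V}
    (h : ∀ a ∈ A, ∀ v, Av (E.erase (x, y)) C a v → v ∈ F)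
    (h2 : ∀ z ∈ insert y C, ∀ v, Av (E.erase (x, y)) C2 z v → v ∈ F2) :
    ∀ a ∈ A, ∀ v, Av E C2 a v → v ∈ F2 ∪ F := by
  rintro a ha v ⟨ha1, h3⟩
  suffices h4 : (∃ z ∈ insert y C, Av (E.erase (x, y)) C2 z v) ∨ Av (E.erase (x, y)) C a v by
    rw [Finset.mem_union]
    rcases h4 with ⟨z, hz, h4⟩ | h4
    · exact Or.inl (h2 z hz v h4)
    · exact Or.inr (h a ha v h4)
  induction h3 with
  | refl =>
    by_cases h4 : a ∈ insert y C
    · exact Or.inl ⟨a, h4, ha1, Relation.ReflTransGen.refl⟩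
    · exact Or.inr ⟨fun h5 => h4 (Finset.mem_insert_of_mem h5), Relation.ReflTransGen.refl⟩
  | @tail u w _ hs ih =>
    by_cases h4 : w ∈ insert y C
    · exact Or.inl ⟨w, h4, hs.2, Relation.ReflTransGen.refl⟩
    · have h7 : (u, w) ∈ E.erase (x, y) :=
        Finset.mem_erase.2 ⟨fun h8 => h4 ((Prod.mk.inj h8).2 ▸ Finset.mem_insert_self _ _), hs.1⟩
      rcases ih with ⟨z, hz, h5⟩ | h5
      · exact Or.inl ⟨z, hz, mrh_tail h5 h7 hs.2⟩
      · exact Or.inr (mrh_tail h5 h7 (fun h8 => h4 (Finset.mem_insert_of_mem h8)))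

end Pool.Agent.LPG
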