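import Pool.Agent.LPG.TopDefs

/-!
# Homogenisation of polytopes (module TopA)

`poly_hom`: let `v ∈ V`.  The convex hull of the finite set `V \ {v}` is compact and convex and does not
contain `v`; by the theorem of Hahn–Banach (`geometric_hahn_banach_point_closed` or similar) there are
a continuous linear functional `g` and `c` with `g v < c < g w` for `w ∈ V \ {v}`.  The
functional `(x, t) ↦ g x - g v * t` vanishes at `hom v` and is positive at `hom w`.  The second
condition of `Poly`: `(x, t) ↦ t`.  (`z ∈ ⊥` is `z = 0`.)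

`adj_hom`: a functional `F` on `Eu d × ℝ` is `F (x, t) = f x + c t` with `f x = F (x, 0)`,
`c = F (0, 1)`.  `F (hom u) = 0 = F (hom v)` gives `f u = f v = - c`, and `F (hom w) > 0` gives
`f w > f u`; use `- f`.
-/

set_option autoImplicit false

namespace Pool.Agent.LPG

variable {d : ℕ} {V : Finset (Eu d)}

theorem poly_hom (hV : ConvexPos V) : Poly (V.map (homE d)) ⊥ := by
  constructor
  · intro v' hv'
    obtain ⟨v, hv, rfl⟩ := Finset.mem_map.1 hv'
    have hfin : ((V : Set (Eu d)) \ {v}).Finite := V.finite_toSet.subset Set.sdiff_subset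
    obtain ⟨g, c, h1, h2⟩ := geometric_hahn_banach_point_closed (convex_convexHull ℝ _)
      (hfin.isClosed_convexHull ℝ) (hV v hv)
    refine ⟨(g : Eu d →ₗ[ℝ] ℝ).comp (LinearMap.fst ℝ (Eu d) ℝ) - (g v) • LinearMap.snd ℝ (Eu d) ℝ, ?_, ?_, ?_⟩
    · intro z hz
      rw [(Submodule.mem_bot ℝ).1 hz, map_zero]
    · simp [homE, hom]
    · intro w' hw' hne
      obtain ⟨w, hw, rfl⟩ := Finset.mem_map.1 hw'
      have hwv : w ≠ v := fun h => hne (by rw [h])
      have h3 := h2 w (subset_convexHull ℝ _ ⟨hw, hwv⟩)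
      simp only [homE, hom, Function.Embedding.coeFn_mk, LinearMap.sub_apply, LinearMap.comp_apply,
        LinearMap.fst_apply, LinearMap.smul_apply, LinearMap.snd_apply, smul_eq_mul, mul_one,
        ContinuousLinearMap.coe_coe]
      linarith
  · refine ⟨LinearMap.snd ℝ (Eu d) ℝ, ?_, ?_⟩
    · intro z hz
      rw [(Submodule.mem_bot ℝ).1 hz, map_zero]
    · intro w' hw'
      obtain ⟨w, hw, rfl⟩ := Finset.mem_map.1 hw'
      simp [homE, hom]

theorem adj_hom {u v : Eu d} (h : Adj (V.map (homE d)) ⊥ (hom u) (hom v)) : IsEdge V u v := by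
  obtain ⟨_, _, huv, F, _, hFu, hFv, hF⟩ := h
  have key : ∀ x : Eu d, F (hom x) = F (x, 0) + F (0, 1) := by
    intro x
    rw [← map_add]
    simp [hom]
  refine ⟨fun h => huv (by rw [h]), -(F.comp (LinearMap.inl ℝ (Eu d) ℝ)), ?_, ?_⟩
  · simp only [LinearMap.neg_apply, LinearMap.comp_apply, LinearMap.inl_apply]
    have h1 := key u
    have h2 := key v
    linarith
  · intro w hw hwu hwv
    have h3 := hF (hom w) (Finset.mem_map.2 ⟨w, hw, rfl⟩) (fun h => hwu (hom_inj h)) (fun h => hwv (hom_inj h))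
    simp only [LinearMap.neg_apply, LinearMap.comp_apply, LinearMap.inl_apply]
    have h1 := key u
    have h2 := key w
    linarith

end Pool.Agent.LPG
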