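import Pool.Agent.LPG.TopDefs

/-!
# Flats and linear subspaces in homogeneous coordinates (module TopB)

`mem_lin`: `hom x ∈ span (hom '' A)` iff `x ∈ affineSpan ℝ A`.  `→`: if
`(x, 1) = ∑ c_i (a_i, 1)` (finite combination, `Submodule.span` induction or
`Finsupp.mem_span_image_iff_linearCombination`), then `∑ c_i = 1` and `x` is an affine combination of the
`a_i` (`affineCombination_mem_affineSpan`).  An alternative without sums: show by span induction that every
`(y, τ)` in the span satisfies: `τ = 0` and `y ∈ (affineSpan ℝ A).direction`, or `τ ≠ 0` and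
`τ⁻¹ • y ∈ affineSpan ℝ A`; or: fix `a ∈ A` (if `A` is empty, the span is `⊥` and `hom x ≠ 0`), and show that
`y - τ • a ∈ (affineSpan ℝ A).direction = vectorSpan ℝ A` for all `(y, τ)` in the span.
`←`: `affineSpan` induction or: `x - a ∈ vectorSpan ℝ A` is a combination of differences
`a' - a''`, and `hom x = hom a + (x - a, 0)`.

`seg_lin`: a point of `segment ℝ u v` in `affineSpan ℝ A` is `α u + β v`, `α, β ≥ 0`, `α + β = 1`; by
`mem_lin` `α • hom u + β • hom v = hom (α • u + β • v) ∈ lin A`; if `α = 0` this is `hom v`, if `β = 0` it is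
`hom u`, otherwise `α, β > 0`: contradiction in all cases.

`indep_lin`: if the family is not independent modulo `lin A` then there are a `j` and coefficients with
`hom (T j) ∈ lin A + span {hom (T i) | i ≠ j} = lin (A ∪ T '' {i | i ≠ j})` (`Submodule.span_union`,
`Set.image_union`; `linearIndependent_iff_notMem_span` for the quotient family), so
`T j ∈ affineSpan ℝ (A ∪ T '' {i | i ≠ j})` by `mem_lin`.
-/

set_option autoImplicit false

namespace Pool.Agent.LPG

variable {d : ℕ}

theorem mem_lin (A : Set (Eu d)) (x : Eu d) : hom x ∈ lin A ↔ x ∈ affineSpan ℝ A := by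
  constructor
  · intro h
    rcases A.eq_empty_or_nonempty with rfl | ⟨a, ha⟩
    · exfalso
      simp only [lin, Set.image_empty, Submodule.span_empty, Submodule.mem_bot] at h
      have h2 := congrArg Prod.snd h
      exact one_ne_zero h2
    · have key : ∀ p : Eu d × ℝ, p ∈ lin A → p.1 - p.2 • a ∈ vectorSpan ℝ A := by
        intro p hp
        induction hp using Submodule.span_induction with
        | mem p hp =>
          obtain ⟨y, hy, rfl⟩ := hp
          have h1 := vsub_mem_vectorSpan ℝ hy ha
          simpa [hom] using h1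
        | zero => simp
        | add p q _ _ hp hq =>
          have := Submodule.add_mem _ hp hq
          have e : (p + q).1 - (p + q).2 • a = (p.1 - p.2 • a) + (q.1 - q.2 • a) := by
            rw [Prod.fst_add, Prod.snd_add, add_smul]; abel
          rw [e]; exact this
        | smul c p _ hp =>
          have := Submodule.smul_mem _ c hp
          have e : (c • p).1 - (c • p).2 • a = c • (p.1 - p.2 • a) := by
            rw [Prod.smul_fst, Prod.smul_snd, smul_sub, smul_eq_mul, mul_smul]
          rw [e]; exact this
      have h1 := key _ h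
      have h2 : x - a ∈ vectorSpan ℝ A := by simpa [hom] using h1
      have h3 := vadd_mem_affineSpan_of_mem_affineSpan_of_mem_vectorSpan
        (mem_affineSpan ℝ ha) h2
      simpa using h3
  · intro h
    refine affineSpan_induction (p := fun y => hom y ∈ lin A) h
      (fun y hy => Submodule.subset_span ⟨y, hy, rfl⟩) ?_
    · intro c u v w hu hv hw
      have e : (hom (c • (u -ᵥ v) +ᵥ w) : Eu d × ℝ) = c • (hom u - hom v) + hom w := by
        unfold hom
        ext <;> simp
      rw [e]
      exact Submodule.add_mem _ (Submodule.smul_mem _ _ (Submodule.sub_mem _ hu hv)) hw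

theorem seg_lin (A : Set (Eu d)) {u v : Eu d} (hu : hom u ∉ lin A) (hv : hom v ∉ lin A)
    (h : ∀ α β : ℝ, 0 < α → 0 < β → α • hom u + β • hom v ∉ lin A) :
    Disjoint (segment ℝ u v) (affineSpan ℝ A : Set (Eu d)) := by
  rw [Set.disjoint_left]
  rintro p ⟨α, β, hα, hβ, hab, rfl⟩ hp
  have h1 : hom (α • u + β • v) ∈ lin A := (mem_lin A _).2 hp
  have e : (hom (α • u + β • v) : Eu d × ℝ) = α • hom u + β • hom v := by
    unfold hom
    rw [Prod.smul_mk, Prod.smul_mk, Prod.mk_add_mk, smul_eq_mul, smul_eq_mul, mul_one, mul_one, hab]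
  rw [e] at h1
  rcases hα.eq_or_lt with h0 | h0
  · subst h0
    rw [zero_add] at hab
    rw [hab, zero_smul, zero_add, one_smul] at h1
    exact hv h1
  · rcases hβ.eq_or_lt with h2 | h2
    · subst h2
      rw [add_zero] at hab
      rw [hab, zero_smul, add_zero, one_smul] at h1
      exact hu h1
    · exact h α β h0 h2 h1

theorem indep_lin {ι : Type*} [Fintype ι] (A : Set (Eu d)) (T : ι → Eu d)
    (hT : ∀ j, T j ∉ affineSpan ℝ (A ∪ T '' {i | i ≠ j})) :
    LinearIndependent ℝ (fun j => (lin A).mkQ (hom (T j))) := by
  rw [linearIndependent_iff_notMem_span]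
  intro j hj
  apply hT j
  rw [← mem_lin]
  have e1 : (fun j => (lin A).mkQ (hom (T j))) '' (Set.univ \ {j}) =
      (lin A).mkQ '' (hom '' (T '' {i | i ≠ j})) := by
    rw [Set.image_image, Set.image_image]
    congr 1
    ext i
    simp
  rw [e1, ← Submodule.map_span] at hj
  have h2 : hom (T j) ∈ Submodule.comap (lin A).mkQ
      (Submodule.map (lin A).mkQ (Submodule.span ℝ (hom '' (T '' {i | i ≠ j})))) := hj
  rw [Submodule.comap_map_mkQ] at h2
  unfold lin at h2 ⊢
  rwa [← Submodule.span_union, ← Set.image_union] at h2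

end Pool.Agent.LPG
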