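import Pool.Agent.LPG.Link
import Pool.Agent.LPG.TopA
import Pool.Agent.LPG.TopB

/-!
# Theorem I for polytopes in Euclidean space (module Main)

Apply `link` to `N = V.map (homE d)`, `K = ⊥`, `Λ = lin A` and `hom (s i)`, `hom (t i)`
(`poly_hom`, `indep_lin`).  It gives disjoint finite sets `S i ⊆ Eu d × ℝ`; all elements of `S i` are of the
form `hom v`, `v ∈ V` (they are equal to `hom (s i)` or an end of a step).  In the graph `polyGraph V` let
`U i` be the set of the `v : V` with `hom v ∈ S i`.  A step `hom u → hom v` in `S i` gives `IsEdge V u v`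
(`adj_hom`) and a segment disjoint from `affineSpan ℝ A` (`seg_lin`).  By induction along
`Relation.ReflTransGen` there is a walk in `polyGraph V` from `s i` to `t i` with support in `U i` all of
whose edges are disjoint from the flat; `SimpleGraph.Walk.bypass` (`toPath`) makes it a path
(`support_bypass_subset`, `edges_bypass_subset`).
-/

set_option autoImplicit false

namespace Pool.Agent.LPG

/-- walks in the graph from reachability along steps inside `S` -/
theorem walk_of_steps {d : ℕ} (V : Finset (Eu d)) (A : Set (Eu d)) (S : Finset (Eu d × ℝ)) (a : V)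
    (ha : hom (a : Eu d) ∈ S) (w : Eu d × ℝ)
    (h : Relation.ReflTransGen (fun p q => Step (V.map (homE d)) ⊥ (lin A) p q ∧ p ∈ S ∧ q ∈ S)
      (hom (a : Eu d)) w) :
    ∃ b : V, hom (b : Eu d) = w ∧ ∃ p : (polyGraph V).Walk a b,
      (∀ v ∈ p.support, hom (v : Eu d) ∈ S) ∧
      ∀ u v : V, s(u, v) ∈ p.edges →
        Disjoint (segment ℝ (u : Eu d) v) (affineSpan ℝ A : Set (Eu d)) := by
  induction h with
  | refl =>
    refine ⟨a, rfl, SimpleGraph.Walk.nil, ?_, ?_⟩
    · intro v hv
      rw [SimpleGraph.Walk.support_nil, List.mem_singleton] at hv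
      rw [hv]
      exact ha
    · intro u v huv
      simp at huv
  | tail _ hstep ih =>
    rename_i b c _
    obtain ⟨b', hb', p, hp1, hp2⟩ := ih
    obtain ⟨hst, hbS, hcS⟩ := hstep
    subst hb'
    obtain ⟨hadj, hbΛ, hcΛ, hcomb⟩ := hst
    obtain ⟨c₀, hc₀, hc₁⟩ := Finset.mem_map.1 hadj.2.1
    have hc₂ : hom c₀ = c := hc₁
    subst hc₂
    have hE : (polyGraph V).Adj b' ⟨c₀, hc₀⟩ := adj_hom hadj
    have hseg : Disjoint (segment ℝ (b' : Eu d) c₀) (affineSpan ℝ A : Set (Eu d)) :=
      seg_lin A hbΛ hcΛ hcomb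
    refine ⟨⟨c₀, hc₀⟩, rfl, p.concat hE, ?_, ?_⟩
    · intro v hv
      rw [SimpleGraph.Walk.support_concat, List.mem_append] at hv
      rcases hv with hv | hv
      · exact hp1 v hv
      · rw [List.mem_singleton] at hv
        rw [hv]
        exact hcS
    · intro u v huv
      rw [SimpleGraph.Walk.edges_concat, List.concat_eq_append, List.mem_append] at huv
      rcases huv with huv | huv
      · exact hp2 u v huv
      · rw [List.mem_singleton, Sym2.eq_iff] at huv
        rcases huv with ⟨rfl, rfl⟩ | ⟨rfl, rfl⟩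
        · exact hseg
        · rw [segment_symm]
          exact hseg

theorem theoremI {d : ℕ} (V : Finset (Eu d)) (hV : ConvexPos V) (A : Set (Eu d)) {k : ℕ}
    (s t : Fin k → V)
    (hT : ∀ j : Fin k ⊕ Fin k, ((Sum.elim s t j : V) : Eu d) ∉
      affineSpan ℝ (A ∪ (fun i => ((Sum.elim s t i : V) : Eu d)) '' {i | i ≠ j})) :
    ∃ p : ∀ i, (polyGraph V).Walk (s i) (t i), (∀ i, (p i).IsPath) ∧
      (∀ i j, i ≠ j → List.Disjoint (p i).support (p j).support) ∧
      ∀ i, ∀ u v : V, s(u, v) ∈ (p i).edges →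
        Disjoint (segment ℝ (u : Eu d) v) (affineSpan ℝ A : Set (Eu d)) := by
  classical
  have hLI : LinearIndependent ℝ (fun j : Fin k ⊕ Fin k => (lin A).mkQ
      (Sum.elim (fun i => hom (s i : Eu d)) (fun i => hom (t i : Eu d)) j)) := by
    have h1 := indep_lin A (fun i : Fin k ⊕ Fin k => ((Sum.elim s t i : V) : Eu d)) hT
    have h2 : (fun j : Fin k ⊕ Fin k => (lin A).mkQ
        (Sum.elim (fun i => hom (s i : Eu d)) (fun i => hom (t i : Eu d)) j)) =
        (fun j => (lin A).mkQ (hom ((Sum.elim s t j : V) : Eu d))) := by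
      funext j
      rcases j with j | j <;> rfl
    rw [h2]
    exact h1
  obtain ⟨S, hdisj, hS⟩ := link k (V.map (homE d)) ⊥ (lin A) (fun i => hom (s i : Eu d))
    (fun i => hom (t i : Eu d)) (poly_hom hV) bot_le
    (fun i => ⟨Finset.mem_map_of_mem (homE d) (s i).2, Finset.mem_map_of_mem (homE d) (t i).2⟩) hLI
  have hw : ∀ i, ∃ p : (polyGraph V).Walk (s i) (t i),
      (∀ v ∈ p.support, hom (v : Eu d) ∈ S i) ∧
      ∀ u v : V, s(u, v) ∈ p.edges →
        Disjoint (segment ℝ (u : Eu d) v) (affineSpan ℝ A : Set (Eu d)) := by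
    intro i
    obtain ⟨h1, h2, h3⟩ := hS i
    obtain ⟨b, hb, p, hp1, hp2⟩ := walk_of_steps V A (S i) (s i) h1 _ (h3 _ h2)
    have hb' : b = t i := Subtype.ext (hom_inj hb)
    subst hb'
    exact ⟨p, hp1, hp2⟩
  choose p hp1 hp2 using hw
  refine ⟨fun i => (p i).bypass, fun i => (p i).bypass_isPath, ?_, ?_⟩
  · intro i j hij v hvi hvj
    have h1 := hp1 i v ((p i).support_bypass_subset_support hvi)
    have h2 := hp1 j v ((p j).support_bypass_subset_support hvj)
    exact Finset.disjoint_left.1 (hdisj i j hij) h1 h2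
  · intro i u v huv
    exact hp2 i u v ((p i).edges_bypass_subset_edges huv)

end Pool.Agent.LPG
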