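import Pool.Agent.LPG.Core2
import Pool.Agent.LPG.TopA
import Pool.Agent.LPG.TopB

/-!
# Linkedness of graphs of polytopes: `k(d) ≥ ⌊(d+3)/3⌋` (module Main2)

`dim_hom`: `V` spans `Eu d` affinely; if `C.card < d + 1`, then `span C` has dimension `≤ d`, so it is not
all of `Eu d × ℝ`, which is the span of `hom '' V` (`mem_lin`: for every `x`, `hom x ∈ lin V`, and the `hom x`
span everything: `(x, c) = hom (x + y) - hom y + ...`, or directly from `finrank (Eu d × ℝ) = d + 1` and
affine independence).  So some `hom v ∉ span C`.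

`link2_graph`: from `Linked2` for `N = V.map (homE d)`, `K = ⊥` to paths, as in `Main` (`adj_hom`).

`theoremII`: `3 ≤ k`, `3 k ≤ d + 3`: apply `core2` with `m + 1 = k`, `n = d + 1`, `3 m + 1 = 3 k - 2 ≤ d + 1`, `O` the set of
the `hom (s i)`, `hom (t i)`, `bad = False`.
-/

set_option autoImplicit false

namespace Pool.Agent.LPG

/-- `k`-linked graphs: any `2k` different vertices can be joined in `k` prescribed pairs by disjoint
paths. -/
def IsKLinked {V : Type*} (G : SimpleGraph V) (k : ℕ) : Prop :=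
  ∀ s t : Fin k → V, Function.Injective (Sum.elim s t) →
    ∃ p : ∀ i, G.Walk (s i) (t i), (∀ i, (p i).IsPath) ∧
      ∀ i j, i ≠ j → List.Disjoint (p i).support (p j).support

theorem dim_hom {d : ℕ} (V : Finset (Eu d)) (hd : affineSpan ℝ (V : Set (Eu d)) = ⊤) :
    DimGe (V.map (homE d)) ⊥ (d + 1) := by
  intro C hC
  by_contra hcon
  have hcon' : ∀ v ∈ V.map (homE d), v ∈ Submodule.span ℝ (C : Set (Eu d × ℝ)) := by
    intro v hv
    by_contra h
    exact hcon ⟨v, hv, by rwa [bot_sup_eq]⟩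
  have h1 : lin (V : Set (Eu d)) ≤ Submodule.span ℝ (C : Set (Eu d × ℝ)) := by
    unfold lin
    rw [Submodule.span_le]
    rintro _ ⟨x, hx, rfl⟩
    exact hcon' _ (Finset.mem_map.2 ⟨x, hx, rfl⟩)
  have h2 : ∀ x : Eu d, hom x ∈ Submodule.span ℝ (C : Set (Eu d × ℝ)) := by
    intro x
    refine h1 ((mem_lin _ x).2 ?_)
    rw [hd]
    exact AffineSubspace.mem_top ℝ (Eu d) x
  have h3 : Submodule.span ℝ (C : Set (Eu d × ℝ)) = ⊤ := by
    rw [eq_top_iff]
    rintro ⟨y, c⟩ _
    have e : ((y, c) : Eu d × ℝ) = hom y - hom 0 + c • hom 0 := by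
      unfold hom
      ext <;> simp
    rw [e]
    exact Submodule.add_mem _ (Submodule.sub_mem _ (h2 y) (h2 0)) (Submodule.smul_mem _ _ (h2 0))
  have h4 := finrank_span_finset_le_card (R := ℝ) C
  have h5 : Module.finrank ℝ (Submodule.span ℝ (C : Set (Eu d × ℝ))) = d + 1 := by
    rw [h3, finrank_top, Module.finrank_prod, finrank_euclideanSpace_fin, Module.finrank_self]
  unfold Set.finrank at h4
  omega

theorem rtg_mono2 {α : Type*} {r q : α → α → Prop} (h : ∀ a b, r a b → q a b) {a b : α}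
    (hab : Relation.ReflTransGen r a b) : Relation.ReflTransGen q a b := by
  induction hab with
  | refl => exact Relation.ReflTransGen.refl
  | tail _ hbc ih => exact ih.tail (h _ _ hbc)

/-- walks in the graph from reachability along edges inside `S` -/
theorem walk_of_adj {d : ℕ} (V : Finset (Eu d)) (S : Finset (Eu d × ℝ)) (a : V)
    (ha : hom (a : Eu d) ∈ S) (w : Eu d × ℝ)
    (h : Relation.ReflTransGen (fun p q => Adj (V.map (homE d)) ⊥ p q ∧ p ∈ S ∧ q ∈ S)
      (hom (a : Eu d)) w) :
    ∃ b : V, hom (b : Eu d) = w ∧ ∃ p : (polyGraph V).Walk a b,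
      ∀ v ∈ p.support, hom (v : Eu d) ∈ S := by
  induction h with
  | refl =>
    refine ⟨a, rfl, SimpleGraph.Walk.nil, ?_⟩
    intro v hv
    rw [SimpleGraph.Walk.support_nil, List.mem_singleton] at hv
    rw [hv]
    exact ha
  | tail _ hstep ih =>
    rename_i b c _
    obtain ⟨b', hb', p, hp1⟩ := ih
    obtain ⟨hadj, hbS, hcS⟩ := hstep
    subst hb'
    obtain ⟨c₀, hc₀, hc₁⟩ := Finset.mem_map.1 hadj.2.1
    have hc₂ : hom c₀ = c := hc₁
    subst hc₂
    have hE : (polyGraph V).Adj b' ⟨c₀, hc₀⟩ := adj_hom hadj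
    refine ⟨⟨c₀, hc₀⟩, rfl, p.concat hE, ?_⟩
    intro v hv
    rw [SimpleGraph.Walk.support_concat, List.mem_append] at hv
    rcases hv with hv | hv
    · exact hp1 v hv
    · rw [List.mem_singleton] at hv
      rw [hv]
      exact hcS

theorem link2_graph {d : ℕ} (V : Finset (Eu d)) {k : ℕ} (s t : Fin k → V)
    {O : Finset (Eu d × ℝ)} {bad : Fin k → Prop}
    (h : Linked2 (V.map (homE d)) ⊥ O (fun i => hom (s i : Eu d)) (fun i => hom (t i : Eu d))
      bad) :
    ∃ p : ∀ i, (polyGraph V).Walk (s i) (t i), (∀ i, (p i).IsPath) ∧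
      ∀ i j, i ≠ j → List.Disjoint (p i).support (p j).support := by
  classical
  obtain ⟨S, hdisj, hS⟩ := h
  have hw : ∀ i, ∃ p : (polyGraph V).Walk (s i) (t i),
      ∀ v ∈ p.support, hom (v : Eu d) ∈ S i := by
    intro i
    obtain ⟨h1, h2, _, h3⟩ := hS i
    have h4 : Relation.ReflTransGen (fun p q => Adj (V.map (homE d)) ⊥ p q ∧ p ∈ S i ∧ q ∈ S i)
        (hom (s i : Eu d)) (hom (t i : Eu d)) := by
      exact rtg_mono2 (fun a b hbc => ⟨hbc.1, hbc.2.1, hbc.2.2.1⟩) (h3 _ h2)
    obtain ⟨b, hb, p, hp1⟩ := walk_of_adj V (S i) (s i) h1 _ h4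
    have hb' : b = t i := Subtype.ext (hom_inj hb)
    subst hb'
    exact ⟨p, hp1⟩
  choose p hp1 using hw
  refine ⟨fun i => (p i).bypass, fun i => (p i).bypass_isPath, ?_⟩
  intro i j hij v hvi hvj
  have h1 := hp1 i v ((p i).support_bypass_subset_support hvi)
  have h2 := hp1 j v ((p j).support_bypass_subset_support hvj)
  exact Finset.disjoint_left.1 (hdisj i j hij) h1 h2

theorem theoremII {d : ℕ} (V : Finset (Eu d)) (hV : ConvexPos V)
    (hd : affineSpan ℝ (V : Set (Eu d)) = ⊤) {k : ℕ} (hk : 3 ≤ k) (hkd : 3 * k ≤ d + 3) :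
    IsKLinked (polyGraph V) k := by
  classical
  obtain ⟨m, rfl⟩ : ∃ m, k = m + 1 := ⟨k - 1, by omega⟩
  intro s t hst
  have hs : Function.Injective (fun i => hom (s i : Eu d)) := by
    intro i j hij
    have h1 : s i = s j := Subtype.ext (hom_inj hij)
    exact Sum.inl_injective (hst (a₁ := Sum.inl i) (a₂ := Sum.inl j) h1)
  have ht : Function.Injective (fun i => hom (t i : Eu d)) := by
    intro i j hij
    have h1 : t i = t j := Subtype.ext (hom_inj hij)
    exact Sum.inr_injective (hst (a₁ := Sum.inr i) (a₂ := Sum.inr j) h1)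
  have hne : ∀ i j, hom (s i : Eu d) ≠ hom (t j : Eu d) := by
    intro i j hij
    have h1 : s i = t j := Subtype.ext (hom_inj hij)
    exact Sum.inl_ne_inr (hst (a₁ := Sum.inl i) (a₂ := Sum.inr j) h1)
  have hO : ((Finset.univ.image (fun i => hom (s i : Eu d))) ∪
      (Finset.univ.image (fun i => hom (t i : Eu d)))).card = 2 * (m + 1) := by
    rw [Finset.card_union_of_disjoint, Finset.card_image_of_injective _ hs,
      Finset.card_image_of_injective _ ht, Finset.card_univ, Fintype.card_fin]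
    · ring
    · rw [Finset.disjoint_left]
      intro x hx hy
      obtain ⟨i, _, rfl⟩ := Finset.mem_image.1 hx
      obtain ⟨j, _, hj⟩ := Finset.mem_image.1 hy
      exact hne i j hj.symm
  have hstate : State (V.map (homE d)) ⊥ ((Finset.univ.image (fun i => hom (s i : Eu d))) ∪
      (Finset.univ.image (fun i => hom (t i : Eu d)))) (fun i => hom (s i : Eu d))
      (fun i => hom (t i : Eu d)) (fun _ => False) := by
    refine ⟨poly_hom hV, ?_, ?_, ?_, fun i j h => hs h, fun i j h => ht h, hne,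
      fun i h => h.elim⟩
    · intro x hx
      rw [Finset.mem_union] at hx
      rcases hx with hx | hx
      · obtain ⟨i, _, rfl⟩ := Finset.mem_image.1 hx
        exact Finset.mem_map_of_mem (homE d) (s i).2
      · obtain ⟨i, _, rfl⟩ := Finset.mem_image.1 hx
        exact Finset.mem_map_of_mem (homE d) (t i).2
    · intro i
      exact Finset.mem_union_left _ (Finset.mem_image_of_mem _ (Finset.mem_univ i))
    · intro i
      exact Finset.mem_union_right _ (Finset.mem_image_of_mem _ (Finset.mem_univ i))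
  exact link2_graph V s t (core2 hstate (fun _ h => h) (dim_hom V hd) (by omega) hO (by omega))

end Pool.Agent.LPG
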