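import Pool.Agent.LPG.Defs

/-!
# Linear rank functions (module RkLin)

`rkl Λ B F` is the dimension of the span of the classes modulo `Λ` of the elements of `F ∩ B`.
`isRk_rkl`: monotonicity from `Submodule.finrank_mono` (the spans of finite sets are finite dimensional),
`insert_le` from `Submodule.span_insert` / `finrank_add_le...`, submodularity from
`Submodule.finrank_sup_add_finrank_inf_eq` (the span of `(A ∪ B')` is the sup, and the span of the
intersection is contained in the inf).
`indep_of_rkl`: `k` = dimension of the span of at most `k` vectors `Λ.mkQ (e i)` with `e i ∈ B`; so all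
`e i` are in `B`, and the family is linearly independent (`linearIndependent_of_card_le_finrank_span` or
`linearIndependent_iff_card_eq_finrank_span`; first show that `Finset.univ.image e ∩ B` has `k` elements, so
`e` is injective with values in `B`).
`exists_fun`: let `U` be the span in `W ⧸ Λ` of the classes of `F ∩ B` and of `C`: dimension
`≤ rkl Λ B F + C.card < k`; so not all `Λ.mkQ (x i)` are in `U` (otherwise `k ≤ finrank U`); take a linear
functional of `W ⧸ Λ` which vanishes on `U` and is positive at that class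
(`Submodule.exists_le_ker_of_notMem` or `Submodule.exists_dual_map_eq_bot`), and compose with `Λ.mkQ`.
-/

set_option autoImplicit false

namespace Pool.Agent.LPG

variable {W : Type*} [AddCommGroup W] [Module ℝ W]

/-- The rank modulo `Λ` of the elements of `F` in `B`. -/
noncomputable def rkl [DecidableEq W] (Λ : Submodule ℝ W) (B F : Finset W) : ℕ :=
  Module.finrank ℝ (Submodule.span ℝ (Λ.mkQ '' ((F ∩ B : Finset W) : Set W)))

private theorem fd_span (Λ : Submodule ℝ W) (S : Finset W) :
    FiniteDimensional ℝ (Submodule.span ℝ (Λ.mkQ '' (S : Set W))) :=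
  FiniteDimensional.span_of_finite ℝ (S.finite_toSet.image _)

private theorem finrank_le (Λ : Submodule ℝ W) (S : Finset W) :
    Module.finrank ℝ (Submodule.span ℝ (Λ.mkQ '' (S : Set W))) ≤ S.card := by
  classical
  rw [← Finset.coe_image]
  exact (finrank_span_finset_le_card _).trans Finset.card_image_le

theorem isRk_rkl [DecidableEq W] (Λ : Submodule ℝ W) (B : Finset W) : IsRk (rkl Λ B) := by
  refine ⟨?_, ?_, ?_, ?_⟩
  · unfold rkl
    rw [Finset.empty_inter, Finset.coe_empty, Set.image_empty, Submodule.span_empty]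
    exact finrank_bot _ _
  · intro A A' h
    unfold rkl
    have := fd_span Λ (A' ∩ B)
    refine Submodule.finrank_mono (Submodule.span_mono (Set.image_mono ?_))
    exact_mod_cast Finset.inter_subset_inter_right h
  · intro v A
    unfold rkl
    have h0 := fd_span Λ (A ∩ B)
    have h0' : FiniteDimensional ℝ (Submodule.span ℝ {Λ.mkQ v}) :=
      FiniteDimensional.span_of_finite ℝ (Set.finite_singleton _)
    have h1 : Submodule.span ℝ (Λ.mkQ '' ((insert v A ∩ B : Finset W) : Set W)) ≤
        Submodule.span ℝ {Λ.mkQ v} ⊔ Submodule.span ℝ (Λ.mkQ '' ((A ∩ B : Finset W) : Set W)) := by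
      rw [Submodule.span_le]
      rintro _ ⟨w, hw, rfl⟩
      rw [Finset.mem_coe, Finset.mem_inter, Finset.mem_insert] at hw
      rcases hw with ⟨rfl | hw, hB⟩
      · exact (le_sup_left : Submodule.span ℝ {Λ.mkQ w} ≤ _) (Submodule.mem_span_singleton_self _)
      · refine (le_sup_right : Submodule.span ℝ (Λ.mkQ '' ((A ∩ B : Finset W) : Set W)) ≤ _) ?_
        exact Submodule.subset_span ⟨w, Finset.mem_coe.2 (Finset.mem_inter.2 ⟨hw, hB⟩), rfl⟩
    have h2 := Submodule.finrank_mono h1
    have h3 := Submodule.finrank_add_le_finrank_add_finrank (Submodule.span ℝ {Λ.mkQ v})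
      (Submodule.span ℝ (Λ.mkQ '' ((A ∩ B : Finset W) : Set W)))
    have h4 : Module.finrank ℝ (Submodule.span ℝ {Λ.mkQ v}) ≤ 1 := by
      have := finrank_span_le_card (R := ℝ) ({Λ.mkQ v} : Set (W ⧸ Λ))
      simpa using this
    omega
  · intro A A'
    unfold rkl
    have h1 := fd_span Λ (A ∩ B)
    have h2 := fd_span Λ (A' ∩ B)
    have h3 := Submodule.finrank_sup_add_finrank_inf_eq
      (Submodule.span ℝ (Λ.mkQ '' ((A ∩ B : Finset W) : Set W)))
      (Submodule.span ℝ (Λ.mkQ '' ((A' ∩ B : Finset W) : Set W)))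
    have h4 : Submodule.span ℝ (Λ.mkQ '' (((A ∪ A') ∩ B : Finset W) : Set W)) =
        Submodule.span ℝ (Λ.mkQ '' ((A ∩ B : Finset W) : Set W)) ⊔
          Submodule.span ℝ (Λ.mkQ '' ((A' ∩ B : Finset W) : Set W)) := by
      rw [← Submodule.span_union, ← Set.image_union, ← Finset.coe_union, Finset.union_inter_distrib_right]
    have h5 : Submodule.span ℝ (Λ.mkQ '' (((A ∩ A') ∩ B : Finset W) : Set W)) ≤
        Submodule.span ℝ (Λ.mkQ '' ((A ∩ B : Finset W) : Set W)) ⊓
          Submodule.span ℝ (Λ.mkQ '' ((A' ∩ B : Finset W) : Set W)) := by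
      refine le_inf ?_ ?_
      · refine Submodule.span_mono (Set.image_mono ?_)
        exact_mod_cast Finset.inter_subset_inter_right Finset.inter_subset_left
      · refine Submodule.span_mono (Set.image_mono ?_)
        exact_mod_cast Finset.inter_subset_inter_right Finset.inter_subset_right
    have h6 := Submodule.finrank_mono h5
    rw [h4]
    omega

theorem indep_of_rkl [DecidableEq W] (Λ : Submodule ℝ W) (B : Finset W) {k : ℕ} (e : Fin k → W)
    (h : rkl Λ B (Finset.univ.image e) = k) :
    (∀ i, e i ∈ B) ∧ LinearIndependent ℝ (fun i => Λ.mkQ (e i)) := by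
  unfold rkl at h
  have hB : ∀ i, e i ∈ B := by
    by_contra hno
    push Not at hno
    obtain ⟨i, hi⟩ := hno
    have h1 : Finset.univ.image e ∩ B ⊆ (Finset.univ.erase i).image e := by
      intro w hw
      rw [Finset.mem_inter, Finset.mem_image] at hw
      obtain ⟨⟨j, -, rfl⟩, hj⟩ := hw
      refine Finset.mem_image_of_mem _ (Finset.mem_erase.2 ⟨?_, Finset.mem_univ _⟩)
      rintro rfl
      exact hi hj
    have h2 := finrank_le Λ (Finset.univ.image e ∩ B)
    have h3 := Finset.card_le_card h1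
    have h4 : ((Finset.univ.erase i).image e).card ≤ (Finset.univ.erase i).card :=
      Finset.card_image_le
    rw [Finset.card_erase_of_mem (Finset.mem_univ _), Finset.card_univ, Fintype.card_fin] at h4
    have h5 := i.pos
    omega
  refine ⟨hB, ?_⟩
  rw [linearIndependent_iff_card_eq_finrank_span, Fintype.card_fin]
  unfold Set.finrank
  have h1 : Set.range (fun i => Λ.mkQ (e i)) =
      Λ.mkQ '' ((Finset.univ.image e ∩ B : Finset W) : Set W) := by
    ext w
    constructor
    · rintro ⟨i, rfl⟩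
      exact ⟨e i, by
        rw [Finset.mem_coe, Finset.mem_inter]
        exact ⟨Finset.mem_image_of_mem _ (Finset.mem_univ _), hB i⟩, rfl⟩
    · rintro ⟨w, hw, rfl⟩
      rw [Finset.mem_coe, Finset.mem_inter, Finset.mem_image] at hw
      obtain ⟨⟨i, -, rfl⟩, -⟩ := hw
      exact ⟨i, rfl⟩
  rw [h1]
  exact h.symm

theorem exists_fun [DecidableEq W] {ι : Type*} [Fintype ι] (Λ : Submodule ℝ W) (B : Finset W)
    (x : ι → W) (hx : LinearIndependent ℝ (fun i => Λ.mkQ (x i))) (C F : Finset W)
    (h : C.card + rkl Λ B F < Fintype.card ι) :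
    ∃ φ : W →ₗ[ℝ] ℝ, (∀ z ∈ Λ, φ z = 0) ∧ (∀ v ∈ F, v ∈ B → φ v = 0) ∧ (∀ c ∈ C, φ c = 0) ∧
      ∃ i, 0 < φ (x i) := by
  have h1 := fd_span Λ (F ∩ B)
  have h2 := fd_span Λ C
  set U : Submodule ℝ (W ⧸ Λ) := Submodule.span ℝ (Λ.mkQ '' ((F ∩ B : Finset W) : Set W)) ⊔
    Submodule.span ℝ (Λ.mkQ '' (C : Set W)) with hU
  have h3 : Module.finrank ℝ U < Fintype.card ι := by
    have h4 := Submodule.finrank_add_le_finrank_add_finrank
      (Submodule.span ℝ (Λ.mkQ '' ((F ∩ B : Finset W) : Set W)))
      (Submodule.span ℝ (Λ.mkQ '' (C : Set W)))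
    have h5 := finrank_le Λ C
    unfold rkl at h
    rw [hU]
    omega
  have h4 : ∃ i, Λ.mkQ (x i) ∉ U := by
    by_contra hno
    push Not at hno
    have h5 : Submodule.span ℝ (Set.range fun i => Λ.mkQ (x i)) ≤ U := by
      rw [Submodule.span_le]
      rintro _ ⟨i, rfl⟩
      exact hno i
    have h6 := Submodule.finrank_mono h5
    rw [finrank_span_eq_card hx] at h6
    omega
  obtain ⟨i, hi⟩ := h4
  obtain ⟨f, hf, hfU⟩ := Submodule.exists_le_ker_of_notMem hi
  refine ⟨(f (Λ.mkQ (x i))) • (f.comp Λ.mkQ), ?_, ?_, ?_, i, ?_⟩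
  · intro z hz
    have h5 : Λ.mkQ z = 0 := (Submodule.Quotient.mk_eq_zero Λ).2 hz
    rw [LinearMap.smul_apply, LinearMap.comp_apply, h5, map_zero, smul_zero]
  · intro v hv hvB
    have h5 : Λ.mkQ v ∈ U := by
      refine (le_sup_left : Submodule.span ℝ (Λ.mkQ '' ((F ∩ B : Finset W) : Set W)) ≤ U) ?_
      exact Submodule.subset_span ⟨v, Finset.mem_coe.2 (Finset.mem_inter.2 ⟨hv, hvB⟩), rfl⟩
    rw [LinearMap.smul_apply, LinearMap.comp_apply, LinearMap.mem_ker.1 (hfU h5), smul_zero]
  · intro c hc
    have h5 : Λ.mkQ c ∈ U := by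
      refine (le_sup_right : Submodule.span ℝ (Λ.mkQ '' (C : Set W)) ≤ U) ?_
      exact Submodule.subset_span ⟨c, Finset.mem_coe.2 hc, rfl⟩
    rw [LinearMap.smul_apply, LinearMap.comp_apply, LinearMap.mem_ker.1 (hfU h5), smul_zero]
  · rw [LinearMap.smul_apply, LinearMap.comp_apply, smul_eq_mul]
    exact mul_self_pos.2 hf

end Pool.Agent.LPG
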