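import Pool.Agent.LPG.Defs

/-!
# Rank functions: independent subsets, restriction plus free part, contraction (module RkOps)

`card_le`: `r A ≤ A.card` by induction.  `single`: a singleton has rank at most `1`.
`exists_basis`: induction on `A`: if `r (insert v A) = r A` keep `I`; otherwise
`r (insert v A) = r A + 1`; let `I ⊆ A` be a basis of `A` (`r I = I.card = r A`).  Then
`r (insert v I) ≥ r (insert v A) - r A + r I` by submodularity for `insert v I` and `A`
(union `insert v A`, intersection contains `I`), so `insert v I` is a basis.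
`sub_indep`: if `r I = I.card` then `r J = J.card` for `J ⊆ I` (`r I ≤ r J + r (I \ J) ≤ r J + (I \ J).card`).
`isRk_free`: `r1 G = (G ∩ D).card + r ((G \ D) ∩ F)`: check the four axioms (for submodularity add
the modular identity for cards of `G ∩ D` and submodularity of `r`, as `(· \ D) ∩ F` commutes with unions and
intersections).  `isRk_con`: `r2 G = r (G ∪ F) - r F`; use `r F ≤ r (G ∪ F)` and submodularity of `r` for
`A ∪ F`, `B ∪ F` (intersection `(A ∩ B) ∪ F`).
`mr_base`: take `I ⊆ A` with `I.card = r I = k` (a subset of a basis of `A`, `sub_indep`;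
`Finset.exists_subset_card_eq`), `e = a` an enumeration of `I` (`Finset.equivFin` or
`Finset.orderEmbOfFin`-free: `I.equivFinOfCardEq`), `S i = {e i}`.
-/

set_option autoImplicit false

namespace Pool.Agent.LPG

variable {V : Type*} [DecidableEq V]

theorem card_le {r : Finset V → ℕ} (hr : IsRk r) (A : Finset V) : r A ≤ A.card := by
  induction A using Finset.induction_on with
  | empty => rw [hr.empty]; exact Nat.zero_le _
  | insert v A hv ih =>
    rw [Finset.card_insert_of_notMem hv]
    exact (hr.insert_le v A).trans (Nat.add_le_add_right ih 1)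

theorem exists_basis {r : Finset V → ℕ} (hr : IsRk r) (A : Finset V) :
    ∃ I, I ⊆ A ∧ r I = I.card ∧ r I = r A := by
  induction A using Finset.induction_on with
  | empty => exact ⟨∅, subset_rfl, by rw [hr.empty]; rfl, rfl⟩
  | insert v A hv ih =>
    obtain ⟨I, hIA, hI1, hI2⟩ := ih
    have h1 := hr.mono A (insert v A) (Finset.subset_insert v A)
    have h2 := hr.insert_le v A
    rcases Nat.eq_or_lt_of_le h1 with h | h
    · exact ⟨I, hIA.trans (Finset.subset_insert v A), hI1, hI2.trans h⟩
    · have h3 : r (insert v A) = r A + 1 := by omega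
      have hvI : v ∉ I := fun hh => hv (hIA hh)
      have h4 := hr.submod (insert v I) A
      have h5 : insert v I ∪ A = insert v A := by
        rw [Finset.insert_union, Finset.union_eq_right.2 hIA]
      have h6 : I ⊆ insert v I ∩ A := Finset.subset_inter (Finset.subset_insert v I) hIA
      have h7 := hr.mono _ _ h6
      rw [h5] at h4
      have h8 := card_le hr (insert v I)
      rw [Finset.card_insert_of_notMem hvI] at h8
      refine ⟨insert v I, Finset.insert_subset_insert v hIA, ?_, ?_⟩
      · rw [Finset.card_insert_of_notMem hvI]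
        omega
      · omega

theorem sub_indep {r : Finset V → ℕ} (hr : IsRk r) {I J : Finset V} (hI : r I = I.card)
    (hJ : J ⊆ I) : r J = J.card := by
  have h1 := hr.submod J (I \ J)
  rw [Finset.union_sdiff_of_subset hJ] at h1
  have h2 := card_le hr (I \ J)
  have h3 := card_le hr J
  have h4 := Finset.card_sdiff_add_card_eq_card hJ
  omega

theorem isRk_free {r : Finset V → ℕ} (hr : IsRk r) (D F : Finset V) :
    IsRk (fun G => (G ∩ D).card + r ((G \ D) ∩ F)) where
  empty := by simp [hr.empty]
  mono A B h := by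
    show (A ∩ D).card + r ((A \ D) ∩ F) ≤ (B ∩ D).card + r ((B \ D) ∩ F)
    have h1 : (A ∩ D).card ≤ (B ∩ D).card := Finset.card_le_card (Finset.inter_subset_inter_right h)
    have h2 : r ((A \ D) ∩ F) ≤ r ((B \ D) ∩ F) :=
      hr.mono _ _ (Finset.inter_subset_inter_right (Finset.sdiff_subset_sdiff h subset_rfl))
    omega
  insert_le v A := by
    show (insert v A ∩ D).card + r ((insert v A \ D) ∩ F) ≤ (A ∩ D).card + r ((A \ D) ∩ F) + 1
    by_cases hv : v ∈ D
    · have h1 : insert v A \ D = A \ D := Finset.insert_sdiff_of_mem A hv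
      have h2 : insert v A ∩ D = insert v (A ∩ D) := Finset.insert_inter_of_mem hv
      have h3 := Finset.card_insert_le v (A ∩ D)
      rw [h1, h2]
      omega
    · have h2 : insert v A ∩ D = A ∩ D := Finset.insert_inter_of_notMem hv
      have h3 : (insert v A \ D) ∩ F ⊆ insert v ((A \ D) ∩ F) := by
        intro x hx
        rw [Finset.mem_inter, Finset.mem_sdiff, Finset.mem_insert] at hx
        rw [Finset.mem_insert, Finset.mem_inter, Finset.mem_sdiff]
        tauto
      have h4 := hr.mono _ _ h3
      have h5 := hr.insert_le v ((A \ D) ∩ F)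
      rw [h2]
      omega
  submod A B := by
    show ((A ∪ B) ∩ D).card + r (((A ∪ B) \ D) ∩ F) + (((A ∩ B) ∩ D).card + r (((A ∩ B) \ D) ∩ F)) ≤
      (A ∩ D).card + r ((A \ D) ∩ F) + ((B ∩ D).card + r ((B \ D) ∩ F))
    have h1 : (A ∪ B) ∩ D = (A ∩ D) ∪ (B ∩ D) := Finset.union_inter_distrib_right A B D
    have h2 : (A ∩ B) ∩ D = (A ∩ D) ∩ (B ∩ D) := by
      ext x
      simp only [Finset.mem_inter]
      tauto
    have h3 := Finset.card_union_add_card_inter (A ∩ D) (B ∩ D)
    have h4 : ((A ∪ B) \ D) ∩ F = ((A \ D) ∩ F) ∪ ((B \ D) ∩ F) := by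
      ext x
      simp only [Finset.mem_inter, Finset.mem_union, Finset.mem_sdiff]
      tauto
    have h5 : ((A ∩ B) \ D) ∩ F = ((A \ D) ∩ F) ∩ ((B \ D) ∩ F) := by
      ext x
      simp only [Finset.mem_inter, Finset.mem_sdiff]
      tauto
    have h6 := hr.submod ((A \ D) ∩ F) ((B \ D) ∩ F)
    rw [h1, h2, h4, h5]
    omega

theorem isRk_con {r : Finset V → ℕ} (hr : IsRk r) (F : Finset V) :
    IsRk (fun G => r (G ∪ F) - r F) where
  empty := by simp
  mono A B h := by
    show r (A ∪ F) - r F ≤ r (B ∪ F) - r F
    have := hr.mono _ _ (Finset.union_subset_union_left (t := F) h)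
    omega
  insert_le v A := by
    show r (insert v A ∪ F) - r F ≤ r (A ∪ F) - r F + 1
    rw [Finset.insert_union]
    have := hr.insert_le v (A ∪ F)
    omega
  submod A B := by
    show r (A ∪ B ∪ F) - r F + (r (A ∩ B ∪ F) - r F) ≤ r (A ∪ F) - r F + (r (B ∪ F) - r F)
    have h1 := hr.submod (A ∪ F) (B ∪ F)
    have h2 : (A ∪ F) ∪ (B ∪ F) = A ∪ B ∪ F := by
      ext x
      simp only [Finset.mem_union]
      tauto
    have h3 : (A ∪ F) ∩ (B ∪ F) = A ∩ B ∪ F := by
      ext x
      simp only [Finset.mem_union, Finset.mem_inter]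
      tauto
    rw [h2, h3] at h1
    have h4 := hr.mono F (A ∪ F) Finset.subset_union_right
    have h5 := hr.mono F (B ∪ F) Finset.subset_union_right
    have h6 := hr.mono F (A ∪ B ∪ F) Finset.subset_union_right
    have h7 := hr.mono F (A ∩ B ∪ F) Finset.subset_union_right
    omega

theorem mr_base {r : Finset V → ℕ} (hr : IsRk r) (E : Finset (V × V)) (A : Finset V) (k : ℕ)
    (hk : k ≤ r A) :
    ∃ (S : Fin k → Finset V) (a e : Fin k → V), PathSys E A S a e ∧
      r (Finset.univ.image e) = k := by
  obtain ⟨I, hIA, hI1, hI2⟩ := exists_basis hr A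
  obtain ⟨J, hJI, hJk⟩ := Finset.exists_subset_card_eq (show k ≤ I.card by omega)
  have hJr := sub_indep hr hI1 hJI
  let φ : J ≃ Fin k := J.equivFinOfCardEq hJk
  let e : Fin k → V := fun i => (φ.symm i : V)
  have heJ : ∀ i, e i ∈ J := fun i => (φ.symm i).2
  have hinj : Function.Injective e := fun i j h => φ.symm.injective (Subtype.ext h)
  refine ⟨fun i => {e i}, e, e, ⟨?_, ?_⟩, ?_⟩
  · intro i j hij
    rw [Finset.disjoint_singleton]
    exact fun h => hij (hinj h)
  · intro i
    refine ⟨hIA (hJI (heJ i)), Finset.mem_singleton_self _, Finset.mem_singleton_self _, ?_⟩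
    intro v hv
    rw [Finset.mem_singleton] at hv
    rw [hv]
    exact ⟨Relation.ReflTransGen.refl, Relation.ReflTransGen.refl⟩
  · have himg : Finset.univ.image e = J := by
      apply Finset.eq_of_subset_of_card_le
      · intro v hv
        rw [Finset.mem_image] at hv
        obtain ⟨i, _, rfl⟩ := hv
        exact heJ i
      · rw [Finset.card_image_of_injective _ hinj, Finset.card_univ, Fintype.card_fin, hJk]
    rw [himg, hJr, hJk]

end Pool.Agent.LPG
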