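import Pool.Agent.LPG.Exit
import Pool.Agent.LPG.MR
import Pool.Agent.LPG.RkLin

/-!
# Routing independent terminals to independent neighbours of the centre (module Routing)

Let `k = Fintype.card ι`, `E` the set of pairs in `N ×ˢ N` which satisfy `Arc N K Λ s`, `A` the image of `x`,
`r = rkl (ad Λ s) (nb N K s)`.  Hypothesis of `mr`: let `C`, `F` separate with `C.card + r F < k`.
`exists_fun` (for `ad Λ s`) gives `φ`, zero on `ad Λ s` (so on `Λ` and at `s`), on `F ∩ nb N K s` and on
`C`, and `i` with `φ (x i) > 0`.  By `exit` there are `u ∈ nb N K s`, `φ u > 0`, and a walk of arcs in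
`φ > 0` from `x i` to `u`; it avoids `C`, so `Av E C (x i) u`, `u ∈ F`, `φ u = 0`: contradiction.
So `mr` gives `S', a, e'` with `PathSys` and, by `indep_of_rkl`, `e' j ∈ nb N K s`, independent modulo
`ad Λ s`.  The starts `a j ∈ A` are different (disjoint sets) and there are `k` of them, `A` has at most
`k` elements, so for every `i` there is a unique `j` with `a j = x i`: an injective map `σ : ι → Fin k`
(`x` is injective); put `S i = S' (σ i)`, `e i = e' (σ i)`.

Properties of `v ∈ S i`: `v` is reached from `x i` by arcs, so `v = x i` or `v` is the target of an arc,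
so `v ∈ N`, `v ≠ s`.  `v` reaches `e i` by arcs; if `v ∈ nb N K s`, no arc starts at `v`, so `v = e i`.
If `Br N K s a b v`, then all vertices of the walk from `v` to `e i` satisfy `Br N K s a b` (last condition of
`Arc`), so `Br N K s a b (e i)` and `br_nb` applies.  Arcs are steps.
-/

set_option autoImplicit false

namespace Pool.Agent.LPG

variable {W : Type*} [AddCommGroup W] [Module ℝ W] {N : Finset W} {K : Submodule ℝ W}

theorem routing (h : Poly N K) {s : W} (hs : s ∈ N) {Λ : Submodule ℝ W} (hK : K ≤ Λ)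
    {ι : Type*} [Fintype ι] [DecidableEq ι] (x : ι → W) (hxN : ∀ i, x i ∈ N)
    (hxs : ∀ i, x i ≠ s) (hind : LinearIndependent ℝ (fun i => (ad Λ s).mkQ (x i))) :
    ∃ (S : ι → Finset W) (e : ι → W), (∀ i j, i ≠ j → Disjoint (S i) (S j)) ∧
      (∀ i, x i ∈ S i ∧ e i ∈ S i ∧ e i ∈ nb N K s) ∧
      (∀ i, ∀ v ∈ S i, v ∈ N ∧ v ≠ s ∧ (v ∈ nb N K s → v = e i) ∧
        ∀ a b, VAdj N K s a b → Br N K s a b v → e i = a ∨ e i = b) ∧
      (∀ i, ∀ v ∈ S i,
        Relation.ReflTransGen (fun p q => Step N K Λ p q ∧ p ∈ S i ∧ q ∈ S i) (x i) v) ∧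
      LinearIndependent ℝ (fun i => (ad Λ s).mkQ (e i)) := by
  classical
  set E : Finset (W × W) := (N ×ˢ N).filter (fun p => Arc N K Λ s p.1 p.2) with hE
  have memE : ∀ u w : W, (u, w) ∈ E ↔ Arc N K Λ s u w := by
    intro u w
    rw [hE, Finset.mem_filter, Finset.mem_product]
    constructor
    · exact fun hh => hh.2
    · exact fun hh => ⟨⟨hh.1.1.1, hh.1.1.2.1⟩, hh⟩
  have key := mr (rkl (ad Λ s) (nb N K s)) (isRk_rkl (ad Λ s) (nb N K s)) E
    (Finset.univ.image x) (Fintype.card ι) (by
      intro C F hsep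
      by_contra hlt
      rw [not_le] at hlt
      obtain ⟨φ, hφ1, hφ2, hφ3, i, hφi⟩ := exists_fun (ad Λ s) (nb N K s) x hind C F hlt
      obtain ⟨u, hu, hφu, hw⟩ := exit h hs hK φ (fun z hz => hφ1 z (le_ad Λ s hz))
        (hφ1 s (self_mem_ad Λ s)) (hxN i) hφi
      have hav : Av E C (x i) u := by
        refine ⟨fun hC => ?_, ?_⟩
        · rw [hφ3 _ hC] at hφi
          exact lt_irrefl _ hφi
        · refine Relation.ReflTransGen.mono ?_ _ _ hw
          rintro p q ⟨harc, hp, hq⟩
          refine ⟨(memE p q).2 harc, fun hC => ?_⟩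
          rw [hφ3 _ hC] at hq
          exact lt_irrefl _ hq
      have hF := hsep (x i) (Finset.mem_image_of_mem x (Finset.mem_univ i)) u hav
      rw [hφ2 u hF hu] at hφu
      exact lt_irrefl _ hφu)
  obtain ⟨S', a, e', ⟨hdis, hPS⟩, hr⟩ := key
  obtain ⟨henb, hind'⟩ := indep_of_rkl (ad Λ s) (nb N K s) e' hr
  have hainj : Function.Injective a := by
    intro i j hij
    by_contra hne
    have h1 := (hPS i).2.1
    have h2 := (hPS j).2.1
    rw [hij] at h1
    exact Finset.disjoint_left.1 (hdis i j hne) h1 h2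
  have himg : Finset.univ.image a = Finset.univ.image x := by
    refine Finset.eq_of_subset_of_card_le ?_ ?_
    · intro w hw
      obtain ⟨j, _, rfl⟩ := Finset.mem_image.1 hw
      exact (hPS j).1
    · rw [Finset.card_image_of_injective _ hainj, Finset.card_univ, Fintype.card_fin]
      exact Finset.card_image_le.trans (le_of_eq Finset.card_univ)
  have hsig : ∀ i : ι, ∃ j : Fin (Fintype.card ι), a j = x i := by
    intro i
    have h1 : x i ∈ Finset.univ.image a := by
      rw [himg]
      exact Finset.mem_image_of_mem x (Finset.mem_univ i)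
    obtain ⟨j, _, hj⟩ := Finset.mem_image.1 h1
    exact ⟨j, hj⟩
  choose σ hσ using hsig
  have hxinj : Function.Injective x := by
    intro i j hij
    refine hind.injective ?_
    change (ad Λ s).mkQ (x i) = (ad Λ s).mkQ (x j)
    rw [hij]
  have hσinj : Function.Injective σ := by
    intro i j hij
    refine hxinj ?_
    rw [← hσ i, ← hσ j, hij]
  refine ⟨fun i => S' (σ i), fun i => e' (σ i), ?_, ?_, ?_, ?_, ?_⟩
  · intro i j hij
    exact hdis _ _ (fun hh => hij (hσinj hh))
  · intro i
    obtain ⟨_, h2, h3, _⟩ := hPS (σ i)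
    rw [hσ i] at h2
    exact ⟨h2, h3, henb _⟩
  · intro i v hv
    obtain ⟨_, _, _, h4⟩ := hPS (σ i)
    obtain ⟨h5, h6⟩ := h4 v hv
    have hcase : v = x i ∨ ∃ c, Arc N K Λ s c v := by
      rcases Relation.ReflTransGen.cases_tail h5 with h7 | ⟨c, _, h8⟩
      · left
        rw [h7, hσ i]
      · exact Or.inr ⟨c, (memE c v).1 h8.1⟩
    refine ⟨?_, ?_, ?_, ?_⟩
    · rcases hcase with rfl | ⟨c, hc⟩
      · exact hxN i
      · exact hc.1.1.2.1
    · rcases hcase with rfl | ⟨c, hc⟩
      · exact hxs i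
      · exact hc.2.2.1
    · intro hvnb
      rcases Relation.ReflTransGen.cases_head h6 with h7 | ⟨c, h8, _⟩
      · exact h7
      · exact absurd hvnb ((memE v c).1 h8.1).2.2.2.1
    · intro a' b' hab hbr
      have hend : ∀ w, Relation.ReflTransGen (fun u w => (u, w) ∈ E ∧ u ∈ S' (σ i) ∧
          w ∈ S' (σ i) ∧ w ≠ a (σ i)) v w → Br N K s a' b' w := by
        intro w hw
        induction hw with
        | refl => exact hbr
        | tail _ hstep ih => exact ((memE _ _).1 hstep.1).2.2.2.2 a' b' hab ih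
      exact br_nb h hs hab (henb _) (hend _ h6)
  · intro i v hv
    obtain ⟨_, _, _, h4⟩ := hPS (σ i)
    obtain ⟨h5, _⟩ := h4 v hv
    rw [hσ i] at h5
    refine Relation.ReflTransGen.mono ?_ _ _ h5
    rintro p q ⟨hpq, hp, hq, _⟩
    exact ⟨((memE p q).1 hpq).1, hp, hq⟩
  · exact hind'.comp σ hσinj

end Pool.Agent.LPG
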