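import Pool.Agent.LPG.KDefs
import Pool.Agent.LPG.Branch

/-!
# The linear order on a branch (module SideA)

For an edge `a b` of the vertex figure of `s` and `x` on the branch (`Br N K s a b x`), the vertices `v` with
`Br N K s a x v` are those between `a` and `x` (cone of `a` and `x` modulo `ad K s`).

Coefficients: let `ga` be a functional which vanishes on `ad K s` and at `a` and is positive on the
rest of `nb N K s` (`poly_nb`), in particular `ga b > 0`, and `gb` the same for `b`.  For
`v = α a + β b` modulo `ad K s` we have `ga v = β ga b`, `gb v = α gb a`, so the coefficients are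
determined: `β = ga v / ga b`, `α = gb v / gb a`.  For `x = α a + β b`, `v = α' a + β' b` (all
coefficients `≥ 0`, not both zero): `Br N K s a x v` iff `α' β ≥ β' α` (if `β > 0`:
`v = (α' - β' α / β) a + (β' / β) x`; if `β = 0` then `x = a` by `three` and both sides say `β' = 0`).

`br_trans`, `br_symm`: algebra.  `br_total`: `α' β ≥ β' α` or `β' α ≥ α' β`.
`br_anti`: if `v` is between `a` and `x` and between `b` and `x`, then `α' β = β' α`, so `v` and `x` are
proportional modulo `ad K s`, `v = x` by `three` (with `u := s`; coefficients are not both zero).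
`closest`: among the elements `y ∈ X` with `Br N K s a b y` (there is one, `z`) choose one with the
least `β / (α + β)` (finite set; `(α, β) ≠ 0`, as `y ∉ ad K s` by `two`).  If `v ∈ X`, `Br N K s a y v`, then
`Br N K s a b v` (`br_trans`) and `v` has a smaller or equal quotient, so an equal one, so `v = y` (`three`).
`y ≠ a` since `a ∉ X`; `y ∈ nb` would give `y = b` (`br_nb`), quotient `1`, so `z` has quotient `1`,
`z = b ∈ nb` (`three`), contradiction.  `Br N K s b y z` since `z` has a larger or equal quotient.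
-/

set_option autoImplicit false

namespace Pool.Agent.LPG

variable {W : Type*} [AddCommGroup W] [Module ℝ W] {N : Finset W} {K : Submodule ℝ W}

theorem br_comm {s a b v : W} (h : Br N K s a b v) : Br N K s b a v := by
  obtain ⟨h1, h2, α, β, hα, hβ, hm⟩ := h
  exact ⟨h1, h2, β, α, hβ, hα, by rw [add_comm]; exact hm⟩

theorem br_self {s a x : W} (hx : x ∈ N) (hxs : x ≠ s) : Br N K s a x x := by
  refine ⟨hx, hxs, 0, 1, le_refl _, zero_le_one, ?_⟩
  simp only [zero_smul, one_smul, zero_add, sub_self]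
  exact Submodule.zero_mem _

theorem br_end {s a x : W} (ha : a ∈ N) (has : a ≠ s) : Br N K s a x a := by
  refine ⟨ha, has, 1, 0, zero_le_one, le_refl _, ?_⟩
  simp only [zero_smul, one_smul, add_zero, sub_self]
  exact Submodule.zero_mem _

theorem br_trans {s a b x v : W} (hx : Br N K s a b x) (hv : Br N K s a x v) :
    Br N K s a b v := by
  obtain ⟨_, _, α, β, hα, hβ, hm⟩ := hx
  obtain ⟨hv1, hv2, γ, δ, hγ, hδ, hm'⟩ := hv
  refine ⟨hv1, hv2, γ + δ * α, δ * β, by positivity, by positivity, ?_⟩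
  have h1 : v - ((γ + δ * α) • a + (δ * β) • b) =
      (v - (γ • a + δ • x)) + δ • (x - (α • a + β • b)) := by
    module
  rw [h1]
  exact Submodule.add_mem _ hm' (Submodule.smul_mem _ _ hm)

private theorem br_coef (h : Poly N K) {s a b x v : W} (hs : s ∈ N) (hx : x ∈ N) (hxs : x ≠ s)
    (hv : v ∈ N) (hvs : v ≠ s) {α β α' β' : ℝ} (hα : 0 ≤ α) (hβ : 0 ≤ β) (hα' : 0 ≤ α')
    (hβ' : 0 ≤ β') (hxm : x - (α • a + β • b) ∈ ad K s) (hvm : v - (α' • a + β' • b) ∈ ad K s)
    (hle : β' * α ≤ α' * β) : Br N K s a x v := by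
  rcases hβ.eq_or_lt with hβ0 | hβ0
  · -- `β = 0`
    subst hβ0
    have hα0 : 0 < α := by
      rcases hα.eq_or_lt with hα0 | hα0
      · exfalso
        subst hα0
        simp only [zero_smul, add_zero, sub_zero] at hxm
        exact two h hs hx hxs hxm
      · exact hα0
    have hβ'0 : β' = 0 := by
      rw [mul_zero] at hle
      rcases hβ'.eq_or_lt with h1 | h1
      · exact h1.symm
      · exact absurd (mul_pos h1 hα0) (not_lt.2 hle)
    subst hβ'0
    refine ⟨hv, hvs, α', 0, hα', le_refl _, ?_⟩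
    have h1 : v - (α' • a + (0 : ℝ) • x) = v - (α' • a + (0 : ℝ) • b) := by module
    rw [h1]
    exact hvm
  · refine ⟨hv, hvs, α' - β' * α / β, β' / β, ?_, by positivity, ?_⟩
    · rw [sub_nonneg, div_le_iff₀ hβ0]
      exact hle
    · have h1 : v - ((α' - β' * α / β) • a + (β' / β) • x) =
          (v - (α' • a + β' • b)) - (β' / β) • (x - (α • a + β • b)) := by
        have h2 : β' = (β' / β) * β := by field_simp
        have h3 : β' * α / β = (β' / β) * α := by ring
        rw [h3]
        have h4 : v - (α' • a + β' • b) = v - (α' • a + ((β' / β) * β) • b) := by rw [← h2]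
        rw [h4]
        module
      rw [h1]
      exact Submodule.sub_mem _ hvm (Submodule.smul_mem _ _ hxm)

theorem br_total (h : Poly N K) {s a b x v : W} (hs : s ∈ N) (hab : VAdj N K s a b)
    (hx : Br N K s a b x) (hv : Br N K s a b v) : Br N K s a x v ∨ Br N K s b x v := by
  obtain ⟨hx1, hx2, α, β, hα, hβ, hm⟩ := hx
  obtain ⟨hv1, hv2, α', β', hα', hβ', hm'⟩ := hv
  rcases le_total (β' * α) (α' * β) with hle | hle
  · exact Or.inl (br_coef h hs hx1 hx2 hv1 hv2 hα hβ hα' hβ' hm hm' hle)
  · refine Or.inr (br_coef h hs hx1 hx2 hv1 hv2 (α := β) (β := α) (α' := β') (β' := α') (b := a)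
      hβ hα hβ' hα' ?_ ?_ hle)
    · rw [add_comm]; exact hm
    · rw [add_comm]; exact hm'

private theorem app {M : Submodule ℝ W} {g : W →ₗ[ℝ] ℝ} (hg : ∀ z ∈ M, g z = 0) {v a b : W}
    {α β : ℝ} (hm : v - (α • a + β • b) ∈ M) : g v = α * g a + β * g b := by
  have h1 := hg _ hm
  simp only [map_sub, map_add, map_smul, smul_eq_mul] at h1
  linarith

private theorem fun_a (h : Poly N K) {s a b : W} (hs : s ∈ N) (hab : VAdj N K s a b) :
    ∃ g : W →ₗ[ℝ] ℝ, (∀ z ∈ ad K s, g z = 0) ∧ g a = 0 ∧ 0 < g b := by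
  obtain ⟨g, hg, hga, hpos⟩ := (poly_nb h hs).1 a hab.1
  exact ⟨g, hg, hga, hpos b hab.2.1 (Ne.symm hab.2.2.1)⟩

theorem br_anti (h : Poly N K) {s a b x v : W} (hs : s ∈ N) (hab : VAdj N K s a b)
    (hx : Br N K s a b x) (hv : Br N K s a x v) (hv' : Br N K s b x v) : v = x := by
  obtain ⟨ga, hga, haa, hab'⟩ := fun_a h hs hab
  obtain ⟨gb, hgb, hbb, hba⟩ := fun_a h hs (adj_symm hab)
  obtain ⟨hx1, hx2, α, β, hα, hβ, hm⟩ := hx
  obtain ⟨hv1, hv2, γ, δ, hγ, hδ, hm1⟩ := hv
  obtain ⟨_, _, γ', δ', hγ', hδ', hm2⟩ := hv'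
  by_contra hne
  have h3 : ∀ c : ℝ, v - c • x ∉ ad K s := fun c =>
    three h hs hx1 hv1 (Ne.symm hx2) (Ne.symm hv2) (Ne.symm hne) c
  have hγ0 : 0 < γ := by
    rcases hγ.eq_or_lt with h1 | h1
    · exfalso
      subst h1
      rw [zero_smul, zero_add] at hm1
      exact h3 δ hm1
    · exact h1
  have hγ'0 : 0 < γ' := by
    rcases hγ'.eq_or_lt with h1 | h1
    · exfalso
      subst h1
      rw [zero_smul, zero_add] at hm2
      exact h3 δ' hm2
    · exact h1
  have e1 := app hga hm
  have e2 := app hga hm1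
  have e3 := app hga hm2
  have e4 := app hgb hm
  have e5 := app hgb hm1
  have e6 := app hgb hm2
  rw [haa] at e1 e2
  rw [hbb] at e4 e6
  -- `δ β = γ' + δ' β`, `γ + δ α = δ' α`
  have k1 : δ * β = γ' + δ' * β := by
    have : (δ * β - (γ' + δ' * β)) * ga b = 0 := by
      rw [e1] at e2 e3
      linear_combination e3 - e2
    rcases mul_eq_zero.1 this with h1 | h1
    · linarith
    · exact absurd h1 hab'.ne'
  have k2 : γ + δ * α = δ' * α := by
    have : (γ + δ * α - δ' * α) * gb a = 0 := by
      rw [e4] at e5 e6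
      linear_combination e6 - e5
    rcases mul_eq_zero.1 this with h1 | h1
    · linarith
    · exact absurd h1 hba.ne'
  have k3 : δ' < δ := by
    by_contra h1
    rw [not_lt] at h1
    have := mul_le_mul_of_nonneg_right h1 hβ
    linarith
  have k4 := mul_le_mul_of_nonneg_right k3.le hα
  linarith

/-- The only neighbour of `s` on the `a`-side of an inner vertex `x` is `a`. -/
theorem br_side_nb (h : Poly N K) {s a b x v : W} (hs : s ∈ N) (hab : VAdj N K s a b)
    (hx : Br N K s a b x) (hxn : x ∉ nb N K s) (hv : Br N K s a x v) (hvn : v ∈ nb N K s) :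
    v = a := by
  rcases br_nb h hs hab hvn (br_trans hx hv) with h1 | h1
  · exact h1
  · exfalso
    subst h1
    have h2 : Br N K s v x v := br_end hv.1 hv.2.1
    have h3 := br_anti h hs hab hx hv h2
    rw [h3] at hvn
    exact hxn hvn

theorem closest (h : Poly N K) {s a b z : W} (hs : s ∈ N) (hab : VAdj N K s a b) (X : Finset W)
    (hz : z ∈ X) (hbz : Br N K s a b z) (hzn : z ∉ nb N K s) (haX : a ∉ X) :
    ∃ y ∈ X, Br N K s a b y ∧ y ∉ nb N K s ∧ (∀ v ∈ X, Br N K s a y v → v = y) ∧
      Br N K s b y z := by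
  classical
  obtain ⟨ga, hga, haa, hab'⟩ := fun_a h hs hab
  obtain ⟨gb, hgb, hbb, hba⟩ := fun_a h hs (adj_symm hab)
  have ha := mem_nb.1 hab.1
  have hb := mem_nb.1 hab.2.1
  -- signs on the branch
  have hsg : ∀ y, Br N K s a b y → 0 ≤ ga y ∧ 0 ≤ gb y ∧ 0 < ga y + gb y := by
    rintro y ⟨hy1, hy2, α, β, hα, hβ, hm⟩
    have e1 := app hga hm
    have e2 := app hgb hm
    rw [haa] at e1
    rw [hbb] at e2
    have h1 : 0 ≤ β * ga b := mul_nonneg hβ hab'.le
    have h2 : 0 ≤ α * gb a := mul_nonneg hα hba.le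
    refine ⟨by linarith, by linarith, ?_⟩
    rcases hα.eq_or_lt with h3 | h3
    · rcases hβ.eq_or_lt with h4 | h4
      · exfalso
        subst h3
        subst h4
        simp only [zero_smul, add_zero, sub_zero] at hm
        exact two h hs hy1 hy2 hm
      · have := mul_pos h4 hab'
        linarith
    · have := mul_pos h3 hba
      linarith
  obtain ⟨y, hy, hmin⟩ := Finset.exists_min_image (X.filter (fun y => Br N K s a b y))
    (fun y => ga y / (ga y + gb y)) ⟨z, Finset.mem_filter.2 ⟨hz, hbz⟩⟩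
  obtain ⟨hyX, hyB⟩ := Finset.mem_filter.1 hy
  have hya : y ≠ a := by
    rintro rfl
    exact haX hyX
  have hmin' : ∀ v ∈ X, Br N K s a b v → ga y * gb v ≤ ga v * gb y := by
    intro v hv hvB
    have h1 := hmin v (Finset.mem_filter.2 ⟨hv, hvB⟩)
    rw [div_le_div_iff₀ (hsg y hyB).2.2 (hsg v hvB).2.2] at h1
    nlinarith
  have hgy : 0 < ga y := by
    rcases (hsg y hyB).1.eq_or_lt with h1 | h1
    · exfalso
      obtain ⟨hy1, hy2, α, β, hα, hβ, hm⟩ := hyB
      have e1 := app hga hm
      rw [haa, mul_zero, zero_add, ← h1] at e1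
      rcases mul_eq_zero.1 e1.symm with h2 | h2
      · rw [h2, zero_smul, add_zero] at hm
        exact three h hs ha.2.1 hy1 ha.2.2.1 (Ne.symm hy2) (Ne.symm hya) α hm
      · exact absurd h2 hab'.ne'
    · exact h1
  have huniq : ∀ v ∈ X, Br N K s a y v → v = y := by
    intro v hv hvB
    by_contra hne
    have h1 := hmin' v hv (br_trans hyB hvB)
    obtain ⟨hv1, hv2, γ, δ, hγ, hδ, hm⟩ := hvB
    have e1 := app hga hm
    have e2 := app hgb hm
    rw [haa, mul_zero, zero_add] at e1
    rw [e1, e2] at h1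
    have h2 : ga y * (γ * gb a) ≤ 0 := by nlinarith
    have hγ0 : 0 < γ := by
      rcases hγ.eq_or_lt with h3 | h3
      · exfalso
        subst h3
        rw [zero_smul, zero_add] at hm
        exact three h hs hyB.1 hv1 (Ne.symm hyB.2.1) (Ne.symm hv2) (Ne.symm hne) δ hm
      · exact h3
    have h4 : 0 < ga y * (γ * gb a) := mul_pos hgy (mul_pos hγ0 hba)
    linarith
  refine ⟨y, hyX, hyB, ?_, huniq, ?_⟩
  · intro hyn
    rcases br_nb h hs hab hyn hyB with h1 | h1
    · exact hya h1
    · -- `y = b`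
      have h2 := hmin' z hz hbz
      rw [h1, hbb, mul_zero] at h2
      have h3 : gb z = 0 := by
        have h4 := (hsg z hbz).2.1
        rcases h4.eq_or_lt with h5 | h5
        · exact h5.symm
        · have := mul_pos hab' h5
          linarith
      obtain ⟨hz1, hz2, α, β, hα, hβ, hm⟩ := hbz
      have e2 := app hgb hm
      rw [hbb, mul_zero, add_zero, h3] at e2
      rcases mul_eq_zero.1 e2.symm with h4 | h4
      · rw [h4, zero_smul, zero_add] at hm
        have hzb : b ≠ z := by
          rintro rfl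
          exact hzn hab.2.1
        exact three h hs hb.2.1 hz1 hb.2.2.1 (Ne.symm hz2) hzb β hm
      · exact absurd h4 hba.ne'
  · rcases br_total h hs hab hyB hbz with h1 | h1
    · have h2 := huniq z hz h1
      rw [h2]
      exact br_self hyB.1 hyB.2.1
    · exact h1

end Pool.Agent.LPG
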