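import Pool.Agent.LPG.SideA
import Pool.Agent.LPG.BrConn

/-!
# Walks on a branch (module SideW)

`no_skip`: let `z = l p + m q + c s` modulo `K`, `l, m ≥ 0`, `z ≠ p, q, s`, `Adj N K p q`.  The functional
`g` of the edge `p q` gives `g z = c * g s`, `g z > 0`, and `g s > 0` (if `s ≠ p, q`), so `c > 0`; the
functional `f` of `z` (zero at `z`, positive elsewhere) gives
`0 = l f p + m f q + c f s > 0`, contradiction.

`side_walk`: walk from `x` to `a` on the `a`-side of `x`.  Let `x = α a + β b` with `α, β > 0`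
(`br_pos`), `ga`, `gb` as in the header of `SideA`, `h = β gb / gb a - α ga / ga b`: zero on `ad K s`, and for
`v = α' a + β' b` modulo `ad K s`: `h v = α' β - β' α`, which is `≥ 0` iff `Br N K s a x v`.
Let `ψ` be the functional of `s` (positive on `N` except at `s`) and choose `ε > 0` so small that
`h v + ε ψ v < 0` for all `v ∈ N` with `h v < 0`; then `M` so large that `φ = h + ε ψ - M f` is `≤ 0` at
all `v ∈ N` with `f v > 0`, where `f` is the functional of `br_face`.  The elements of `N` with `φ > 0` are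
exactly the `v` with `Br N K s a x v` (note `φ s = 0`).  `conn` gives a walk from `x` to `a` among them.
Cut it at the first vertex in `nb N K s` (induction from the end, as in `Exit`): this vertex is `a` by
`br_side_nb`; all steps before are `Arc2 N K s ∅` (the branch of the inner vertex is unique, `br_uniq`, and
both vertices satisfy `Br N K s a b` by `br_trans`).

`cover`: let `z` be between `b` and `x` and not in `T` (so `z ≠ x`).  Claim: every vertex `p` of the walk
satisfies `Br N K s a z p`.  For `x`: `br_total` (for `z`, `x`): otherwise `Br N K s b z x`, and together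
with `Br N K s b x z` the coefficients are proportional and `x = z`.  Step `p → q`: if not
`Br N K s a z q`, then `Br N K s b z q` (`br_total`), and `z` is in the cone of `p` and `q` (coefficients:
`p` on the `a`-side and `q` on the `b`-side of `z`), so `z = p` or `z = q` by `no_skip`, but `p, q ∈ T`,
contradiction.  So `Br N K s a z b`; then `b` and `z` are proportional (`br_total` order), so `z = b`, the end of
the walk, which is in `T`: contradiction.
-/

set_option autoImplicit false

namespace Pool.Agent.LPG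

variable {W : Type*} [AddCommGroup W] [Module ℝ W] {N : Finset W} {K : Submodule ℝ W}

private theorem sw_core (h : Poly N K) {s a b : W} (hs : s ∈ N) (hab : VAdj N K s a b)
    (φ : W →ₗ[ℝ] ℝ) (hφK : ∀ z ∈ K, φ z = 0) (hφs : φ s = 0) :
    ∃ φ' : W →ₗ[ℝ] ℝ, (∀ z ∈ K, φ' z = 0) ∧ φ' s = 0 ∧
      ∀ v ∈ N, (0 < φ' v ↔ Br N K s a b v ∧ 0 < φ v) := by
  obtain ⟨f, hfK, hfs, hf0, hf⟩ := br_face h hs hab
  have hM : ∀ v ∈ N, 0 < f v → φ v ≤ (∑ w ∈ N, |φ w| / f w) * f v := by
    intro v hv hfv
    have h1 : |φ v| / f v ≤ ∑ w ∈ N, |φ w| / f w :=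
      Finset.single_le_sum (f := fun w => |φ w| / f w)
        (fun w hw => div_nonneg (abs_nonneg _) (hf0 w hw)) hv
    have h2 := mul_le_mul_of_nonneg_right h1 hfv.le
    rw [div_mul_cancel₀ _ hfv.ne'] at h2
    exact (le_abs_self _).trans h2
  refine ⟨φ - (∑ w ∈ N, |φ w| / f w) • f, ?_, ?_, ?_⟩
  · intro z hz
    rw [LinearMap.sub_apply, LinearMap.smul_apply, hφK z hz, hfK z hz, smul_zero, sub_zero]
  · rw [LinearMap.sub_apply, LinearMap.smul_apply, hφs, hfs, smul_zero, sub_zero]
  · intro v hv
    rw [LinearMap.sub_apply, LinearMap.smul_apply, smul_eq_mul]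
    constructor
    · intro hpos
      rcases (hf0 v hv).eq_or_lt with h0 | h0
      · rw [← h0, mul_zero, sub_zero] at hpos
        have hvs : v ≠ s := by
          rintro rfl
          rw [hφs] at hpos
          exact lt_irrefl _ hpos
        exact ⟨(hf v hv hvs).1 h0.symm, hpos⟩
      · have := hM v hv h0
        exfalso
        linarith
    · rintro ⟨hbr, hpos⟩
      rw [(hf v hv hbr.2.1).2 hbr, mul_zero, sub_zero]
      exact hpos

omit [AddCommGroup W] [Module ℝ W] in
private theorem sw_eps (N : Finset W) (h ψ : W → ℝ) :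
    ∃ ε : ℝ, 0 < ε ∧ ∀ v ∈ N, h v < 0 → h v + ε * ψ v < 0 := by
  have h0 : ∀ᶠ ε in nhdsWithin (0 : ℝ) (Set.Ioi 0), ∀ v ∈ N, h v < 0 → h v + ε * ψ v < 0 := by
    rw [Filter.eventually_all_finset]
    intro v _
    by_cases hneg : h v < 0
    · have h1 : Filter.Tendsto (fun ε : ℝ => h v + ε * ψ v) (nhds 0) (nhds (h v + 0 * ψ v)) := by
        apply Continuous.tendsto
        fun_prop
      have h2 := (h1.mono_left (nhdsWithin_le_nhds (s := Set.Ioi 0))).eventually_lt_const
        (u := 0) (by rw [zero_mul, add_zero]; exact hneg)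
      filter_upwards [h2] with ε hε _ using hε
    · exact Filter.Eventually.of_forall (fun ε h' => absurd h' hneg)
  obtain ⟨ε, h1, h2⟩ := (h0.and self_mem_nhdsWithin).exists
  exact ⟨ε, h2, h1⟩

theorem no_skip (h : Poly N K) {s p q z : W} (hs : s ∈ N) (hps : p ≠ s) (hqs : q ≠ s)
    (hpq : Adj N K p q) (hz : Br N K s p q z) : z = p ∨ z = q := by
  by_contra hno
  rw [not_or] at hno
  obtain ⟨hzN, hzs, l, m, hl, hm, hmem⟩ := hz
  obtain ⟨hpN, hqN, hne, g, hgK, hgp, hgq, hg⟩ := hpq
  obtain ⟨c, hc⟩ := mem_ad.1 hmem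
  obtain ⟨f, hfK, hfz, hf⟩ := h.1 z hzN
  have h1 := hgK _ hc
  have h2 := hfK _ hc
  simp only [map_sub, map_add, map_smul, smul_eq_mul, hgp, hgq, hfz] at h1 h2
  have h3 := hg z hzN hno.1 hno.2
  have h4 := hg s hs (Ne.symm hps) (Ne.symm hqs)
  have h5 : 0 < c := by
    by_contra hc0
    have := mul_nonneg (neg_nonneg.2 (not_lt.1 hc0)) h4.le
    linarith
  have h6 := hf p hpN (fun e => hno.1 e.symm)
  have h7 := hf q hqN (fun e => hno.2 e.symm)
  have h8 := hf s hs (Ne.symm hzs)
  have h9 := mul_pos h5 h8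
  have h10 := mul_nonneg hl h6.le
  have h11 := mul_nonneg hm h7.le
  linarith

theorem side_walk (h : Poly N K) {s a b x : W} (hs : s ∈ N) (hab : VAdj N K s a b)
    (hx : Br N K s a b x) (hxn : x ∉ nb N K s) :
    Relation.ReflTransGen (fun p q => Arc2 N K s ∅ p q ∧ Br N K s a x p ∧ Br N K s a x q) x a := by
  obtain ⟨α, β, hα, hβ, hm⟩ := br_pos h hs hab hx hxn
  have hne : a ≠ b := hab.2.2.1
  obtain ⟨ga, hga, hgaa, hgap⟩ := (poly_nb h hs).1 a hab.1
  obtain ⟨gb, hgb, hgbb, hgbp⟩ := (poly_nb h hs).1 b hab.2.1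
  have hgab : 0 < ga b := hgap b hab.2.1 (Ne.symm hne)
  have hgba : 0 < gb a := hgbp a hab.1 hne
  obtain ⟨ψ, hψK, hψs, hψ⟩ := h.1 s hs
  have haN : a ∈ N := (mem_nb.1 hab.1).2.1
  have has : a ≠ s := Ne.symm (mem_nb.1 hab.1).2.2.1
  set η : W →ₗ[ℝ] ℝ := (β / gb a) • gb - (α / ga b) • ga with hη
  have hηv : ∀ v : W, ∀ α' β' : ℝ, v - (α' • a + β' • b) ∈ ad K s → η v = β * α' - α * β' := by
    intro v α' β' hv
    have h1 := hga _ hv
    have h2 := hgb _ hv
    simp only [map_sub, map_add, map_smul, smul_eq_mul, hgaa, hgbb] at h1 h2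
    have h3 : ga v = β' * ga b := by linarith
    have h4 : gb v = α' * gb a := by linarith
    rw [hη, LinearMap.sub_apply, LinearMap.smul_apply, LinearMap.smul_apply, smul_eq_mul,
      smul_eq_mul, h3, h4]
    field_simp
  have hηad : ∀ z ∈ ad K s, η z = 0 := by
    intro z hz
    rw [hη, LinearMap.sub_apply, LinearMap.smul_apply, LinearMap.smul_apply, hga z hz, hgb z hz,
      smul_zero, smul_zero, sub_zero]
  have hηa : η a = β := by
    rw [hηv a 1 0 (by simp)]
    ring
  have hηx : η x = 0 := by
    rw [hηv x α β hm]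
    ring
  have hiff : ∀ v, Br N K s a b v → (0 ≤ η v ↔ Br N K s a x v) := by
    intro v hv
    constructor
    · intro h0
      obtain ⟨hvN, hvs, α', β', hα', hβ', hv'⟩ := hv
      rw [hηv v α' β' hv'] at h0
      refine ⟨hvN, hvs, (β * α' - α * β') / β, β' / β, div_nonneg h0 hβ.le,
        div_nonneg hβ' hβ.le, ?_⟩
      have h1 : v - (((β * α' - α * β') / β) • a + (β' / β) • x) =
          (v - (α' • a + β' • b)) - (β' / β) • (x - (α • a + β • b)) := by
        have h2 : (β * α' - α * β') / β = α' - (β' / β) * α := by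
          field_simp
        have h3 : β' • b = ((β' / β) * β) • b := by
          rw [div_mul_cancel₀ _ hβ.ne']
        rw [h2, h3]
        module
      rw [h1]
      exact Submodule.sub_mem _ hv' (Submodule.smul_mem _ _ hm)
    · rintro ⟨_, _, l, m, hl, hm', hmem⟩
      have h1 := hηad _ hmem
      simp only [map_sub, map_add, map_smul, smul_eq_mul, hηa, hηx] at h1
      have h2 := mul_nonneg hl hβ.le
      linarith
  obtain ⟨ε, hε, hε'⟩ := sw_eps N η ψ
  have hφK : ∀ z ∈ K, (η + ε • ψ) z = 0 := by
    intro z hz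
    rw [LinearMap.add_apply, LinearMap.smul_apply, hψK z hz, hηad z (le_ad K s hz), smul_zero,
      add_zero]
  have hφs : (η + ε • ψ) s = 0 := by
    rw [LinearMap.add_apply, LinearMap.smul_apply, hψs, hηad s (self_mem_ad K s), smul_zero,
      add_zero]
  obtain ⟨φ', hK', _, hφ'⟩ := sw_core h hs hab (η + ε • ψ) hφK hφs
  have hiff2 : ∀ v ∈ N, (0 < φ' v ↔ Br N K s a x v) := by
    intro v hvN
    rw [hφ' v hvN]
    constructor
    · rintro ⟨hbr, hpos⟩
      rw [← hiff v hbr]
      by_contra hneg
      have h1 := hε' v hvN (not_le.1 hneg)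
      rw [LinearMap.add_apply, LinearMap.smul_apply, smul_eq_mul] at hpos
      linarith
    · intro hbr
      have hbr' := br_trans hx hbr
      refine ⟨hbr', ?_⟩
      have h1 := (hiff v hbr').2 hbr
      have h2 := mul_pos hε (hψ v hvN hbr.2.1)
      rw [LinearMap.add_apply, LinearMap.smul_apply, smul_eq_mul]
      linarith
  have h1 : 0 < φ' x := (hiff2 x hx.1).2 (br_self hx.1 hx.2.1)
  have h2 : 0 < φ' a := (hiff2 a haN).2 (br_end haN has)
  have hw := conn h φ' hK' hx.1 haN h1 h2
  have key : ∀ p, Relation.ReflTransGen (fun p q => Adj N K p q ∧ 0 < φ' p ∧ 0 < φ' q) p a →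
      Relation.ReflTransGen
        (fun p q => Arc2 N K s ∅ p q ∧ Br N K s a x p ∧ Br N K s a x q) p a := by
    intro p hp
    induction hp using Relation.ReflTransGen.head_induction_on with
    | refl => exact Relation.ReflTransGen.refl
    | head hpq hww ih =>
      rename_i p q
      obtain ⟨hadj, hpp, hqq⟩ := hpq
      have hbp := (hiff2 p hadj.1).1 hpp
      have hbq := (hiff2 q hadj.2.1).1 hqq
      by_cases hpn : p ∈ nb N K s
      · rw [br_side_nb h hs hab hx hxn hbp hpn]
      · refine Relation.ReflTransGen.head ⟨⟨hadj, hbp.2.1, hbq.2.1, fun h' => absurd h' hpn,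
          fun _ a' b' hab' hbr' => ?_⟩, hbp, hbq⟩ ih
        have hbqab := br_trans hx hbq
        rcases br_uniq h hs hab hab' (br_trans hx hbp) hbr' hpn with ⟨rfl, rfl⟩ | ⟨rfl, rfl⟩
        · exact hbqab
        · exact br_comm hbqab
  exact key x hw

theorem cover (h : Poly N K) {s a b x z : W} (hs : s ∈ N) (hab : VAdj N K s a b)
    (hx : Br N K s a b x) (T : Set W) (hxT : x ∈ T)
    (hw : Relation.ReflTransGen (fun p q => Adj N K p q ∧ Br N K s a b p ∧ Br N K s a b q ∧
      p ∈ T ∧ q ∈ T) x b) (hz : Br N K s b x z) : z ∈ T := by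
  by_contra hzT
  have haN : a ∈ N := (mem_nb.1 hab.1).2.1
  have has : a ≠ s := Ne.symm (mem_nb.1 hab.1).2.2.1
  have hbN : b ∈ N := (mem_nb.1 hab.2.1).2.1
  have hbs : b ≠ s := Ne.symm (mem_nb.1 hab.2.1).2.2.1
  have hzab : Br N K s a b z := br_comm (br_trans (br_comm hx) hz)
  have hbT : b ∈ T := by
    rcases Relation.ReflTransGen.cases_tail hw with h1 | ⟨c, _, hc⟩
    · rw [h1]
      exact hxT
    · exact hc.2.2.2.2
  have hzb : z ≠ b := fun e => hzT (e ▸ hbT)
  have hzx : z ≠ x := fun e => hzT (e ▸ hxT)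
  obtain ⟨hzN, hzs, α', β', hα', hβ', hz'⟩ := id hzab
  -- all vertices of the walk are on the `a`-side of `z`
  have key : ∀ p, Relation.ReflTransGen (fun p q => Adj N K p q ∧ Br N K s a b p ∧
      Br N K s a b q ∧ p ∈ T ∧ q ∈ T) x p → Br N K s a z p := by
    intro p hp
    induction hp with
    | refl =>
      rcases br_total h hs hab hzab hx with h1 | h1
      · exact h1
      · exfalso
        obtain ⟨_, _, l, m, hl, hm, hmem⟩ := hz
        obtain ⟨_, _, l', m', hl', hm', hmem'⟩ := h1
        -- z = l b + m x, x = l' b + m' z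
        have h2 : (1 - m * m') • z - (l + m * l') • b ∈ ad K s := by
          have h3 : (1 - m * m') • z - (l + m * l') • b =
              (z - (l • b + m • x)) + m • (x - (l' • b + m' • z)) := by module
          rw [h3]
          exact Submodule.add_mem _ hmem (Submodule.smul_mem _ _ hmem')
        by_cases h4 : 1 - m * m' = 0
        · rw [h4, zero_smul, zero_sub] at h2
          have h5 := Submodule.neg_mem _ h2
          rw [neg_neg] at h5
          have h6 : l + m * l' = 0 := by
            by_contra h7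
            have h8 := Submodule.smul_mem _ (l + m * l')⁻¹ h5
            rw [smul_smul, inv_mul_cancel₀ h7, one_smul] at h8
            exact two h hs hbN hbs h8
          have h9 := mul_nonneg hm hl'
          have h10 : l = 0 := by linarith
          rw [h10, zero_smul, zero_add] at hmem
          exact three h hs hx.1 hzN (Ne.symm hx.2.1) (Ne.symm hzs) (Ne.symm hzx) m hmem
        · have h5 := Submodule.smul_mem _ (1 - m * m')⁻¹ h2
          rw [smul_sub, smul_smul, inv_mul_cancel₀ h4, one_smul, smul_smul] at h5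
          exact three h hs hbN hzN (Ne.symm hbs) (Ne.symm hzs) (Ne.symm hzb) _ h5
    | tail hww hpq ih =>
      rename_i p q
      obtain ⟨hadj, hbp, hbq, hpT, hqT⟩ := hpq
      rcases br_total h hs hab hzab hbq with h1 | h1
      · exact h1
      · exfalso
        have hpz : p ≠ z := fun e => hzT (e ▸ hpT)
        have hqz : q ≠ z := fun e => hzT (e ▸ hqT)
        obtain ⟨_, _, l, m, hl, hm, hmem⟩ := id ih
        obtain ⟨_, _, l', m', hl', hm', hmem'⟩ := id h1
        have hl0 : 0 < l := by
          rcases hl.eq_or_lt with h2 | h2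
          · exfalso
            rw [← h2, zero_smul, zero_add] at hmem
            exact three h hs hzN hbp.1 (Ne.symm hzs) (Ne.symm hbp.2.1) (Ne.symm hpz) m hmem
          · exact h2
        have hl0' : 0 < l' := by
          rcases hl'.eq_or_lt with h2 | h2
          · exfalso
            rw [← h2, zero_smul, zero_add] at hmem'
            exact three h hs hzN hbq.1 (Ne.symm hzs) (Ne.symm hbq.2.1) (Ne.symm hqz) m' hmem'
          · exact h2
        set D : ℝ := 1 + α' / l * m + β' / l' * m' with hD
        have hD0 : 0 < D := by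
          have h2 := mul_nonneg (div_nonneg hα' hl0.le) hm
          have h3 := mul_nonneg (div_nonneg hβ' hl0'.le) hm'
          linarith
        have hbrz : Br N K s p q z := by
          refine ⟨hzN, hzs, D⁻¹ * (α' / l), D⁻¹ * (β' / l'), mul_nonneg (inv_pos.2 hD0).le
            (div_nonneg hα' hl0.le), mul_nonneg (inv_pos.2 hD0).le (div_nonneg hβ' hl0'.le), ?_⟩
          have h2 : D • z - ((α' / l) • p + (β' / l') • q) ∈ ad K s := by
            have h3 : D • z - ((α' / l) • p + (β' / l') • q) =
                (z - (α' • a + β' • b)) - (α' / l) • (p - (l • a + m • z)) -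
                  (β' / l') • (q - (l' • b + m' • z)) := by
              have h4 : α' • a = (α' / l * l) • a := by rw [div_mul_cancel₀ _ hl0.ne']
              have h5 : β' • b = (β' / l' * l') • b := by rw [div_mul_cancel₀ _ hl0'.ne']
              rw [h4, h5, hD]
              module
            rw [h3]
            exact Submodule.sub_mem _ (Submodule.sub_mem _ hz' (Submodule.smul_mem _ _ hmem))
              (Submodule.smul_mem _ _ hmem')
          have h6 := Submodule.smul_mem _ D⁻¹ h2
          rw [smul_sub, smul_smul, inv_mul_cancel₀ hD0.ne', one_smul, smul_add, smul_smul,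
            smul_smul] at h6
          exact h6
        rcases no_skip h hs hbp.2.1 hbq.2.1 hadj hbrz with h2 | h2
        · exact hpz h2.symm
        · exact hqz h2.symm
  obtain ⟨_, _, l, m, hl, hm, hmem⟩ := key b hw
  obtain ⟨gb, hgb, hgbb, hgbp⟩ := (poly_nb h hs).1 b hab.2.1
  have hgba : 0 < gb a := hgbp a hab.1 hab.2.2.1
  have h1 := hgb _ hmem
  have h2 := hgb _ hz'
  simp only [map_sub, map_add, map_smul, smul_eq_mul, hgbb] at h1 h2
  have h3 : 0 ≤ gb z := by
    have := mul_nonneg hα' hgba.le
    linarith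
  have h4 := mul_nonneg hm h3
  have h5 : l = 0 := by
    rcases hl.eq_or_lt with h6 | h6
    · exact h6.symm
    · have := mul_pos h6 hgba
      linarith
  rw [h5, zero_smul, zero_add] at hmem
  exact three h hs hzN hbN (Ne.symm hzs) (Ne.symm hbs) hzb m hmem

end Pool.Agent.LPG
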