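import Pool.Agent.LPG.SideW

/-!
# Sources of `Y` stay on their branches (module SysOwn)

Let `Fr = Fre N K s X Vc Y`.  `Fr ⊆ X`, and `S x ∩ X = {x}` for `x ∈ X` (an element `y ∈ X` is in `S y`, and the
`S` are disjoint), so `S x ∩ Fr ⊆ {x}`.

`sys_nb`: let `v ∈ S x`, `v ∈ nb N K s`, `v ≠ e x`.  The walk from `v` to `e x` starts with an arc from `v`,
so `v ∈ Fr`, so `v = x` and `x ∈ Vc` (as `x ∈ nb N K s`).

`sys_br`: let `v ∈ S x`, `VAdj N K s a b`, `Br N K s a b v`.  If `v ∈ Fr` then `v = x ∈ X \ Y`, and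
(`v ∈ Vc`, or `v ∉ nb N K s`).  Otherwise all vertices `p` of the walk from `v` to `e x` are not in `Fr`
(`v ∉ Fr`, and the later ones are different from `x`: the walk never enters `x`) and satisfy
`Br N K s a b p` by the last condition of `Arc2`; so `Br N K s a b (e x)` and `br_nb`.

`sys_own`: `x ∈ Y` is not in `Fr`, so no vertex of `S x` is in `Fr`; walking from `x` to `v` all vertices
satisfy `Br N K s a b`.  In particular `e x ∈ {a, b}`.  Let `e x = b` (the other case by symmetry, `br_comm`,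
`VAdj` is symmetric) and `v ∈ X`, `Br N K s b x v`; `cover` with `T = S x` and the walk from `x` to
`e x` gives `v ∈ S x`, so `v = x`.
-/

set_option autoImplicit false

namespace Pool.Agent.LPG

variable {W : Type*} [AddCommGroup W] [Module ℝ W] {N : Finset W} {K : Submodule ℝ W}

theorem sys_inter {s : W} {X Vc : Finset W} {Fr : Set W} {S : W → Finset W} {e : W → W}
    (hSys : Sys N K s Fr X Vc S e) {x v : W} (hx : x ∈ X) (hv : v ∈ S x) (hvX : v ∈ X) :
    v = x := by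
  by_contra hne
  have h1 := hSys.1 x hx v hvX (fun h => hne h.symm)
  exact Finset.disjoint_left.1 h1 hv (hSys.2 v hvX).1

theorem sys_nb {s : W} {X Vc Y : Finset W} {S : W → Finset W} {e : W → W}
    (hSys : Sys N K s (Fre N K s X Vc Y) X Vc S e) {x v : W} (hx : x ∈ X) (hv : v ∈ S x)
    (hvn : v ∈ nb N K s) : v = e x ∨ (v = x ∧ x ∈ Vc) := by
  obtain ⟨_, _, _, _, hall⟩ := hSys.2 x hx
  obtain ⟨_, _, _, hw⟩ := hall v hv
  rcases Relation.ReflTransGen.cases_head hw with h1 | ⟨q, ⟨harc, _, _, _⟩, _⟩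
  · exact Or.inl h1
  · have hFr : v ∈ Fre N K s X Vc Y := harc.2.2.2.1 hvn
    have hvx : v = x := sys_inter hSys hx hv hFr.1
    refine Or.inr ⟨hvx, ?_⟩
    rw [← hvx]
    exact hFr.2.2 hvn

theorem sys_br (h : Poly N K) {s : W} (hs : s ∈ N) {X Vc Y : Finset W} {S : W → Finset W}
    {e : W → W} (hSys : Sys N K s (Fre N K s X Vc Y) X Vc S e) {x v : W} (hx : x ∈ X)
    (hv : v ∈ S x) {a b : W} (hab : VAdj N K s a b) (hbr : Br N K s a b v) :
    e x = a ∨ e x = b ∨ (v = x ∧ x ∉ Y ∧ (x ∈ Vc ∨ x ∉ nb N K s)) := by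
  obtain ⟨_, _, hen, _, hall⟩ := hSys.2 x hx
  by_cases hFr : v ∈ Fre N K s X Vc Y
  · have hvx : v = x := sys_inter hSys hx hv hFr.1
    refine Or.inr (Or.inr ⟨hvx, ?_, ?_⟩)
    · rw [← hvx]
      exact hFr.2.1
    · by_cases hn : x ∈ nb N K s
      · left
        have h1 := hFr.2.2
        rw [hvx] at h1
        exact h1 hn
      · exact Or.inr hn
  · obtain ⟨_, _, _, hw⟩ := hall v hv
    have key : ∀ q, Relation.ReflTransGen
        (fun p q => Arc2 N K s (Fre N K s X Vc Y) p q ∧ p ∈ S x ∧ q ∈ S x ∧ q ≠ x) v q →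
        Br N K s a b q ∧ q ∉ Fre N K s X Vc Y := by
      intro q hq
      induction hq with
      | refl => exact ⟨hbr, hFr⟩
      | tail _ hstep ih =>
        obtain ⟨harc, _, hqS, hqx⟩ := hstep
        refine ⟨harc.2.2.2.2 ih.2 a b hab ih.1, fun hF => ?_⟩
        exact hqx (sys_inter hSys hx hqS hF.1)
    rcases br_nb h hs hab hen (key _ hw).1 with h1 | h1
    · exact Or.inl h1
    · exact Or.inr (Or.inl h1)

theorem sys_own (h : Poly N K) {s : W} (hs : s ∈ N) {X Vc Y : Finset W} {S : W → Finset W}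
    {e : W → W} (hSys : Sys N K s (Fre N K s X Vc Y) X Vc S e) {x : W} (hx : x ∈ X)
    (hxY : x ∈ Y) (hxn : x ∉ nb N K s) {a b : W} (hab : VAdj N K s a b)
    (hbr : Br N K s a b x) :
    (∀ v ∈ S x, Br N K s a b v) ∧ (e x = a ∨ e x = b) ∧
      ∀ v ∈ X, Br N K s (e x) x v → v = x := by
  obtain ⟨hxS, heS, hen, _, hall⟩ := hSys.2 x hx
  have hnF : ∀ p ∈ S x, p ∉ Fre N K s X Vc Y := by
    intro p hp hF
    have h1 := sys_inter hSys hx hp hF.1
    have h2 := hF.2.1
    rw [h1] at h2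
    exact h2 hxY
  have key : ∀ q, Relation.ReflTransGen
      (fun p q => Arc2 N K s (Fre N K s X Vc Y) p q ∧ p ∈ S x ∧ q ∈ S x ∧ p ≠ e x) x q →
      Br N K s a b q ∧ Relation.ReflTransGen (fun p q => Adj N K p q ∧ Br N K s a b p ∧
        Br N K s a b q ∧ p ∈ (S x : Set W) ∧ q ∈ (S x : Set W)) x q := by
    intro q hq
    induction hq with
    | refl => exact ⟨hbr, Relation.ReflTransGen.refl⟩
    | tail _ hstep ih =>
      obtain ⟨harc, hpS, hqS, _⟩ := hstep
      have hbq := harc.2.2.2.2 (hnF _ hpS) a b hab ih.1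
      exact ⟨hbq, ih.2.tail ⟨harc.1, ih.1, hbq, Finset.mem_coe.2 hpS, Finset.mem_coe.2 hqS⟩⟩
  have hbrS : ∀ v ∈ S x, Br N K s a b v := fun v hv => (key v (hall v hv).2.2.1).1
  have hw := (key (e x) (hall (e x) heS).2.2.1).2
  have hend : e x = a ∨ e x = b := br_nb h hs hab hen (hbrS _ heS)
  refine ⟨hbrS, hend, fun v hvX hv => ?_⟩
  rcases hend with h1 | h1
  · rw [h1] at hv hw
    have hab' : VAdj N K s b a := adj_symm hab
    have hw' : Relation.ReflTransGen (fun p q => Adj N K p q ∧ Br N K s b a p ∧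
        Br N K s b a q ∧ p ∈ (S x : Set W) ∧ q ∈ (S x : Set W)) x a := by
      refine Relation.ReflTransGen.mono ?_ _ _ hw
      rintro p q ⟨r1, r2, r3, r4⟩
      exact ⟨r1, br_comm r2, br_comm r3, r4⟩
    have h2 := cover h hs hab' (br_comm hbr) (S x : Set W) (Finset.mem_coe.2 hxS) hw' hv
    exact sys_inter hSys hx (Finset.mem_coe.1 h2) hvX
  · rw [h1] at hv hw
    have h2 := cover h hs hab hbr (S x : Set W) (Finset.mem_coe.2 hxS) hw hv
    exact sys_inter hSys hx (Finset.mem_coe.1 h2) hvX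

end Pool.Agent.LPG
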