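import Pool.Agent.LPG.Defs

/-!
# Polytopes in Euclidean space and homogeneous coordinates (module TopDefs)
-/

set_option autoImplicit false

namespace Pool.Agent.LPG

/-- Euclidean space. -/
abbrev Eu (d : ℕ) := EuclideanSpace ℝ (Fin d)

/-- The points of `V` are in convex position: `V` is the vertex set of the polytope
`convexHull ℝ V`. -/
def ConvexPos {d : ℕ} (V : Finset (Eu d)) : Prop :=
  ∀ v ∈ V, v ∉ convexHull ℝ ((V : Set (Eu d)) \ {v})

/-- `u` and `v` are the two vertices of an edge of the polytope `convexHull ℝ V`: some linear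
functional attains its maximum on `V` exactly at `u` and `v`. -/
def IsEdge {d : ℕ} (V : Finset (Eu d)) (u v : Eu d) : Prop :=
  u ≠ v ∧ ∃ f : Eu d →ₗ[ℝ] ℝ, f u = f v ∧ ∀ w ∈ V, w ≠ u → w ≠ v → f w < f u

theorem isEdge_symm {d : ℕ} {V : Finset (Eu d)} {u v : Eu d} (h : IsEdge V u v) :
    IsEdge V v u := by
  obtain ⟨h1, f, h2, h3⟩ := h
  exact ⟨h1.symm, f, h2.symm, fun w hw hwv hwu => h2 ▸ h3 w hw hwu hwv⟩

/-- The graph of the polytope `convexHull ℝ V`. -/
def polyGraph {d : ℕ} (V : Finset (Eu d)) : SimpleGraph V where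
  Adj u v := IsEdge V (u : Eu d) v
  symm := ⟨fun _ _ h => isEdge_symm h⟩
  loopless := ⟨fun _ h => h.1 rfl⟩

/-- Homogeneous coordinates. -/
def hom {d : ℕ} (x : Eu d) : Eu d × ℝ := (x, 1)

theorem hom_inj {d : ℕ} : Function.Injective (hom : Eu d → Eu d × ℝ) := by
  intro x y h
  exact congrArg Prod.fst h

/-- Homogeneous coordinates as an embedding. -/
def homE (d : ℕ) : Eu d ↪ Eu d × ℝ := ⟨hom, hom_inj⟩

/-- The linear hull of the homogeneous coordinates of a set. -/
def lin {d : ℕ} (A : Set (Eu d)) : Submodule ℝ (Eu d × ℝ) := Submodule.span ℝ (hom '' A)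

end Pool.Agent.LPG
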